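import Pool.Agent.K1H79.RF.Stm2

/-! # The sharper version with the minus part of the class group

Owner helper79. -/

set_option autoImplicit false

namespace Pool.Agent.K1H79.RF

open NumberField IsDedekindDomain CohNT
open scoped Classical nonZeroDivisors

/-- U1: the number of integers of `L` in a box of side `D^(1/n)` is at most about `D^(1/2)` -/
def S_BOX : Prop := ∀ n k : ℕ, 1 ≤ n → 1 ≤ k → ∀ C0 : ℝ, 1 ≤ C0 → ∃ C : ℝ, 0 < C ∧
  ∀ (L : Type) [Field L] [NumberField L], Module.finrank ℚ L = n →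
    ∀ S : Finset (𝓞 L), (∀ δ ∈ S, ∀ v : InfinitePlace L, v (δ : L) ≤ C0 * |(discr L : ℝ)| ^ (1 / n : ℝ)) →
      (S.card : ℝ) ≤ C * |(discr L : ℝ)| ^ (1 / 2 + 1 / (2 * k) : ℝ)

/-- U2: the number of ideals of given norm -/
def S_RM : Prop := ∀ (d : ℕ) (ε : ℝ), 0 < ε → ∃ C : ℝ, 0 < C ∧
  ∀ (K : Type) [Field K] [NumberField K], Module.finrank ℚ K = d → ∀ m : ℕ, 1 ≤ m →
    (Nat.card {J : Ideal (𝓞 K) // Ideal.absNorm J = m} : ℝ) ≤ C * (m : ℝ) ^ ε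

/-- (helper79) the inequality for the inert primes -/
def S_INE : Prop := ∀ n : ℕ, Even n → 4 ≤ n → ∀ ε : ℝ, 0 < ε → ∃ C : ℝ, 0 < C ∧
  ∀ (L : Type) [Field L] [NumberField L], Module.finrank ℚ L = n → QR.NoSub L →
    ∀ (M : Finset ℕ) (Y : ℝ), (∀ p ∈ M, (p : ℝ) ≤ Y ∧ Ine L p) →
      C * Y ^ (3 * n * (n - 1)) < |(discr L : ℝ)| →
        (M.card : ℝ) * (Nat.card {c : ClassGroup (𝓞 L) // c ^ 3 = 1} : ℝ) ≤
          C * |(discr L : ℝ)| ^ (1 / 2 + ε : ℝ)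

/-- T4 (sharp form): the final estimate from the inequality for the inert primes -/
def S_FINM : Prop := S_INE → ∀ n : ℕ, Even n → 4 ≤ n → ∀ ε : ℝ, 0 < ε →
  QR.SavE n 3 (1 / 2 - 1 / (3 * n * (n - 1)) + ε) (fun L _ _ => QR.NoSub L)

end Pool.Agent.K1H79.RF
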