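import Mathlib

/-! # Characters of order three of finite abelian groups -/

set_option autoImplicit false

namespace Pool.Agent.K1H79.RF

open scoped Classical

/-- the number of cubic characters -/
theorem card_dual3 (A : Type) [CommGroup A] [Finite A] :
    Nat.card (A →* Multiplicative (ZMod 3)) = Nat.card {c : A // c ^ 3 = 1} := by
  obtain ⟨e⟩ := CommGroup.monoidHom_mulEquiv_of_hasEnoughRootsOfUnity A ℂ
  have hprim := Complex.isPrimitiveRoot_exp 3 (by norm_num)
  obtain ⟨u, hu⟩ : ∃ u : ℂˣ, IsPrimitiveRoot u 3 := by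
    obtain ⟨u, hu⟩ := hprim.isUnit (by norm_num)
    exact ⟨u, by
      rw [← hu] at hprim
      exact (IsPrimitiveRoot.coe_units_iff).1 hprim⟩
  let ι : Multiplicative (ZMod 3) ≃* Subgroup.zpowers u :=
    (AddEquiv.toMultiplicative hu.zmodEquivZPowers : _)
  have h1 : Nat.card (A →* Multiplicative (ZMod 3)) = Nat.card {φ : A →* ℂˣ // φ ^ 3 = 1} := by
    refine Nat.card_congr
      { toFun := fun ψ => ⟨(Subgroup.zpowers u).subtype.comp (ι.toMonoidHom.comp ψ), ?_⟩
        invFun := fun φ => ι.symm.toMonoidHom.comp (φ.1.codRestrict (Subgroup.zpowers u) ?_)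
        left_inv := ?_
        right_inv := ?_ }
    · ext x
      have h3 : (ψ x) ^ 3 = 1 := by
        have : ∀ y : Multiplicative (ZMod 3), y ^ 3 = 1 := by decide
        exact this _
      have h4 := congrArg (fun z => ((ι z : Subgroup.zpowers u) : ℂˣ)) h3
      simp only [map_pow, map_one, Subgroup.coe_pow, Subgroup.coe_one] at h4
      simpa using congrArg Units.val h4
    · intro x
      have h3 : φ.1 x ^ 3 = 1 := by
        have := DFunLike.congr_fun φ.2 x
        simpa using this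
      rw [hu.zpowers_eq, mem_rootsOfUnity]
      exact h3
    · intro ψ
      ext x
      simp
    · intro φ
      ext x
      simp
  rw [h1]
  refine Nat.card_congr (e.toEquiv.subtypeEquiv fun φ => ?_)
  constructor
  · intro h
    show (e φ) ^ 3 = 1
    rw [← map_pow, h, map_one]
  · intro h
    apply e.injective
    rw [map_pow, map_one]
    exact h

theorem sq_inj3 {x y : Multiplicative (ZMod 3)} (h : x ^ 2 = y ^ 2) : x = y := by
  have : ∀ x y : Multiplicative (ZMod 3), x ^ 2 = y ^ 2 → x = y := by decide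
  exact this x y h

theorem mul_inj3 {x y z : Multiplicative (ZMod 3)} (h : x * y = x * z) : y = z := by
  have : ∀ x y z : Multiplicative (ZMod 3), x * y = x * z → y = z := by decide
  exact this x y z h

/-- the contribution of the characters from below -/
theorem dual_mul {A B : Type} [CommGroup A] [Finite A] [CommGroup B] [Finite B] (e : B →* A) (N : A →* B)
    (hN : ∀ b, N (e b) = b ^ 2) :
    Nat.card {c : B // c ^ 3 = 1} * Nat.card {Ψ : A →* Multiplicative (ZMod 3) // ∀ b, Ψ (e b) = 1} ≤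
      Nat.card {c : A // c ^ 3 = 1} := by
  rw [← card_dual3, ← card_dual3, ← Nat.card_prod]
  have hfin : Finite (A →* Multiplicative (ZMod 3)) := DFunLike.finite _
  refine Nat.card_le_card_of_injective (fun p => (p.1.comp N) * p.2.1) ?_
  rintro ⟨φ, Ψ, hΨ⟩ ⟨φ', Ψ', hΨ'⟩ h
  have h1 : ∀ a, φ (N a) * Ψ a = φ' (N a) * Ψ' a := fun a => DFunLike.congr_fun h a
  have h2 : φ = φ' := by
    ext b
    have h3 := h1 (e b)
    rw [hN, hΨ, hΨ', mul_one, mul_one, map_pow, map_pow] at h3
    exact sq_inj3 h3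
  subst h2
  have h4 : Ψ = Ψ' := by
    refine MonoidHom.ext fun a => ?_
    exact mul_inj3 (h1 a)
  subst h4
  rfl

/-- the characters of the minus part -/
theorem dual_minus {A B : Type} [CommGroup A] [Finite A] [CommGroup B] [Finite B] (e : B →* A) (N : A →* B)
    (hN : ∀ b, N (e b) = b ^ 2) :
    Nat.card {Ψ : A →* Multiplicative (ZMod 3) // ∀ b, Ψ (e b) = 1} ≤ Nat.card {c : A // c ^ 3 = 1 ∧ N c = 1} := by
  have h1 := dual_mul e N hN
  have h2 : Nat.card {c : A // c ^ 3 = 1} ≤ Nat.card {c : B // c ^ 3 = 1} * Nat.card {c : A // c ^ 3 = 1 ∧ N c = 1} := by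
    rw [← Nat.card_prod]
    have key : ∀ c : A, c ^ 3 = 1 → N c ^ 3 = 1 := fun c hc => by rw [← map_pow, hc, map_one]
    refine Nat.card_le_card_of_injective (fun c : {c : A // c ^ 3 = 1} =>
      ((⟨N c.1 ^ 2, by rw [← pow_mul, mul_comm, pow_mul, key _ c.2, one_pow]⟩ : {c : B // c ^ 3 = 1}),
        (⟨c.1 * (e (N c.1 ^ 2))⁻¹, ?_, ?_⟩ : {c : A // c ^ 3 = 1 ∧ N c = 1}))) ?_
    · rw [mul_pow, c.2, one_mul, inv_pow, ← map_pow, ← pow_mul, mul_comm 2 3, pow_mul, key _ c.2, one_pow, map_one,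
        inv_one]
    · rw [map_mul, map_inv, hN, mul_inv_eq_one, ← pow_mul]
      calc N c.1 = N c.1 ^ 3 * N c.1 := by rw [key _ c.2, one_mul]
        _ = N c.1 ^ (2 * 2) := by rw [← pow_succ]
    · rintro ⟨c, hc⟩ ⟨c', hc'⟩ h
      rw [Prod.mk.injEq, Subtype.mk.injEq, Subtype.mk.injEq] at h
      obtain ⟨h3, h4⟩ := h
      rw [h3] at h4
      exact Subtype.ext (mul_right_cancel h4)
  have h3 : 0 < Nat.card {c : B // c ^ 3 = 1} := by
    have : Nonempty {c : B // c ^ 3 = 1} := ⟨⟨1, one_pow 3⟩⟩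
    exact Nat.card_pos
  exact Nat.le_of_mul_le_mul_left (h1.trans h2) h3

end Pool.Agent.K1H79.RF
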