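import Pool.Agent.K1H79.RF.MinP
import Pool.Agent.K1H79.RF.Dual3

/-! # Ideals prime to `3` in the classes; norms -/

set_option autoImplicit false

namespace Pool.Agent.K1H79.RF

open NumberField IsDedekindDomain Ideal CohNT
open scoped Classical nonZeroDivisors

section rep

variable {F : Type} [Field F] [NumberField F]

theorem exists_cop (c : ClassGroup (𝓞 F)) : ∃ J : (Ideal (𝓞 F))⁰, ClassGroup.mk0 J = c ∧
    ∀ v : Pr F, (3 : 𝓞 F) ∈ v.asIdeal → ¬ (J : Ideal (𝓞 F)) ≤ v.asIdeal := by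
  by_cases hex : ∃ v : Pr F, (3 : 𝓞 F) ∈ v.asIdeal
  · obtain ⟨v0, hv0⟩ := hex
    obtain ⟨I, hI⟩ := ClassGroup.mk0_surjective c⁻¹
    have hI0 : (I : Ideal (𝓞 F)) ≠ 0 := nonZeroDivisors.ne_zero I.2
    have h3 : Ideal.span {(3 : 𝓞 F)} ≠ 0 := by
      rw [Ne, Ideal.zero_eq_bot, Ideal.span_singleton_eq_bot]
      exact OfNat.ofNat_ne_zero 3
    obtain ⟨a, ha⟩ := IsDedekindDomain.exists_sup_span_eq (I := Ideal.span {(3 : 𝓞 F)} * (I : Ideal (𝓞 F)))
      (J := (I : Ideal (𝓞 F))) Ideal.mul_le_right (mul_ne_zero h3 hI0)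
    have hcan : ∀ v : Pr F, ¬ ((I : Ideal (𝓞 F)) ≤ (I : Ideal (𝓞 F)) * v.asIdeal) := by
      intro v h
      have h1 : (I : Ideal (𝓞 F)) * v.asIdeal = (I : Ideal (𝓞 F)) * 1 := by
        rw [mul_one]; exact le_antisymm Ideal.mul_le_left h
      exact v.isPrime.ne_top (by rw [mul_left_cancel₀ hI0 h1, Ideal.one_eq_top])
    have ha0 : a ≠ 0 := by
      rintro rfl
      rw [Ideal.span_singleton_eq_bot.2 rfl, sup_bot_eq] at ha
      apply hcan v0
      calc (I : Ideal (𝓞 F)) = Ideal.span {(3 : 𝓞 F)} * (I : Ideal (𝓞 F)) := ha.symm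
        _ = (I : Ideal (𝓞 F)) * Ideal.span {(3 : 𝓞 F)} := mul_comm _ _
        _ ≤ _ := Ideal.mul_mono_right ((Ideal.span_singleton_le_iff_mem _).2 hv0)
    obtain ⟨J, hJ⟩ : (I : Ideal (𝓞 F)) ∣ Ideal.span {a} := by
      rw [Ideal.dvd_iff_le]
      exact le_sup_right.trans ha.le
    have hJ0 : J ≠ 0 := by
      rintro rfl
      rw [mul_zero, Ideal.zero_eq_bot, Ideal.span_singleton_eq_bot] at hJ
      exact ha0 hJ
    refine ⟨⟨J, mem_nonZeroDivisors_of_ne_zero hJ0⟩, ?_, ?_⟩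
    · have h1 : ClassGroup.mk0 (I * ⟨J, mem_nonZeroDivisors_of_ne_zero hJ0⟩) = 1 := by
        rw [ClassGroup.mk0_eq_one_iff]
        exact ⟨a, by
          show (I : Ideal (𝓞 F)) * J = _
          rw [← hJ]⟩
      rw [map_mul, hI] at h1
      exact (inv_mul_eq_one.1 h1).symm
    · intro v hv hJv
      apply hcan v
      have h5 : (I : Ideal (𝓞 F)) ≤ Ideal.span {(3 : 𝓞 F)} * (I : Ideal (𝓞 F)) ⊔ Ideal.span {a} := ha.ge
      refine h5.trans (sup_le ?_ ?_)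
      · rw [mul_comm]
        exact Ideal.mul_mono_right ((Ideal.span_singleton_le_iff_mem _).2 hv)
      · rw [hJ]
        exact Ideal.mul_mono_right hJv
  · obtain ⟨I, hI⟩ := ClassGroup.mk0_surjective c
    exact ⟨I, hI, fun v hv => absurd ⟨v, hv⟩ hex⟩

/-- residues modulo `27` -/
theorem card27 : Nat.card (𝓞 F ⧸ Ideal.span {(27 : 𝓞 F)}) = 27 ^ Module.finrank ℚ F := by
  have h1 : Ideal.absNorm (Ideal.span {(27 : 𝓞 F)}) = 27 ^ Module.finrank ℚ F := by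
    rw [Ideal.absNorm_span_singleton]
    have h2 : (27 : 𝓞 F) = algebraMap ℤ (𝓞 F) 27 := by rw [map_ofNat]
    rw [h2, Algebra.norm_algebraMap, RingOfIntegers.rank, Int.natAbs_pow]
    rfl
  rw [Ideal.absNorm_apply, Submodule.cardQuot_apply] at h1
  exact h1

end rep

section nrm

variable {L K : Type} [Field L] [NumberField L] [Field K] [NumberField K] [Algebra L K]

theorem fr_eq : Module.finrank (𝓞 L) (𝓞 K) = Module.finrank L K :=
  (IsFractionRing.finrank_eq (𝓞 L) L (𝓞 K) K).symm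

/-- the norm on the class groups -/
theorem exists_norm (h2 : Module.finrank L K = 2) : ∃ N : ClassGroup (𝓞 K) →* ClassGroup (𝓞 L),
    (∀ b, N (ClassGroup.extendedHom (𝓞 L) (𝓞 K) b) = b ^ 2) ∧
    ∀ I : (Ideal (𝓞 K))⁰, N (ClassGroup.mk0 I) = 1 → (Ideal.relNorm (𝓞 L) (I : Ideal (𝓞 K))).IsPrincipal := by
  have hne : ∀ I : (Ideal (𝓞 K))⁰, Ideal.relNorm (𝓞 L) (I : Ideal (𝓞 K)) ∈ (Ideal (𝓞 L))⁰ := by
    intro I
    apply mem_nonZeroDivisors_of_ne_zero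
    rw [Ne, Ideal.zero_eq_bot, Ideal.relNorm_eq_bot_iff]
    exact nonZeroDivisors.ne_zero I.2
  obtain ⟨N, hN⟩ := lift_class (K := K) (G := ClassGroup (𝓞 L))
    { toFun := fun I => ClassGroup.mk0 ⟨Ideal.relNorm (𝓞 L) (I : Ideal (𝓞 K)), hne I⟩
      map_one' := by
        rw [ClassGroup.mk0_eq_one_iff]
        show (Ideal.relNorm (𝓞 L) (1 : Ideal (𝓞 K))).IsPrincipal
        rw [map_one, Ideal.one_eq_top]
        exact ⟨1, by simp⟩
      map_mul' := by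
        intro I J
        rw [← map_mul]
        congr 1
        apply Subtype.ext
        show Ideal.relNorm (𝓞 L) ((I : Ideal (𝓞 K)) * (J : Ideal (𝓞 K))) = _
        rw [map_mul]
        rfl } (by
      intro I a hI
      show ClassGroup.mk0 _ = 1
      rw [ClassGroup.mk0_eq_one_iff]
      show (Ideal.relNorm (𝓞 L) (I : Ideal (𝓞 K))).IsPrincipal
      rw [hI, Ideal.relNorm_singleton]
      exact ⟨_, rfl⟩)
  refine ⟨N, fun b => ?_, fun I hI => ?_⟩
  swap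
  · rw [hN] at hI
    have h3 : ClassGroup.mk0 (⟨Ideal.relNorm (𝓞 L) (I : Ideal (𝓞 K)), hne I⟩ : (Ideal (𝓞 L))⁰) = 1 := hI
    rw [ClassGroup.mk0_eq_one_iff] at h3
    exact h3
  obtain ⟨I, rfl⟩ := ClassGroup.mk0_surjective b
  rw [ClassGroup.extendedHom_mk0, hN, ← map_pow]
  show ClassGroup.mk0 _ = ClassGroup.mk0 _
  congr 1
  apply Subtype.ext
  show Ideal.relNorm (𝓞 L) ((I : Ideal (𝓞 L)).map (algebraMap (𝓞 L) (𝓞 K))) = _
  rw [Ideal.relNorm_algebraMap, fr_eq, h2]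
  rfl

/-- if an element of `L` which is the cube of an ideal is a cube in `K` then the ideal is principal up to squares -/
theorem class_of_cube (h2 : Module.finrank L K = 2) {x : 𝓞 L} (hx : x ≠ 0) {J : (Ideal (𝓞 L))⁰}
    (hJ : Ideal.span {x} = (J : Ideal (𝓞 L)) ^ 3) {κ : K} (hκ : κ ^ 3 = ((algebraMap (𝓞 L) (𝓞 K) x : 𝓞 K) : K)) :
    ClassGroup.mk0 J = 1 := by
  have hint : IsIntegral ℤ κ := by
    apply IsIntegral.of_pow (n := 3) (by norm_num)
    rw [hκ]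
    exact RingOfIntegers.isIntegral_coe _
  obtain ⟨k, hk⟩ : ∃ k : 𝓞 K, (k : K) = κ := ⟨⟨κ, hint⟩, rfl⟩
  have hk3 : k ^ 3 = algebraMap (𝓞 L) (𝓞 K) x := by
    apply RingOfIntegers.ext
    rw [← hκ, ← hk]
    rfl
  have hk0 : k ≠ 0 := by
    rintro rfl
    rw [zero_pow (by norm_num)] at hk3
    exact hx (FaithfulSMul.algebraMap_injective (𝓞 L) (𝓞 K) (by rw [← hk3, map_zero]))
  have hJ0 : (J : Ideal (𝓞 L)) ≠ 0 := nonZeroDivisors.ne_zero J.2
  have h1 : Ideal.span {k} = ex K (J : Ideal (𝓞 L)) := by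
    refine ideal_ext (by rw [Ne, Ideal.zero_eq_bot, Ideal.span_singleton_eq_bot]; exact hk0) (ex_ne hJ0) fun w => ?_
    have h3 : Ideal.span {k} ^ 3 = ex K (J : Ideal (𝓞 L)) ^ 3 := by
      rw [Ideal.span_singleton_pow, hk3]
      have h4 : ex K (Ideal.span {x}) = Ideal.span {algebraMap (𝓞 L) (𝓞 K) x} := by
        unfold ex
        rw [Ideal.map_span, Set.image_singleton]
      rw [← h4, hJ]
      unfold ex
      rw [Ideal.map_pow]
    have h5 := congrArg (cn w) h3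
    have h6 : ∀ I : Ideal (𝓞 K), I ≠ 0 → cn w (I ^ 3) = 3 * cn w I := by
      intro I hI
      rw [pow_succ, pow_two, cn_mul w (mul_ne_zero hI hI) hI, cn_mul w hI hI]
      ring
    rw [h6 _ (by rw [Ne, Ideal.zero_eq_bot, Ideal.span_singleton_eq_bot]; exact hk0), h6 _ (ex_ne hJ0)] at h5
    omega
  have h7 : (J : Ideal (𝓞 L)) ^ 2 = Ideal.span {Algebra.intNorm (𝓞 L) (𝓞 K) k} := by
    rw [← Ideal.relNorm_singleton, h1]
    unfold ex
    rw [Ideal.relNorm_algebraMap, fr_eq, h2]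
  have h8 : ClassGroup.mk0 J ^ 2 = 1 := by
    rw [← map_pow, ClassGroup.mk0_eq_one_iff]
    exact ⟨_, by rw [SubmonoidClass.coe_pow, h7]⟩
  have h9 : ClassGroup.mk0 J ^ 3 = 1 := by
    rw [← map_pow, ClassGroup.mk0_eq_one_iff]
    exact ⟨x, by rw [SubmonoidClass.coe_pow, ← hJ]⟩
  calc ClassGroup.mk0 J = ClassGroup.mk0 J ^ 3 * (ClassGroup.mk0 J ^ 2)⁻¹ := by
        rw [pow_succ, mul_comm (ClassGroup.mk0 J ^ 2), mul_inv_cancel_right]
    _ = 1 := by rw [h8, h9, inv_one, mul_one]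

end nrm

end Pool.Agent.K1H79.RF
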