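import Pool.Agent.K1H38.RT.Sep
import Pool.Agent.K1H79.RF.Stm3
import Pool.Agent.K1H79.RF.Rep

/-! # The primes of `L(√-3)` above inert primes, and their separation

From the lemmas of helper38 (K1H38/RT). -/

set_option autoImplicit false
set_option linter.unusedSectionVars false

namespace Pool.Agent.K1H79.RF

open NumberField IsDedekindDomain CohNT IntermediateField Pool.Agent.K1H38.RT
open scoped Classical nonZeroDivisors

variable {L K : Type} [Field L] [NumberField L] [Field K] [NumberField K] [Algebra L K]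

/-- a proper ideal above an inert prime has norm at least `p^n` -/
theorem norm_ge {p : ℕ} (hp : p.Prime) (hI : (Ideal.span {((p : ℕ) : 𝓞 L)}).IsPrime) {W : Ideal (𝓞 K)}
    (hW : W ≠ ⊤) (hpW : ((p : ℕ) : 𝓞 K) ∈ W) : p ^ (Module.finrank ℚ L) ≤ Ideal.absNorm W := by
  have hp0 : ((p : ℕ) : 𝓞 L) ≠ 0 := by exact_mod_cast hp.ne_zero
  have hmax : (Ideal.span {((p : ℕ) : 𝓞 L)}).IsMaximal := hI.isMaximal (by
    rw [Ne, Ideal.span_singleton_eq_bot]; exact hp0)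
  have h1 : Ideal.span {((p : ℕ) : 𝓞 L)} = W.comap (algebraMap (𝓞 L) (𝓞 K)) := by
    apply hmax.eq_of_le
    · rw [Ne, Ideal.comap_eq_top_iff]; exact hW
    · rw [Ideal.span_le, Set.singleton_subset_iff, SetLike.mem_coe, Ideal.mem_comap, map_natCast]
      exact hpW
  have hW0 : W ≠ ⊥ := by
    rintro rfl
    rw [Ideal.mem_bot] at hpW
    exact hp.ne_zero (by exact_mod_cast hpW)
  have hfin : Finite (𝓞 K ⧸ W) := Ideal.finiteQuotientOfFreeOfNeBot W hW0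
  rw [← absNorm_p L p]
  change Nat.card (𝓞 L ⧸ Ideal.span {((p : ℕ) : 𝓞 L)}) ≤ Nat.card (𝓞 K ⧸ W)
  refine Nat.card_le_card_of_injective
    (Ideal.quotientMap (I := Ideal.span {((p : ℕ) : 𝓞 L)}) W (algebraMap (𝓞 L) (𝓞 K)) h1.le) ?_
  exact Ideal.quotientMap_injective' h1.ge

/-- an ideal of norm `p^n` containing `p` is prime -/
theorem prime_of {p : ℕ} (hp : p.Prime) (hI : (Ideal.span {((p : ℕ) : 𝓞 L)}).IsPrime) {P : Ideal (𝓞 K)}
    (hP : Ideal.absNorm P = p ^ (Module.finrank ℚ L)) (hpP : ((p : ℕ) : 𝓞 K) ∈ P) : P.IsMaximal := by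
  have hn0 : 0 < Module.finrank ℚ L := Module.finrank_pos
  have hPt : P ≠ ⊤ := by
    rintro rfl
    rw [Ideal.absNorm_top] at hP
    exact absurd hP.symm (Nat.one_lt_pow hn0.ne' hp.one_lt).ne'
  obtain ⟨W, hWm, hPW⟩ := Ideal.exists_le_maximal P hPt
  have h1 := norm_ge (K := K) hp hI hWm.ne_top (hPW hpP)
  obtain ⟨J, hJ⟩ := Ideal.dvd_iff_le.2 hPW
  have h2 : Ideal.absNorm P = Ideal.absNorm W * Ideal.absNorm J := by rw [hJ, map_mul]
  have h3 : Ideal.absNorm J = 1 := by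
    have h4 : 0 < p ^ (Module.finrank ℚ L) := pow_pos hp.pos _
    rw [hP] at h2
    rcases Nat.lt_trichotomy (Ideal.absNorm J) 1 with h5 | h5 | h5
    · have h6 : Ideal.absNorm J = 0 := by omega
      rw [h6, mul_zero] at h2
      omega
    · exact h5
    · exfalso
      nlinarith
  rw [Ideal.absNorm_eq_one_iff] at h3
  rw [hJ, h3, Ideal.mul_top]
  exact hWm

/-- the setting: `x = ω`, the automorphism, the two ideals -/
theorem two_ideals (he : Even (Module.finrank ℚ L)) (h2 : Module.finrank L K = 2) (τ : K ≃ₐ[L] K)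
    {x : 𝓞 K} (hx : x ^ 2 + x + 1 = 0) (hτ : TO τ x = -1 - x) {p : ℕ} (hp : Ine L p) :
    ∃ z : 𝓞 L, (PI p x (algebraMap (𝓞 L) (𝓞 K) z)).IsMaximal ∧
      (PI p (-1 - x) (algebraMap (𝓞 L) (𝓞 K) z)).IsMaximal ∧
      Ideal.absNorm (PI p x (algebraMap (𝓞 L) (𝓞 K) z)) = p ^ (Module.finrank ℚ L) ∧
      Ideal.absNorm (PI p (-1 - x) (algebraMap (𝓞 L) (𝓞 K) z)) = p ^ (Module.finrank ℚ L) ∧
      PI p x (algebraMap (𝓞 L) (𝓞 K) z) * PI p (-1 - x) (algebraMap (𝓞 L) (𝓞 K) z) =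
        Ideal.span {((p : ℕ) : 𝓞 K)} ∧
      IsCoprime (PI p x (algebraMap (𝓞 L) (𝓞 K) z)) (PI p (-1 - x) (algebraMap (𝓞 L) (𝓞 K) z)) := by
  obtain ⟨hpp, h3, hI⟩ := hp
  obtain ⟨z, hz⟩ := exists_z rfl he hpp h3 hI
  obtain ⟨c, hc⟩ := Ideal.mem_span_singleton'.1 hz
  have hz' : z ^ 2 + z + 1 = p * c := by rw [← hc, mul_comm]
  have hzK : (algebraMap (𝓞 L) (𝓞 K) z) ^ 2 + algebraMap (𝓞 L) (𝓞 K) z + 1 =
      p * algebraMap (𝓞 L) (𝓞 K) c := by
    have := congrArg (algebraMap (𝓞 L) (𝓞 K)) hz'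
    rw [map_add, map_add, map_pow, map_one, map_mul, map_natCast] at this
    exact this
  have hN1 := absNorm_PI h2 τ h3 hx hτ hz'
  have hx' : (-1 - x) ^ 2 + (-1 - x) + 1 = 0 := by linear_combination hx
  have hτ' : TO τ (-1 - x) = -1 - (-1 - x) := by rw [map_sub, map_neg, map_one, hτ]
  have hN2 := absNorm_PI h2 τ h3 hx' hτ' hz'
  exact ⟨z, prime_of hpp hI hN1 (p_mem _ _ _), prime_of hpp hI hN2 (p_mem _ _ _), hN1, hN2,
    prod_eq h3 hx hzK, coprime_conj h3 hx⟩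

theorem exists_x {ω : K} (hω : ω ^ 2 + ω + 1 = 0) : ∃ x : 𝓞 K, (x : K) = ω ∧ x ^ 2 + x + 1 = 0 := by
  have hI : IsIntegral ℤ ω := by
    refine ⟨Polynomial.X ^ 2 + Polynomial.X + 1, by monicity!, ?_⟩
    simpa using hω
  obtain ⟨x, hx⟩ : ∃ x : 𝓞 K, (x : K) = ω := ⟨⟨ω, hI⟩, rfl⟩
  refine ⟨x, hx, ?_⟩
  refine RingOfIntegers.ext ?_
  rw [RingOfIntegers.coe_eq_algebraMap, RingOfIntegers.coe_eq_algebraMap, map_add, map_add, map_pow, map_one,
    map_zero, ← RingOfIntegers.coe_eq_algebraMap, hx]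
  exact hω

theorem TO_x (τ : K ≃ₐ[L] K) {ω : K} (hτω : τ ω = -1 - ω) {x : 𝓞 K} (hx : (x : K) = ω) :
    TO τ x = -1 - x := by
  refine RingOfIntegers.ext ?_
  rw [TO_coe, hx, hτω, RingOfIntegers.coe_eq_algebraMap, map_sub, map_neg, map_one]
  rw [← RingOfIntegers.coe_eq_algebraMap, hx]

/-- the structure of a prime above an inert prime -/
theorem ov_str (he : Even (Module.finrank ℚ L)) (h2 : Module.finrank L K = 2) {ω : K}
    (hω : ω ^ 2 + ω + 1 = 0) (τ : K ≃ₐ[L] K) (hτω : τ ω = -1 - ω) {p : ℕ} (hp : Ine L p)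
    {P : Ideal (𝓞 K)} (hP : P.IsPrime) (hpP : ((p : ℕ) : 𝓞 K) ∈ P) :
    ∃ x : 𝓞 K, ∃ z : 𝓞 L, P = PI p x (algebraMap (𝓞 L) (𝓞 K) z) ∧ TO τ x = -1 - x ∧
      P * Ideal.map (TO τ) P = Ideal.span {((p : ℕ) : 𝓞 K)} ∧ IsCoprime P (Ideal.map (TO τ) P) ∧ P ≠ ⊤ := by
  obtain ⟨x, hxω, hx⟩ := exists_x hω
  have hτ := TO_x τ hτω hxω
  obtain ⟨z, hm1, hm2, -, -, hprod, hcop⟩ := two_ideals he h2 τ hx hτ hp
  have h1 : PI p x (algebraMap (𝓞 L) (𝓞 K) z) * PI p (-1 - x) (algebraMap (𝓞 L) (𝓞 K) z) ≤ P := by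
    rw [hprod, Ideal.span_le, Set.singleton_subset_iff]
    exact hpP
  have hτ' : TO τ (-1 - x) = -1 - (-1 - x) := by rw [map_sub, map_neg, map_one, hτ]
  rcases hP.mul_le.1 h1 with h | h
  · have hPe : PI p x (algebraMap (𝓞 L) (𝓞 K) z) = P := hm1.eq_of_le hP.ne_top h
    refine ⟨x, z, hPe.symm, hτ, ?_, ?_, hP.ne_top⟩
    · rw [← hPe, map_PI τ p x z hτ, hprod]
    · rw [← hPe, map_PI τ p x z hτ]
      exact hcop
  · have hPe : PI p (-1 - x) (algebraMap (𝓞 L) (𝓞 K) z) = P := hm2.eq_of_le hP.ne_top h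
    refine ⟨-1 - x, z, hPe.symm, hτ', ?_, ?_, hP.ne_top⟩
    · rw [← hPe, map_PI τ p (-1 - x) z hτ', sub_sub_cancel, mul_comm, hprod]
    · rw [← hPe, map_PI τ p (-1 - x) z hτ', sub_sub_cancel]
      exact hcop.symm

theorem t_PRM : S_PRM := by
  intro L K _ _ _ _ _ he h2 ω hω hL p hp
  obtain ⟨τ, hτω, hττ, hfix⟩ := Pool.Agent.K1H38.RT.exists_tau h2 hω hL
  obtain ⟨x, hxω, hx⟩ := exists_x hω
  have hτ := TO_x τ hτω hxω
  obtain ⟨z, hm1, hm2, hN1, hN2, hprod, hcop⟩ := two_ideals he h2 τ hx hτ hp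
  obtain ⟨P, hPd⟩ : ∃ P, P = PI p x (algebraMap (𝓞 L) (𝓞 K) z) := ⟨_, rfl⟩
  obtain ⟨P', hPd'⟩ : ∃ P', P' = PI p (-1 - x) (algebraMap (𝓞 L) (𝓞 K) z) := ⟨_, rfl⟩
  rw [← hPd] at hm1 hN1 hprod hcop
  rw [← hPd'] at hm2 hN2 hprod hcop
  refine ⟨P, ⟨hm1.isPrime, by rw [hPd]; exact p_mem _ _ _, P', hm2.isPrime, by rw [hPd']; exact p_mem _ _ _,
    ?_⟩, ?_⟩
  · rintro rfl
    rw [isCoprime_self, Ideal.isUnit_iff] at hcop
    exact hm1.ne_top hcop
  · have h1 : Ideal.relNorm (𝓞 L) P ∣ (Ideal.span {((p : ℕ) : 𝓞 L)}) ^ 2 := by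
      refine ⟨Ideal.relNorm (𝓞 L) P', ?_⟩
      rw [← map_mul, hprod]
      have h3 : Ideal.span {((p : ℕ) : 𝓞 K)} = Ideal.map (algebraMap (𝓞 L) (𝓞 K)) (Ideal.span {((p : ℕ) : 𝓞 L)}) := by
        rw [Ideal.map_span, Set.image_singleton, map_natCast]
      rw [h3, Ideal.relNorm_algebraMap, fr_eq, h2]
    have hpr : Prime (Ideal.span {((p : ℕ) : 𝓞 L)}) := by
      refine Ideal.prime_of_isPrime ?_ hp.2.2
      rw [Ne, Ideal.span_singleton_eq_bot]
      exact_mod_cast hp.1.ne_zero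
    obtain ⟨i, hi, hi'⟩ := (dvd_prime_pow hpr 2).1 h1
    rw [associated_iff_eq] at hi'
    have h4 := congrArg Ideal.absNorm hi'
    have h5 : Ideal.absNorm (Ideal.relNorm (𝓞 L) P) = Ideal.absNorm P := by
      exact absNorm_rel P
    rw [h5, hN1, map_pow, absNorm_p] at h4
    have hn0 : 0 < Module.finrank ℚ L := Module.finrank_pos
    have h6 : i = 1 := by
      rw [← pow_mul] at h4
      have h7 := Nat.pow_right_injective hp.1.two_le h4
      nlinarith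
    rw [hi', h6, pow_one]

theorem int_div {R : Type} [CommRing R] {x y q : R} {P Q : Ideal R} (hq : q ∈ Q)
    (h : Ideal.span {x} * P ^ 3 = Ideal.span {y} * Q ^ 3) : ∃ d : R, y * q ^ 3 = x * d := by
  have h0 : q ^ 3 ∈ Q ^ 3 := Ideal.pow_mem_pow hq 3
  have h1 : y * q ^ 3 ∈ Ideal.span {y} * Q ^ 3 :=
    Ideal.mul_mem_mul (Ideal.mem_span_singleton_self y) h0
  rw [← h] at h1
  obtain ⟨d, hd⟩ := Ideal.mem_span_singleton'.1 (Ideal.mul_le_left h1 : y * q ^ 3 ∈ Ideal.span {x})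
  exact ⟨d, by rw [← hd, mul_comm]⟩

theorem disc_int {n : ℕ} (hn : Module.finrank ℚ L = n) (ν : L) (hν : ℚ⟮ν⟯ = ⊤) {B : ℝ}
    (hw : ∀ w : InfinitePlace K, w (algebraMap L K ν) ≤ B) (hI : IsIntegral ℤ ν) :
    |(discr L : ℝ)| ≤ (2 * B) ^ (n * (n - 1)) := by
  have h := QR.disc_bound_frac hn ν hν (B := B) (by
    intro v
    obtain ⟨w, hw'⟩ := InfinitePlace.comap_surjective (K := K) v
    have hw2 : w.comap (algebraMap L K) = v := hw'
    have := hw w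
    rw [← InfinitePlace.comap_apply, hw2] at this
    exact this) 1 (by
    intro b hb
    obtain ⟨d, hd⟩ : ∃ d : 𝓞 L, (d : L) = ν := ⟨⟨ν, hI⟩, rfl⟩
    refine ⟨d * b, ?_⟩
    rw [← hd, RingOfIntegers.coe_eq_algebraMap, RingOfIntegers.coe_eq_algebraMap,
      RingOfIntegers.coe_eq_algebraMap, map_mul])
  refine h.trans (le_of_eq ?_)
  have h1 : Ideal.absNorm (((1 : (Ideal (𝓞 L))⁰) : Ideal (𝓞 L))) = 1 := by
    rw [OneMemClass.coe_one, map_one]
  rw [h1]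
  simp

/-- the estimate in the separation argument -/
theorem sep_num {n : ℕ} {B r P Q M : ℝ} (hB : 0 < B) (hP : 1 ≤ P) (hQ : 1 ≤ Q) (hM1 : P ≤ M) (hM2 : Q ≤ M)
    (hr : r ≤ B ^ 2 * P ^ 3 ∨ r ≤ 2 * B * (P / Q) ^ (3 / 2 : ℝ) * Q ^ 3) (hr0 : 0 ≤ r) :
    (2 * r) ^ (n * (n - 1)) ≤ (2 * B ^ 2 + 4 * B) ^ (n * (n - 1)) * M ^ (3 * n * (n - 1)) := by
  have hM : 1 ≤ M := hP.trans hM1
  have h1 : r ≤ (B ^ 2 + 2 * B) * M ^ 3 := by
    rcases hr with h | h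
    · calc r ≤ B ^ 2 * P ^ 3 := h
        _ ≤ B ^ 2 * M ^ 3 := by gcongr
        _ ≤ _ := by
          have : 0 ≤ 2 * B * M ^ 3 := by positivity
          nlinarith
    · have h2 : (P / Q) ^ (3 / 2 : ℝ) * Q ^ 3 ≤ M ^ 3 := by
        have hQ0 : 0 < Q := by linarith
        have hP0 : 0 < P := by linarith
        have hM0 : 0 < M := by linarith
        have h3 : (P / Q) ^ (3 / 2 : ℝ) * Q ^ 3 = (P * Q) ^ (3 / 2 : ℝ) := by
          rw [Real.div_rpow hP0.le hQ0.le, Real.mul_rpow hP0.le hQ0.le, ← Real.rpow_natCast Q 3,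
            div_mul_eq_mul_div, mul_div_assoc, ← Real.rpow_sub hQ0]
          norm_num
        rw [h3]
        calc (P * Q) ^ (3 / 2 : ℝ) ≤ (M * M) ^ (3 / 2 : ℝ) := by
              apply Real.rpow_le_rpow (by positivity) _ (by norm_num)
              exact mul_le_mul hM1 hM2 hQ0.le hM0.le
          _ = M ^ 3 := by
              rw [← sq, ← Real.rpow_natCast M 2, ← Real.rpow_mul hM0.le, ← Real.rpow_natCast M 3]
              norm_num
      calc r ≤ 2 * B * (P / Q) ^ (3 / 2 : ℝ) * Q ^ 3 := h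
        _ = 2 * B * ((P / Q) ^ (3 / 2 : ℝ) * Q ^ 3) := by ring
        _ ≤ 2 * B * M ^ 3 := by gcongr
        _ ≤ _ := by
          have : 0 ≤ B ^ 2 * M ^ 3 := by positivity
          nlinarith
  calc (2 * r) ^ (n * (n - 1)) ≤ ((2 * B ^ 2 + 4 * B) * M ^ 3) ^ (n * (n - 1)) := by
        apply pow_le_pow_left₀ (by positivity)
        linarith
    _ = _ := by
        rw [mul_pow, ← pow_mul, mul_assoc 3 n]

theorem t_SEP : S_SEP := by
  intro n he hn4 B hB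
  refine ⟨(2 * B ^ 2 + 4 * B) ^ (n * (n - 1)), by positivity, ?_⟩
  intro L K _ _ _ _ _ hn hns h2 ω hω p q hpq hp hq P Q hP hQ x y hx hy h hw
  have hns' : ∀ E : IntermediateField ℚ L, E = ⊥ ∨ E = ⊤ := hns
  have hL : ∀ z : L, z ^ 2 + z + 1 ≠ 0 := fun z => Pool.Agent.K1H38.RT.no_root hn (by omega) hns' z
  obtain ⟨τ, hτω, hττ, hfix⟩ := Pool.Agent.K1H38.RT.exists_tau h2 hω hL
  have he' : Even (Module.finrank ℚ L) := by rw [hn]; exact he
  obtain ⟨x1, z1, hP1, -, hPp, hPc, hPt⟩ := ov_str he' h2 hω τ hτω hp hP.1 hP.2.1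
  obtain ⟨x2, z2, hQ1, -, hQq, hQc, hQt⟩ := ov_str he' h2 hω τ hτω hq hQ.1 hQ.2.1
  have hPQ : IsCoprime P Q := by
    rw [hP1, hQ1]
    exact coprime_pq hp.1 hq.1 hpq _ _ _ _
  have hu := unit_eq τ hPp hQq h
  have hnotL := a_not_L τ hx hy hPt hPc hPQ h
  obtain ⟨ν, hν⟩ := hfix ((y : K) / (x : K) * τ ((y : K) / (x : K))) (by
    rw [map_mul, hττ, mul_comm])
  obtain ⟨t, ht⟩ := hfix ((y : K) / (x : K) + τ ((y : K) / (x : K))) (by
    rw [map_add, hττ, add_comm])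
  have hxK : (x : K) ≠ 0 := by exact_mod_cast hx
  have hTxK : τ (x : K) ≠ 0 := by
    rw [Ne, map_eq_zero_iff _ τ.injective]
    exact hxK
  have hqK : ((q : ℕ) : K) ≠ 0 := by exact_mod_cast hq.1.ne_zero
  have hqL : ((q : ℕ) : L) ≠ 0 := by exact_mod_cast hq.1.ne_zero
  have hp1 : (1 : ℝ) ≤ p := by exact_mod_cast hp.1.one_lt.le
  have hq1 : (1 : ℝ) ≤ q := by exact_mod_cast hq.1.one_lt.le
  have hp0 : (0 : ℝ) < p := by linarith
  have hq0 : (0 : ℝ) < q := by linarith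
  obtain ⟨c, hc⟩ : ∃ c : ℝ, c = B * ((p : ℝ) / q) ^ (3 / 2 : ℝ) := ⟨_, rfl⟩
  have hc0 : 0 ≤ c := by rw [hc]; positivity
  have hw1 : ∀ w : InfinitePlace K, w ((y : K) / (x : K)) ≤ c := by
    intro w
    rw [map_div₀, div_le_iff₀ (InfinitePlace.pos_iff.2 hxK), hc]
    exact hw w
  have hw2 : ∀ w : InfinitePlace K, w (τ ((y : K) / (x : K))) ≤ c := by
    intro w
    exact hw1 (w.comap (τ : K →+* K))
  have hwq : ∀ w : InfinitePlace K, w (((q : ℕ) : K) ^ 3) = (q : ℝ) ^ 3 := by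
    intro w
    rw [map_pow, show w ((q : ℕ) : K) = (q : ℝ) from by simp]
  by_cases hνr : ∀ r : ℚ, ν ≠ (r : L)
  · have hgen := gen_rat hns' hνr
    have hgen' : ℚ⟮ν * ((q : ℕ) : L) ^ 3⟯ = ⊤ := by
      apply gen_rat hns'
      intro r hr
      apply hνr (r / (q : ℚ) ^ 3)
      push_cast
      rw [eq_div_iff (pow_ne_zero 3 hqL), hr]
    obtain ⟨u, hu⟩ := hu
    have h6 : (x : K) * τ (x : K) * ((p : ℕ) : K) ^ 3 * ((u : 𝓞 K) : K) =
        (y : K) * τ (y : K) * ((q : ℕ) : K) ^ 3 := by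
      have h7 := congrArg (algebraMap (𝓞 K) K) hu
      simp only [map_mul, map_pow, map_natCast] at h7
      exact h7
    have h8 : algebraMap L K (ν * ((q : ℕ) : L) ^ 3) = ((((p : ℕ) : 𝓞 K) ^ 3 * (u : 𝓞 K) : 𝓞 K) : K) := by
      have h8 : ((((p : ℕ) : 𝓞 K) ^ 3 * (u : 𝓞 K) : 𝓞 K) : K) = ((p : ℕ) : K) ^ 3 * ((u : 𝓞 K) : K) := by
        change algebraMap (𝓞 K) K _ = _
        rw [map_mul, map_pow, map_natCast]
      rw [map_mul, hν, map_div₀, h8, map_pow, map_natCast]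
      field_simp
      linear_combination -h6
    have hI : IsIntegral ℤ (ν * ((q : ℕ) : L) ^ 3) := by
      refine (isIntegral_algebraMap_iff (algebraMap L K).injective).1 ?_
      rw [h8]
      exact RingOfIntegers.isIntegral_coe _
    refine (disc_int (K := K) hn _ hgen' (B := c ^ 2 * (q : ℝ) ^ 3) ?_ hI).trans ?_
    · intro w
      rw [map_mul, map_mul, hν, map_mul, map_pow (algebraMap L K), map_natCast, hwq w]
      have h9 : w ((y : K) / (x : K)) * w (τ ((y : K) / (x : K))) ≤ c ^ 2 := by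
        rw [sq]
        exact mul_le_mul (hw1 w) (hw2 w) (apply_nonneg _ _) hc0
      exact mul_le_mul_of_nonneg_right h9 (by positivity)
    · refine sep_num hB hp1 hq1 (le_max_left _ _) (le_max_right _ _) (Or.inl (le_of_eq ?_)) (by positivity)
      have h10 : (((p : ℝ) / q) ^ (3 / 2 : ℝ)) ^ 2 = ((p : ℝ) / q) ^ 3 := by
        rw [← Real.rpow_natCast, ← Real.rpow_mul (by positivity), ← Real.rpow_natCast _ 3]
        norm_num
      rw [hc, mul_pow, h10, div_pow]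
      field_simp
  push Not at hνr
  obtain ⟨r, hr⟩ := hνr
  by_cases htr : ∀ s : ℚ, t ≠ (s : L)
  · have hgen' : ℚ⟮t * ((q : ℕ) : L) ^ 3⟯ = ⊤ := by
      apply gen_rat hns'
      intro r hr
      apply htr (r / (q : ℚ) ^ 3)
      push_cast
      rw [eq_div_iff (pow_ne_zero 3 hqL), hr]
    -- integrality of `a q³`
    obtain ⟨d, hd⟩ : ∃ d : 𝓞 K, y * ((q : ℕ) : 𝓞 K) ^ 3 = x * d := int_div hQ.2.1 h
    have hdK : (y : K) * ((q : ℕ) : K) ^ 3 = (x : K) * (d : K) := by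
      have h7 := congrArg (algebraMap (𝓞 K) K) hd
      simp only [map_mul, map_pow, map_natCast] at h7
      exact h7
    have h8 : algebraMap L K (t * ((q : ℕ) : L) ^ 3) = ((d + TO τ d : 𝓞 K) : K) := by
      have h9 : ((d + TO τ d : 𝓞 K) : K) = (d : K) + τ (d : K) := by
        rw [RingOfIntegers.coe_eq_algebraMap, map_add]
        rfl
      have h10 : (d : K) = (y : K) / (x : K) * ((q : ℕ) : K) ^ 3 := by
        rw [div_mul_eq_mul_div, hdK, mul_div_cancel_left₀ _ hxK]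
      rw [h9, h10, map_mul, ht, map_mul, map_pow, map_pow, map_natCast, map_natCast]
      ring
    have hI : IsIntegral ℤ (t * ((q : ℕ) : L) ^ 3) := by
      refine (isIntegral_algebraMap_iff (algebraMap L K).injective).1 ?_
      rw [h8]
      exact RingOfIntegers.isIntegral_coe _
    refine (disc_int (K := K) hn _ hgen' (B := 2 * c * (q : ℝ) ^ 3) ?_ hI).trans ?_
    · intro w
      rw [map_mul, map_mul, ht, map_pow (algebraMap L K), map_natCast, hwq w]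
      refine mul_le_mul_of_nonneg_right ?_ (by positivity)
      calc w ((y : K) / (x : K) + τ ((y : K) / (x : K))) ≤ w ((y : K) / (x : K)) + w (τ ((y : K) / (x : K))) :=
            w.1.add_le _ _
        _ ≤ c + c := add_le_add (hw1 w) (hw2 w)
        _ = 2 * c := by ring
    · refine sep_num hB hp1 hq1 (le_max_left _ _) (le_max_right _ _) (Or.inr (le_of_eq ?_)) (by positivity)
      rw [hc]
      ring
  push Not at htr
  obtain ⟨s, hs⟩ := htr
  exfalso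
  refine case3 hn (by omega) hns' hω τ hτω hττ hfix hp.1 hq.1 hpq hp.2.1 hx hy hu (r := r) (s := s) ?_ ?_
  · rw [← hν, hr, map_ratCast]
  · rw [← ht, hs, map_ratCast]

end Pool.Agent.K1H79.RF
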