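import Pool.Agent.K1H79.RF.Kum
import Pool.Agent.K1H79.QR.Defs
import Pool.Agent.TH847.LS.Cnt

/-! # Statements of the pieces: 3-torsion for the fields of even degree without subfields

Owner helper79.  `Pr F` (from `CohNT`) is the type of the primes of `𝓞 F`; `pI v` is the ideal of `v`
as a nonzero divisor; `Ab v w`: `w` lies above `v`; `NSp M v`: there is exactly one prime of `M` above `v`;
`UnrAll E M`: `M/E` is unramified at all finite places (in terms of valuations). -/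

set_option autoImplicit false

namespace Pool.Agent.K1H79.RF

open NumberField IsDedekindDomain CohNT
open scoped Classical nonZeroDivisors

/-- `∑ N(v)^(-s)` over the primes `v` with the property `P` -/
noncomputable def Sm (F : Type) [Field F] [NumberField F] (P : Pr F → Prop) (s : ℝ) : ℝ :=
  ∑' v : Pr F, if P v then ((Ideal.absNorm v.asIdeal : ℕ) : ℝ) ^ (-s) else 0

/-- T1: all primes -/
def S_A1 : Prop := ∀ (F : Type) [Field F] [NumberField F], ∃ C : ℝ, ∀ s : ℝ, 1 < s → s ≤ 2 →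
  |Sm F (fun _ => True) s - Real.log (1 / (s - 1))| ≤ C

/-- T1: the kernel of a nontrivial cubic class character -/
def S_A2 : Prop := ∀ (F : Type) [Field F] [NumberField F]
  (Φ : ClassGroup (𝓞 F) →* Multiplicative (ZMod 3)), Φ ≠ 1 → ∃ C : ℝ, ∀ s : ℝ, 1 < s → s ≤ 2 →
    3 * Sm F (fun v => Φ (ClassGroup.mk0 (pI v)) = 1) s ≤ Real.log (1 / (s - 1)) + C

/-- T2: the primes which split in an unramified cyclic cubic extension -/
def S_A3 : Prop := S_A1 → ∀ (E M : Type) [Field E] [NumberField E] [Field M] [NumberField M] [Algebra E M],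
  Module.finrank E M = 3 → ∀ σ : M ≃ₐ[E] M, σ ≠ 1 → UnrAll E M → ∃ C : ℝ, ∀ s : ℝ, 1 < s → s ≤ 2 →
    |3 * Sm E (fun v => ¬ NSp M v) s - Real.log (1 / (s - 1))| ≤ C

/-- T2: the primes which do not split in a quadratic extension -/
def S_A4 : Prop := S_A1 → ∀ (L K : Type) [Field L] [NumberField L] [Field K] [NumberField K] [Algebra L K],
  Module.finrank L K = 2 → ∃ C : ℝ, ∀ s : ℝ, 1 < s → s ≤ 2 →
    Real.log (1 / (s - 1)) ≤ 2 * Sm L (fun v => NSp K v) s + C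

/-- T3: the discriminant of `L(√-3)` -/
def S_DISC : Prop := ∀ (L K : Type) [Field L] [NumberField L] [Field K] [NumberField K] [Algebra L K],
  Module.finrank L K = 2 → ∀ ω : K, ω ^ 2 + ω + 1 = 0 → (∀ z : L, z ^ 2 + z + 1 ≠ 0) →
    |(discr L : ℝ)| ^ 2 ≤ |(discr K : ℝ)| ∧
    |(discr K : ℝ)| ≤ 3 ^ (Module.finrank ℚ L) * |(discr L : ℝ)| ^ 2

/-- T3: the counting inequality for `K = L(√-3)` -/
def S_EVK : Prop := ∀ n : ℕ, Even n → 4 ≤ n → ∃ C : ℝ, 0 < C ∧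
  ∀ (L K : Type) [Field L] [NumberField L] [Field K] [NumberField K] [Algebra L K],
    Module.finrank ℚ L = n → QR.NoSub L → Module.finrank L K = 2 → ∀ ω : K, ω ^ 2 + ω + 1 = 0 →
    ∀ (M : Finset ℕ) (Y : ℝ), (∀ p ∈ M, p.Prime ∧ (p : ℝ) ≤ Y ∧ p % 3 = 2 ∧
        (Ideal.span {((p : ℕ) : 𝓞 L)}).IsPrime) →
      C * Y ^ (6 * n * (2 * n - 1)) < |(discr L : ℝ)| ^ 2 →
      ∀ N : ℕ, 2 ^ (2 * n) * √|(discr K : ℝ)| < N →
        (M.card : ℝ) * (Nat.card {c : ClassGroup (𝓞 K) // c ^ 3 = 1} : ℝ) ≤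
          ∑ J ∈ Pool.Agent.TH847.LS.FI K N, (1 + Real.log ((N : ℝ) / Ideal.absNorm J)) ^ (2 * n)

/-- (helper79) the reflection inequality -/
def S_REFL : Prop := ∀ (L K : Type) [Field L] [NumberField L] [Field K] [NumberField K] [Algebra L K],
  Module.finrank L K = 2 → ∀ ω : K, ω ^ 2 + ω + 1 = 0 → (∀ z : L, z ^ 2 + z + 1 ≠ 0) →
    (Nat.card {c : ClassGroup (𝓞 L) // c ^ 3 = 1}) ^ 2 ≤
      2 * 27 ^ (Module.finrank ℚ L) * Nat.card {c : ClassGroup (𝓞 K) // c ^ 3 = 1}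

/-- T4: the final estimate -/
def S_FIN : Prop := S_DISC → S_EVK → S_REFL → ∀ n : ℕ, Even n → 4 ≤ n → ∀ ε : ℝ, 0 < ε →
  QR.SavE n 3 (1 / 2 - 1 / (6 * n * (2 * n - 1)) + ε) (fun L _ _ => QR.NoSub L)

end Pool.Agent.K1H79.RF
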