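import Pool.Agent.K1H79.RF.All
import Pool.Agent.K1H90.CC.T1

/-! # The closed theorems -/

set_option autoImplicit false

namespace Pool.Agent.K1H79.RF

theorem refl : S_REFL := t_REFL Pool.Agent.K1H90.CC.t_A1 Pool.Agent.K1H90.CC.t_A2

theorem final : ∀ n : ℕ, Even n → 4 ≤ n → ∀ ε : ℝ, 0 < ε →
    QR.SavE n 3 (1 / 2 - 1 / (3 * n * (n - 1)) + ε) (fun L _ _ => QR.NoSub L) :=
  final_of Pool.Agent.K1H90.CC.t_A1 Pool.Agent.K1H90.CC.t_A2

end Pool.Agent.K1H79.RF
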