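import Mathlib

/-! # The field `L(√-3)` -/

set_option autoImplicit false

namespace Pool.Agent.K1H79.RF

open NumberField Polynomial

theorem no_root {L : Type} [Field L] [NumberField L] {n : ℕ} (hn : Module.finrank ℚ L = n) (hn3 : 3 ≤ n)
    (hns : ∀ E : IntermediateField ℚ L, E = ⊥ ∨ E = ⊤) (z : L) : z ^ 2 + z + 1 ≠ 0 := by
  intro hz
  have hint : IsIntegral ℚ z := Algebra.IsIntegral.isIntegral z
  have hle : (minpoly ℚ z).natDegree ≤ 2 := by
    have hp : (X ^ 2 + X + 1 : ℚ[X]).Monic := by monicity!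
    have h1 : aeval z (X ^ 2 + X + 1 : ℚ[X]) = 0 := by
      simp only [map_add, map_pow, aeval_X, map_one]
      exact hz
    have h2 := minpoly.min ℚ z hp h1
    have h3 := natDegree_le_natDegree h2
    have h4 : (X ^ 2 + X + 1 : ℚ[X]).natDegree = 2 := by compute_degree!
    rwa [h4] at h3
  rcases hns (IntermediateField.adjoin ℚ {z}) with h | h
  · rw [IntermediateField.adjoin_simple_eq_bot_iff, IntermediateField.mem_bot] at h
    obtain ⟨q, rfl⟩ := h
    have h1 : algebraMap ℚ L (q ^ 2 + q + 1) = 0 := by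
      rw [map_add, map_add, map_pow, map_one]
      exact hz
    have h2 : q ^ 2 + q + 1 = 0 := (algebraMap ℚ L).injective (by rw [h1, map_zero])
    nlinarith [sq_nonneg (2 * q + 1)]
  · have h1 := IntermediateField.adjoin.finrank hint
    rw [h, IntermediateField.finrank_top', hn] at h1
    omega

theorem exists_K (L : Type) [Field L] [NumberField L] (hL : ∀ z : L, z ^ 2 + z + 1 ≠ 0) :
    ∃ (K : Type) (_ : Field K) (_ : NumberField K) (_ : Algebra L K), Module.finrank L K = 2 ∧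
      ∃ ω : K, ω ^ 2 + ω + 1 = 0 := by
  have hdeg : (X ^ 2 + X + 1 : L[X]).natDegree = 2 := by compute_degree!
  have hirr : Irreducible (X ^ 2 + X + 1 : L[X]) := by
    refine irreducible_of_degree_le_three_of_not_isRoot ?_ ?_
    · rw [hdeg]; simp
    · intro x hx
      apply hL x
      simpa [IsRoot] using hx
  have hf : Fact (Irreducible (X ^ 2 + X + 1 : L[X])) := ⟨hirr⟩
  have hne : (X ^ 2 + X + 1 : L[X]) ≠ 0 := hirr.ne_zero
  have hfr : Module.finrank L (AdjoinRoot (X ^ 2 + X + 1 : L[X])) = 2 := by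
    rw [(AdjoinRoot.powerBasis hne).finrank, AdjoinRoot.powerBasis_dim, hdeg]
  have hfd : FiniteDimensional L (AdjoinRoot (X ^ 2 + X + 1 : L[X])) := Module.finite_of_finrank_pos (by omega)
  have hcz : CharZero (AdjoinRoot (X ^ 2 + X + 1 : L[X])) := charZero_of_injective_algebraMap
    (algebraMap L (AdjoinRoot (X ^ 2 + X + 1 : L[X]))).injective
  have hfd2 : FiniteDimensional ℚ (AdjoinRoot (X ^ 2 + X + 1 : L[X])) :=
    Module.Finite.trans (R := ℚ) L (AdjoinRoot (X ^ 2 + X + 1 : L[X]))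
  have hnf : NumberField (AdjoinRoot (X ^ 2 + X + 1 : L[X])) := ⟨⟩
  refine ⟨AdjoinRoot (X ^ 2 + X + 1 : L[X]), inferInstance, hnf, inferInstance, hfr, AdjoinRoot.root _, ?_⟩
  have h1 := AdjoinRoot.eval₂_root (X ^ 2 + X + 1 : L[X])
  simpa using h1

/-- powers of a logarithm -/
theorem log_pow (k : ℕ) {ε : ℝ} (hε : 0 < ε) : ∃ C : ℝ, 0 < C ∧ ∀ t : ℝ, 1 ≤ t → (1 + Real.log t) ^ k ≤ C * t ^ ε := by
  rcases Nat.eq_zero_or_pos k with rfl | hk
  · refine ⟨1, one_pos, fun t ht => ?_⟩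
    rw [pow_zero, one_mul]
    exact Real.one_le_rpow ht hε.le
  · have hkr : (0 : ℝ) < k := by exact_mod_cast hk
    refine ⟨(1 + k / ε) ^ k, by positivity, fun t ht => ?_⟩
    have ht0 : 0 < t := by linarith
    have h1 : 1 + Real.log t ≤ (1 + k / ε) * t ^ (ε / k) := by
      have h2 : Real.log t ≤ t ^ (ε / k) / (ε / k) := Real.log_le_rpow_div ht0.le (by positivity)
      have h3 : 1 ≤ t ^ (ε / k) := Real.one_le_rpow ht (by positivity)
      have h4 : t ^ (ε / k) / (ε / k) = k / ε * t ^ (ε / k) := by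
        field_simp
      rw [h4] at h2
      nlinarith
    have h0 : 0 ≤ 1 + Real.log t := by
      have := Real.log_nonneg ht
      linarith
    calc (1 + Real.log t) ^ k ≤ ((1 + k / ε) * t ^ (ε / k)) ^ k := by gcongr
      _ = (1 + k / ε) ^ k * (t ^ (ε / k)) ^ k := by rw [mul_pow]
      _ = (1 + k / ε) ^ k * t ^ ε := by
          rw [← Real.rpow_natCast (t ^ (ε / k)), ← Real.rpow_mul ht0.le, div_mul_cancel₀ _ hkr.ne']

end Pool.Agent.K1H79.RF
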