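import Pool.Agent.K1H79.RF.Ine
import Pool.Agent.K1H79.RF.SepB
import Pool.Agent.K1H65.BX.Box
import Pool.Agent.K1H33.RM.Task
import Pool.Agent.K1H2.RF.FinM
import Pool.Agent.K1H76.RF2.T2

/-! # Assembly (T1 as a hypothesis) -/

set_option autoImplicit false

namespace Pool.Agent.K1H79.RF

theorem t_DISC : S_DISC := by
  intro L K _ _ _ _ _ h2 ω hω hL
  exact ⟨Pool.Agent.K1H38.RT.disc_lower h2, Pool.Agent.K1H38.RT.disc_upper h2 hω hL⟩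

theorem t_REFL (h1 : S_A1) (h2 : S_A2) : S_REFL :=
  refl_of h1 h2 Pool.Agent.K1H76.RF2.t_A3 Pool.Agent.K1H76.RF2.t_A4

theorem t_INE (h1 : S_A1) (h2 : S_A2) : S_INE :=
  ine_of t_PRM t_SEP Pool.Agent.K1H65.BX.t_BOX Pool.Agent.K1H33.RM.t_RM t_DISC h1 h2
    Pool.Agent.K1H76.RF2.t_A3 Pool.Agent.K1H76.RF2.t_A4

theorem final_of (h1 : S_A1) (h2 : S_A2) : ∀ n : ℕ, Even n → 4 ≤ n → ∀ ε : ℝ, 0 < ε →
    QR.SavE n 3 (1 / 2 - 1 / (3 * n * (n - 1)) + ε) (fun L _ _ => QR.NoSub L) :=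
  Pool.Agent.K1H2.RF.t_FINM (t_INE h1 h2)

end Pool.Agent.K1H79.RF
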