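import Pool.Agent.K1H79.RF.Dec

/-! # A cubic class character attached to an unramified cyclic cubic extension -/

set_option autoImplicit false

namespace Pool.Agent.K1H79.RF

open NumberField IsDedekindDomain Ideal CohNT UniqueFactorizationMonoid
open scoped Classical nonZeroDivisors

variable {E M : Type} [Field E] [NumberField E] [Field M] [NumberField M] [Algebra E M]

theorem ord_alg (hun : UnrAll E M) {v : Pr E} {w : Pr M} (hw : Ab v w) (x : E) :
    ord w (algebraMap E M x) = ord v x := by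
  unfold ord
  rw [hun v w hw]

theorem three_dvd_ord (hun : UnrAll E M) (σ : M ≃ₐ[E] M) {v : Pr E} (hv : NSp M v) {x : E} {y : M} (hy : y ≠ 0)
    (hxy : algebraMap E M x = y * σ y * σ (σ y)) : (3 : ℤ) ∣ ord v x := by
  obtain ⟨w, hw⟩ := (above_api (M := M) v).1
  have h1 := sig_val σ hv hw hun
  have hσy : σ y ≠ 0 := by rwa [Ne, map_eq_zero]
  have hσσy : σ (σ y) ≠ 0 := by rwa [Ne, map_eq_zero]
  obtain ⟨o1, o2, o3, o4, _⟩ := ord_api w
  have h2 : ord w (σ y) = ord w y := by unfold ord; rw [h1]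
  have h3 : ord w (σ (σ y)) = ord w y := by unfold ord; rw [h1, h1]
  refine ⟨ord w y, ?_⟩
  rw [← ord_alg hun hw, hxy, o4 _ _ (mul_ne_zero hy hσy) hσσy, o4 _ _ hy hσy, h2, h3]
  ring

/-- the functional -/
theorem exists_c (h3 : Module.finrank E M = 3) (σ : M ≃ₐ[E] M) (hσ : σ ≠ 1) {ω : E}
    (hω : IsPrimitiveRoot ω 3) (hun : UnrAll E M) (T : Finset (Pr E)) (hG : Good T)
    (TM : Finset (Pr M)) (hTM : ∀ w, w ∈ TM ↔ ∃ v ∈ T, Ab v w)
    (NS : Finset (Pr E)) (hNS : ∀ v, v ∈ NS ↔ v ∈ T ∧ NSp M v) :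
    ∃ c : Pr E → ZMod 3, (∀ v ∉ NS, c v = 0) ∧ (∃ v ∈ NS, c v ≠ 0) ∧
      ∀ x : Eˣ, x ∈ UU T → ∑ v ∈ NS, ((ord v (x : E) : ℤ) : ZMod 3) * c v = 0 := by
  haveI : Fact (Nat.Prime 3) := ⟨Nat.prime_three⟩
  have hidx := index3 h3 σ hσ hω hun T hG TM hTM NS hNS
  let φ : UU T →* Multiplicative (NS → ZMod 3) :=
    { toFun := fun x => Multiplicative.ofAdd (fun v : NS => ((ord v.1 ((x : Eˣ) : E) : ℤ) : ZMod 3))
      map_one' := by
        rw [← ofAdd_zero]
        congr 1
        funext v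
        show ((ord v.1 (1 : E) : ℤ) : ZMod 3) = 0
        rw [(ord_api v.1).1, Int.cast_zero]
      map_mul' := fun x y => by
        rw [← ofAdd_add]
        congr 1
        funext v
        show ((ord v.1 (((x : Eˣ) : E) * ((y : Eˣ) : E)) : ℤ) : ZMod 3) = _
        rw [(ord_api v.1).2.2.2.1 _ _ (Units.ne_zero _) (Units.ne_zero _), Int.cast_add]
        rfl }
  have hker : NU σ T TM ≤ φ.ker := by
    rintro x ⟨y, hy, hxy⟩
    rw [MonoidHom.mem_ker]
    apply Multiplicative.toAdd.injective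
    funext v
    show ((ord v.1 ((x : Eˣ) : E) : ℤ) : ZMod 3) = 0
    rw [ZMod.intCast_zmod_eq_zero_iff_dvd]
    exact three_dvd_ord hun σ ((hNS v.1).1 v.2).2 y.ne_zero hxy
  have hns : ¬ Function.Surjective φ := by
    intro hs
    have h1 : φ.ker.index = 3 ^ NS.card := by
      rw [Subgroup.index_ker, MonoidHom.range_eq_top.2 hs]
      rw [Nat.card_congr (Subgroup.topEquiv.toEquiv : (⊤ : Subgroup (Multiplicative (NS → ZMod 3))) ≃ _)]
      rw [Nat.card_congr (Multiplicative.toAdd : Multiplicative (NS → ZMod 3) ≃ (NS → ZMod 3))]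
      rw [Nat.card_fun, Nat.card_zmod, Nat.card_eq_fintype_card, Fintype.card_coe]
    have h2 := Subgroup.index_dvd_of_le hker
    rw [h1] at h2
    have h0 : (NU σ T TM).index ≠ 0 := by
      intro h
      rw [h] at hidx
      have : 0 < 3 ^ (2 * NS.card) := by positivity
      rw [← hidx] at this
      simp at this
    have h4 := Nat.le_of_dvd (Nat.pos_of_ne_zero h0) h2
    have h5 : (3 ^ NS.card) ^ 2 ≤ (NU σ T TM).index ^ 2 := Nat.pow_le_pow_left h4 2
    rw [← pow_mul, mul_comm NS.card 2, ← hidx] at h5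
    have h6 : 0 < (NU σ T TM).index ^ 2 := by positivity
    omega
  -- linear algebra
  let R : AddSubgroup (NS → ZMod 3) := (AddMonoidHom.range (MonoidHom.toAdditiveLeft φ))
  let V : Submodule (ZMod 3) (NS → ZMod 3) := AddSubgroup.toZModSubmodule 3 R
  have hV : V < ⊤ := by
    rw [lt_top_iff_ne_top]
    intro h
    apply hns
    intro z
    have h1 : Multiplicative.toAdd z ∈ V := by rw [h]; exact Submodule.mem_top
    obtain ⟨x, hx⟩ := (show Multiplicative.toAdd z ∈ R from h1)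
    exact ⟨Additive.toMul x, hx⟩
  obtain ⟨f, hf0, hf⟩ := Submodule.exists_le_ker_of_lt_top V hV
  refine ⟨fun v => if h : v ∈ NS then f (Pi.single ⟨v, h⟩ 1) else 0, ?_, ?_, ?_⟩
  · intro v hv
    exact dif_neg hv
  · by_contra hcon
    push Not at hcon
    apply hf0
    apply LinearMap.ext
    intro z
    rw [LinearMap.zero_apply, pi_eq_sum_univ' z, map_sum]
    refine Finset.sum_eq_zero fun i _ => ?_
    have h1 : f (Pi.single i 1) = 0 := (dif_pos i.2).symm.trans (hcon i.1 i.2)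
    rw [map_smul, h1, smul_zero]
  · intro x hx
    have h1 : Multiplicative.toAdd (φ ⟨x, hx⟩) ∈ V := ⟨Additive.ofMul ⟨x, hx⟩, rfl⟩
    have h2 : f (Multiplicative.toAdd (φ ⟨x, hx⟩)) = 0 := hf h1
    rw [pi_eq_sum_univ' (Multiplicative.toAdd (φ ⟨x, hx⟩)), map_sum] at h2
    rw [← Finset.sum_coe_sort NS (fun v => ((ord v (x : E) : ℤ) : ZMod 3) *
      (if h : v ∈ NS then f (Pi.single ⟨v, h⟩ 1) else 0)), ← h2]
    refine Finset.sum_congr rfl fun i _ => ?_
    rw [map_smul, smul_eq_mul, dif_pos i.2]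
    rfl

theorem ev_rel (f : Pr E → ZMod 3) {I : Ideal (𝓞 M)} (hI : I ≠ 0) :
    ev (fun w : Pr M => ev f (Ideal.relNorm (𝓞 E) w.asIdeal)) I = ev f (Ideal.relNorm (𝓞 E) I) := by
  have key : ∀ s : Multiset (Ideal (𝓞 M)), (∀ P ∈ s, P.IsPrime ∧ P ≠ ⊥) →
      (s.map (gI (fun w : Pr M => ev f (Ideal.relNorm (𝓞 E) w.asIdeal)))).sum =
        ev f (Ideal.relNorm (𝓞 E) s.prod) := by
    intro s
    induction s using Multiset.induction_on with
    | empty =>
      intro _
      rw [Multiset.map_zero, Multiset.sum_zero, Multiset.prod_zero, map_one, ev_one]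
    | cons P s ih =>
      intro h
      have hP := h P (Multiset.mem_cons_self P s)
      have hs : ∀ Q ∈ s, Q.IsPrime ∧ Q ≠ ⊥ := fun Q hQ => h Q (Multiset.mem_cons_of_mem hQ)
      have h1 : Ideal.relNorm (𝓞 E) P ≠ 0 := by
        rw [Ne, Ideal.zero_eq_bot, Ideal.relNorm_eq_bot_iff]
        exact hP.2
      have h2 : Ideal.relNorm (𝓞 E) s.prod ≠ 0 := by
        rw [Ne, Ideal.zero_eq_bot, Ideal.relNorm_eq_bot_iff, ← Ideal.zero_eq_bot, Multiset.prod_eq_zero_iff]
        intro h0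
        exact (hs 0 h0).2 rfl
      rw [Multiset.map_cons, Multiset.sum_cons, Multiset.prod_cons, map_mul, ev_mul f h1 h2, ih hs]
      congr 1
      have := gI_asIdeal (fun w : Pr M => ev f (Ideal.relNorm (𝓞 E) w.asIdeal)) ⟨P, hP.1, hP.2⟩
      exact this
  have h1 := key (normalizedFactors I) (fun P hP => by
    have hPp : Prime P := prime_of_normalized_factor P hP
    exact ⟨Ideal.isPrime_of_prime hPp, hPp.ne_zero⟩)
  rw [Ideal.prod_normalizedFactors_eq_self hI] at h1
  exact h1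

theorem exists_psi (h3 : Module.finrank E M = 3) (σ : M ≃ₐ[E] M) (hσ : σ ≠ 1) {ω : E}
    (hω : IsPrimitiveRoot ω 3) (hun : UnrAll E M) :
    ∃ Ψ : ClassGroup (𝓞 E) →* Multiplicative (ZMod 3), Ψ ≠ 1 ∧
      ∀ v : Pr E, ¬ NSp M v → Ψ (ClassGroup.mk0 (pI v)) = 1 := by
  -- the sets of primes
  obtain ⟨S0, -, hS0⟩ := good_exists (∅ : Finset (Pr E))
  obtain ⟨SM, -, hSM⟩ := good_exists (∅ : Finset (Pr M))
  obtain ⟨T, hT⟩ : ∃ T : Finset (Pr E), T = S0 ∪ SM.image (fun w => HeightOneSpectrum.under (𝓞 E) w) := ⟨_, rfl⟩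
  obtain ⟨TM, NS, hTM, hNS, -⟩ := above_count3 (M := M) h3 σ hσ T
  have hG : Good T := good_mono S0 T (by rw [hT]; exact Finset.subset_union_left) hS0
  have hGM : Good TM := by
    refine good_mono SM TM ?_ hSM
    intro w hw
    rw [hTM]
    refine ⟨HeightOneSpectrum.under (𝓞 E) w, ?_, Ideal.over_under _⟩
    rw [hT, Finset.mem_union]
    right
    exact Finset.mem_image_of_mem _ hw
  obtain ⟨c, hc0, ⟨u0, hu0, hcu0⟩, hc⟩ := exists_c h3 σ hσ hω hun T hG TM hTM NS hNS
  choose! p hp1 hp2 using hG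
  -- the function
  obtain ⟨f, hfT, hfN⟩ : ∃ f : Pr E → ZMod 3, (∀ v ∈ T, f v = c v) ∧
      ∀ v ∉ T, f v = - ∑ u ∈ NS, ((ord u (p v : E) : ℤ) : ZMod 3) * c u :=
    ⟨fun v => if v ∈ T then c v else - ∑ u ∈ NS, ((ord u (p v : E) : ℤ) : ZMod 3) * c u,
      fun v hv => if_pos hv, fun v hv => if_neg hv⟩
  have hNST : NS ⊆ T := fun v hv => ((hNS v).1 hv).1
  -- `f` vanishes on principal ideals
  have hf : ∀ a : 𝓞 E, a ≠ 0 → ev f (Ideal.span {a}) = 0 := by
    intro a ha
    have haE : (a : E) ≠ 0 := by exact_mod_cast ha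
    obtain ⟨F, hF⟩ : ∃ F : Finset (Pr E), F = (J_h90.h90_fin (a : E) haE).toFinset.filter (fun v => v ∉ T) := ⟨_, rfl⟩
    have hFm : ∀ v, v ∈ F ↔ ord v (a : E) ≠ 0 ∧ v ∉ T := by
      intro v
      rw [hF, Finset.mem_filter, Set.Finite.mem_toFinset]
      rfl
    have h1 := ev_eq_sum f (I := Ideal.span {a}) (T ∪ F) (fun v hv => by
      rw [Finset.mem_union]
      by_cases hvT : v ∈ T
      · exact Or.inl hvT
      · right
        rw [hFm]
        refine ⟨?_, hvT⟩
        rw [ord_span v ha]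
        exact_mod_cast hv)
    have hdisj : Disjoint T F := by
      rw [Finset.disjoint_left]
      intro v hv hvF
      exact ((hFm v).1 hvF).2 hv
    rw [Finset.sum_union hdisj] at h1
    rw [h1]
    -- the unit part
    obtain ⟨g, hg⟩ : ∃ g : Eˣ, g = ∏ v ∈ F, (p v) ^ (ord v (a : E)) := ⟨_, rfl⟩
    have hordg : ∀ v, ord v (g : E) = ∑ u ∈ F, ord u (a : E) * ord v (p u : E) := by
      intro v
      rw [hg, J_h90.h90_prod]
      refine Finset.sum_congr rfl fun u _ => ?_
      rw [Units.val_zpow_eq_zpow_val, (ord_api v).2.2.2.2.2.2.2.1]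
    obtain ⟨x, hx⟩ : ∃ x : Eˣ, x = Units.mk0 (a : E) haE * g⁻¹ := ⟨_, rfl⟩
    have hordx : ∀ v, ord v (x : E) = ord v (a : E) - ord v (g : E) := by
      intro v
      obtain ⟨o1, o2, o3, o4, o5, o6, _⟩ := ord_api v
      rw [hx, Units.val_mul, Units.val_mk0, o4 _ _ haE (Units.ne_zero _), Units.val_inv_eq_inv_val, o6]
      ring
    have hxT : x ∈ UU T := by
      intro v hv
      rw [(ord_api v).2.2.2.2.2.2.2.2.2.2.1 _ x.ne_zero, hordx, hordg]
      have h4 : ∀ u ∈ F, ord u (a : E) * ord v (p u : E) = if u = v then ord v (a : E) else 0 := by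
        intro u hu
        have huT := ((hFm u).1 hu).2
        by_cases huv : u = v
        · rw [if_pos huv, huv, hp1 v hv, mul_one]
        · rw [if_neg huv]
          have h5 := hp2 u huT v hv (Ne.symm huv)
          rw [(ord_api v).2.2.2.2.2.2.2.2.2.2.1 _ (p u).ne_zero] at h5
          rw [h5, mul_zero]
      rw [Finset.sum_congr rfl h4, Finset.sum_ite_eq' F v]
      split_ifs with hvF
      · ring
      · have h5 : ord v (a : E) = 0 := by
          by_contra hne
          exact hvF ((hFm v).2 ⟨hne, hv⟩)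
        rw [h5]
        ring
    have h2 := hc x hxT
    have e1 : ∑ v ∈ T, cn v (Ideal.span {a}) • f v = ∑ v ∈ NS, ((ord v (a : E) : ℤ) : ZMod 3) * c v := by
      rw [Finset.sum_subset hNST (f := fun v => ((ord v (a : E) : ℤ) : ZMod 3) * c v)
        (fun v _ hv => by rw [hc0 v hv, mul_zero])]
      refine Finset.sum_congr rfl fun v hv => ?_
      rw [hfT v hv, ord_span v ha, nsmul_eq_mul, Int.cast_natCast]
    have e2 : ∑ v ∈ F, cn v (Ideal.span {a}) • f v = - ∑ u ∈ NS, ((ord u (g : E) : ℤ) : ZMod 3) * c u := by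
      have e3 : ∀ v ∈ F, cn v (Ideal.span {a}) • f v =
          - ∑ u ∈ NS, ((ord v (a : E) * ord u (p v : E) : ℤ) : ZMod 3) * c u := by
        intro v hv
        rw [hfN v ((hFm v).1 hv).2, smul_neg, Finset.smul_sum]
        congr 1
        refine Finset.sum_congr rfl fun u _ => ?_
        rw [ord_span v ha, nsmul_eq_mul]
        push_cast
        ring
      rw [Finset.sum_congr rfl e3, Finset.sum_neg_distrib, Finset.sum_comm]
      congr 1
      refine Finset.sum_congr rfl fun u _ => ?_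
      rw [← Finset.sum_mul, hordg]
      push_cast
      rfl
    rw [e1, e2, ← sub_eq_add_neg, ← Finset.sum_sub_distrib, ← h2]
    refine Finset.sum_congr rfl fun v _ => ?_
    rw [hordx]
    push_cast
    ring
  obtain ⟨Ψ, hΨ⟩ := ev_class f hf
  have hΨv : ∀ v : Pr E, Ψ (ClassGroup.mk0 (pI v)) = Multiplicative.ofAdd (f v) := by
    intro v
    rw [hΨ]
    show Multiplicative.ofAdd (ev f v.asIdeal) = _
    rw [ev_prime]
  refine ⟨Ψ, ?_, ?_⟩
  · intro h
    have h1 := hΨv u0
    rw [h, MonoidHom.one_apply, hfT u0 (hNST hu0)] at h1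
    exact hcu0 (by
      have := congrArg Multiplicative.toAdd h1
      exact this.symm)
  · intro v hv
    rw [hΨv]
    suffices hfv : f v = 0 by rw [hfv]; rfl
    by_cases hvT : v ∈ T
    · rw [hfT v hvT]
      apply hc0
      intro h
      exact hv ((hNS v).1 h).2
    · -- the norm from above
      obtain ⟨w, hw⟩ := (above_api (M := M) v).1
      have hwT : w ∉ TM := by
        intro h
        obtain ⟨v', hv', hA⟩ := (hTM w).1 h
        have := (above_api (M := M) v).2.2.1 w v' hw hA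
        rw [this] at hvT
        exact hvT hv'
      obtain ⟨fM, hfM⟩ : ∃ fM : Pr M → ZMod 3, fM = fun w => ev f (Ideal.relNorm (𝓞 E) w.asIdeal) := ⟨_, rfl⟩
      have hfM0 : ∀ a : 𝓞 M, a ≠ 0 → ev fM (Ideal.span {a}) = 0 := by
        intro a ha
        have ha' : Ideal.span {a} ≠ 0 := by
          rw [Ne, Ideal.zero_eq_bot, Ideal.span_singleton_eq_bot]; exact ha
        have hN : Algebra.intNorm (𝓞 E) (𝓞 M) a ≠ 0 := by
          intro h0
          have h1 : Ideal.relNorm (𝓞 E) (Ideal.span {a}) = ⊥ := by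
            rw [Ideal.relNorm_singleton, h0, Ideal.span_singleton_eq_bot]
          rw [Ideal.relNorm_eq_bot_iff] at h1
          exact ha' h1
        rw [hfM, ev_rel f ha', Ideal.relNorm_singleton]
        exact hf _ hN
      have hfMT : ∀ w' ∈ TM, fM w' = 0 := by
        intro w' hw'
        obtain ⟨v', hv', hA⟩ := (hTM w').1 hw'
        rw [hfM]
        show ev f (Ideal.relNorm (𝓞 E) w'.asIdeal) = 0
        by_cases hns : NSp M v'
        · rw [rel_nonsplit h3 hun hns hA, ev_pow f v'.ne_bot, ev_prime]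
          have : (3 : ZMod 3) = 0 := by decide
          rw [nsmul_eq_mul]
          push_cast
          rw [this, zero_mul]
        · rw [rel_split h3 σ hσ hun hns hA, ev_prime, hfT v' hv']
          apply hc0
          intro h
          exact hns ((hNS v').1 h).2
      obtain ⟨y, hy1, hy2⟩ := hGM w hwT
      have h1 := ev_frac hfM0 y.ne_zero (insert w TM) (fun w' hw' => by
        rw [Finset.mem_insert]
        by_contra hcon
        push Not at hcon
        apply hw'
        have h5 := hy2 w' hcon.2 hcon.1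
        rwa [(ord_api w').2.2.2.2.2.2.2.2.2.2.1 _ y.ne_zero] at h5)
      rw [Finset.sum_insert hwT, hy1, one_smul, Finset.sum_eq_zero (fun w' hw' => by
        rw [hfMT w' hw', smul_zero]), add_zero, hfM] at h1
      have h2 : ev f (Ideal.relNorm (𝓞 E) w.asIdeal) = 0 := h1
      rwa [rel_split h3 σ hσ hun hv hw, ev_prime] at h2

end Pool.Agent.K1H79.RF
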