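import Pool.Agent.H604C.P_tunit_hom
import Pool.Agent.H604C.P_group_sq
import Pool.Agent.H604C.P_tunit_index

/-! # The index of the cubes in the group of `T`-units (after `CohNT.tunit_index`) -/

set_option autoImplicit false

namespace Pool.Agent.K1H79.RF

open NumberField IsDedekindDomain Ideal CohNT

theorem tf_cube {ι : Type} (z : Multiplicative (ι → ℤ)) (h : z ^ 3 = 1) : z = 1 := by
  apply Multiplicative.toAdd.injective
  have h1 : 3 • Multiplicative.toAdd z = 0 := congrArg Multiplicative.toAdd h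
  show Multiplicative.toAdd z = 0
  funext i
  have h2 := congrFun h1 i
  rw [Pi.smul_apply, Pi.zero_apply, nsmul_eq_mul] at h2
  show Multiplicative.toAdd z i = 0
  push_cast at h2
  omega

theorem idx_R3 {ι : Type} [Fintype ι] (R : Subgroup (Multiplicative (ι → ℤ))) (n : ℕ) (hn : 0 < n)
    (hf : ∀ z : Multiplicative (ι → ℤ), z ^ n ∈ R) :
    (powMonoidHom 3 : R →* R).range.index = 3 ^ Fintype.card ι := by
  have hRne : R.index ≠ 0 := by
    have h1 : (powMonoidHom n : Multiplicative (ι → ℤ) →* Multiplicative (ι → ℤ)).range ≤ R := by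
      rintro x ⟨y, rfl⟩
      exact hf y
    have h2 := Subgroup.index_dvd_of_le h1
    rw [J_group_sq.idx_pow ι n hn] at h2
    exact ne_zero_of_dvd_ne_zero (pow_ne_zero _ hn.ne') h2
  set p2 : Multiplicative (ι → ℤ) →* Multiplicative (ι → ℤ) := powMonoidHom 3 with hp2
  have hinj : Function.Injective p2 := by
    rw [injective_iff_map_eq_one]
    intro z hz
    exact tf_cube z hz
  have h1 : (R.map p2).index = R.index * p2.range.index := Subgroup.index_map_of_injective R hinj
  have hle : R.map p2 ≤ R := by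
    rintro x ⟨y, hy, rfl⟩
    exact R.pow_mem hy 3
  have h2 := Subgroup.relIndex_mul_index hle
  have h3 : (R.map p2).relIndex R = p2.range.index := by
    have h4 : (R.map p2).relIndex R * R.index = p2.range.index * R.index := by
      rw [h2, h1, mul_comm]
    exact Nat.eq_of_mul_eq_mul_right (Nat.pos_of_ne_zero hRne) h4
  have h5 : (powMonoidHom 3 : R →* R).range = (R.map p2).subgroupOf R := by
    ext x
    rw [MonoidHom.mem_range, Subgroup.mem_subgroupOf, Subgroup.mem_map]
    constructor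
    · rintro ⟨y, rfl⟩
      exact ⟨y, y.2, rfl⟩
    · rintro ⟨y, hy, hyx⟩
      exact ⟨⟨y, hy⟩, Subtype.ext hyx⟩
  rw [h5]
  show (R.map p2).relIndex R = _
  rw [h3, J_group_sq.idx_pow ι 3 (by norm_num)]

theorem group_cube (A B : Type) [CommGroup A] [CommGroup B] (ι : Type) [Fintype ι]
    (f : A →* Multiplicative (ι → ℤ)) (g : B →* A) (hg : Function.Injective g)
    (hex : ∀ x : A, f x = 1 ↔ ∃ y : B, g y = x) (n : ℕ) (hn : 0 < n)
    (hf : ∀ z : Multiplicative (ι → ℤ), z ^ n ∈ f.range) (k : ℕ)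
    (hB : (powMonoidHom 3 : B →* B).range.index = 3 ^ k) :
    (powMonoidHom 3 : A →* A).range.index = 3 ^ (k + Fintype.card ι) := by
  set S : Subgroup A := (powMonoidHom 3 : A →* A).range with hS
  -- relative index in `g B`
  have h1 : S.relIndex g.range = 3 ^ k := by
    rw [← Subgroup.index_comap, ← hB]
    congr 1
    ext y
    rw [Subgroup.mem_comap, hS, MonoidHom.mem_range, MonoidHom.mem_range]
    constructor
    · rintro ⟨x, hx⟩
      have hx' : x ^ 3 = g y := hx
      have h2 : f x = 1 := by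
        apply tf_cube
        rw [← map_pow, hx']
        exact (hex (g y)).2 ⟨y, rfl⟩
      obtain ⟨y', hy'⟩ := (hex x).1 h2
      refine ⟨y', ?_⟩
      apply hg
      show g (y' ^ 3) = g y
      rw [map_pow, hy', hx']
    · rintro ⟨y', rfl⟩
      refine ⟨g y', ?_⟩
      show (g y') ^ 3 = g (y' ^ 3)
      rw [map_pow]
  -- the preimage of the cubes of the range
  have h2 : ((powMonoidHom 3 : f.range →* f.range).range.comap f.rangeRestrict) = g.range ⊔ S := by
    ext x
    rw [Subgroup.mem_comap, MonoidHom.mem_range, Subgroup.mem_sup]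
    constructor
    · rintro ⟨⟨z, ⟨x', rfl⟩⟩, hz⟩
      have hz' : f x' ^ 3 = f x := congrArg Subtype.val hz
      have h3 : f (x * (x' ^ 3)⁻¹) = 1 := by
        rw [map_mul, map_inv, map_pow, hz', mul_inv_cancel]
      refine ⟨x * (x' ^ 3)⁻¹, ?_, x' ^ 3, ⟨x', rfl⟩, by group⟩
      exact (hex _).1 h3
    · rintro ⟨a, ⟨b, rfl⟩, c, ⟨d, rfl⟩, rfl⟩
      refine ⟨f.rangeRestrict d, ?_⟩
      apply Subtype.ext
      show (f d) ^ 3 = f (g b * d ^ 3)
      rw [map_mul, (hex (g b)).2 ⟨b, rfl⟩, one_mul, map_pow]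
  have h3 : (g.range ⊔ S).index = 3 ^ Fintype.card ι := by
    rw [← h2, Subgroup.index_comap_of_surjective _ f.rangeRestrict_surjective]
    exact idx_R3 f.range n hn hf
  have h4 : S.relIndex (g.range ⊔ S) = 3 ^ k := by
    rw [Subgroup.relIndex_sup_right, h1]
  have h5 := Subgroup.relIndex_mul_index (le_sup_right : S ≤ g.range ⊔ S)
  rw [h3, h4] at h5
  rw [← h5, pow_add]

theorem units_cube_index (E : Type) [Field E] [NumberField E] {w : E} (hw : IsPrimitiveRoot w 3) :
    (powMonoidHom 3 : (𝓞 E)ˣ →* (𝓞 E)ˣ).range.index = 3 ^ Fintype.card (InfinitePlace E) := by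
  classical
  let Ψ : (NumberField.Units.torsion E) × Multiplicative (Fin (NumberField.Units.rank E) → ℤ) →* (𝓞 E)ˣ :=
    { toFun := fun q => (q.1 : (𝓞 E)ˣ) *
        ∏ i, (NumberField.Units.fundSystem E i) ^ (Multiplicative.toAdd q.2 i)
      map_one' := by simp
      map_mul' := by
        intro a b
        simp only [Prod.fst_mul, Subgroup.coe_mul, Prod.snd_mul, toAdd_mul, Pi.add_apply, zpow_add,
          Finset.prod_mul_distrib]
        exact mul_mul_mul_comm _ _ _ _ }
  have hb : Function.Bijective Ψ := by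
    constructor
    · intro a b hab
      obtain ⟨c, -, huniq⟩ := NumberField.Units.exist_unique_eq_mul_prod E (Ψ a)
      have h1 := huniq (a.1, Multiplicative.toAdd a.2) rfl
      have h2 := huniq (b.1, Multiplicative.toAdd b.2) hab
      have h3 := h1.trans h2.symm
      simp only [Prod.mk.injEq] at h3
      exact Prod.ext h3.1 h3.2
    · intro x
      obtain ⟨c, hc, -⟩ := NumberField.Units.exist_unique_eq_mul_prod E x
      exact ⟨(c.1, Multiplicative.ofAdd c.2), hc.symm⟩
  let e := MulEquiv.ofBijective Ψ hb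
  have hS : (powMonoidHom 3 : (𝓞 E)ˣ →* (𝓞 E)ˣ).range =
      ((powMonoidHom 3 : (NumberField.Units.torsion E) →* (NumberField.Units.torsion E)).range.prod
        (powMonoidHom 3 : Multiplicative (Fin (NumberField.Units.rank E) → ℤ) →*
          Multiplicative (Fin (NumberField.Units.rank E) → ℤ)).range).map (e : _ →* (𝓞 E)ˣ) := by
    ext x
    constructor
    · rintro ⟨y, rfl⟩
      obtain ⟨q, rfl⟩ := e.surjective y
      refine ⟨q ^ 3, ⟨⟨q.1, rfl⟩, ⟨q.2, rfl⟩⟩, ?_⟩
      exact map_pow e q 3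
    · rintro ⟨q, ⟨⟨a, ha⟩, ⟨b, hb⟩⟩, rfl⟩
      refine ⟨e (a, b), ?_⟩
      have : q = (a, b) ^ 3 := Prod.ext ha.symm hb.symm
      rw [this]
      exact (map_pow e (a, b) 3).symm
  rw [hS, Subgroup.index_map_equiv, Subgroup.index_prod, IsCyclic.index_powMonoidHom_range]
  have h1 : (powMonoidHom 3 : Multiplicative (Fin (NumberField.Units.rank E) → ℤ) →*
          Multiplicative (Fin (NumberField.Units.rank E) → ℤ)).range =
      AddSubgroup.toSubgroup (nsmulAddMonoidHom (α := (Fin (NumberField.Units.rank E) → ℤ)) 3).range := by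
    ext x
    rfl
  rw [h1, AddSubgroup.index_toSubgroup, AddSubgroup.index_range_nsmul]
  have h2 : (Nat.card (NumberField.Units.torsion E)).gcd 3 = 3 :=
    Nat.gcd_eq_right (NumberField.Units.dvd_torsionOrder_of_isPrimitiveRoot hw)
  rw [h2, Module.finrank_fin_fun, ← pow_succ', NumberField.Units.rank]
  congr 1
  have : 0 < Fintype.card (InfinitePlace E) := Fintype.card_pos
  omega

theorem tunit_index3 {E : Type} [Field E] [NumberField E] {w : E} (hw : IsPrimitiveRoot w 3)
    (T : Finset (Pr E)) :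
    (powMonoidHom 3 : UU T →* UU T).range.index = 3 ^ (T.card + Fintype.card (InfinitePlace E)) := by
  obtain ⟨f, _, h2, n, hn, h3⟩ := tunit_hom T
  have hmem : ∀ u : (𝓞 E)ˣ, Units.map (algebraMap (𝓞 E) E : 𝓞 E →* E) u ∈ UU T := by
    intro u v _
    exact J_tunit_index.h396_val_unit v u
  let g : (𝓞 E)ˣ →* UU T :=
    (Units.map (algebraMap (𝓞 E) E : 𝓞 E →* E)).codRestrict (UU T) hmem
  have hg0 : ∀ u : (𝓞 E)ˣ, (((g u : UU T) : Eˣ) : E) = ((u : 𝓞 E) : E) := fun u => rfl
  have hg : Function.Injective g := by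
    intro a b hab
    apply Units.ext
    apply RingOfIntegers.ext
    rw [← hg0 a, ← hg0 b, hab]
  have hex : ∀ x : UU T, f x = 1 ↔ ∃ y : (𝓞 E)ˣ, g y = x := by
    intro x
    rw [h2 x]
    constructor
    · rintro ⟨u, hu⟩
      refine ⟨u, ?_⟩
      apply Subtype.ext
      apply Units.ext
      rw [hg0 u, hu]
    · rintro ⟨u, hu⟩
      exact ⟨u, by rw [← hu, hg0 u]⟩
  have := group_cube (UU T) (𝓞 E)ˣ T f g hg hex n hn h3 (Fintype.card (InfinitePlace E))
    (units_cube_index E hw)
  rw [this, Fintype.card_coe, add_comm]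

end Pool.Agent.K1H79.RF
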