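import Mathlib

/-! # The Herbrand quotient of a group with an automorphism of order three -/

set_option autoImplicit false

namespace Pool.Agent.K1H79.RF

theorem herbrand3 (A : Type) [CommGroup A] (σ : A →* A) (hσ : ∀ x, σ (σ (σ x)) = x)
    (B : Subgroup A) (hB : ∀ x, x ∈ B ↔ σ x = x) (m k : ℕ)
    (hA : (powMonoidHom 3 : A →* A).range.index = 3 ^ m)
    (hBk : (powMonoidHom 3 : B →* B).range.index = 3 ^ k)
    (hμ : ∀ x : A, x ^ 3 = 1 → σ x = x) (hμ3 : Nat.card (powMonoidHom 3 : A →* A).ker = 3)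
    (h90 : ∀ y, y * σ y * σ (σ y) = 1 → ∃ z, y = z * (σ z)⁻¹)
    (N : Subgroup B) (hN : ∀ x : B, x ∈ N ↔ ∃ y : A, (x : A) = y * σ y * σ (σ y)) :
    N.index ^ 2 * 3 ^ (m + 2) = 3 ^ (3 * k) := by
  -- relative indices inside `B`
  have hrel : ∀ K : Subgroup B, (K.map B.subtype).relIndex B = K.index := by
    intro K
    rw [Subgroup.relIndex, Subgroup.subgroupOf,
      Subgroup.comap_map_eq_self_of_injective B.subtype_injective]
  obtain ⟨S, hS⟩ : ∃ S : A →* A, ∀ x, S x = x ^ 3 := ⟨powMonoidHom 3, fun x => rfl⟩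
  have hSpow : S = powMonoidHom 3 := MonoidHom.ext hS
  obtain ⟨Nm, hNm⟩ : ∃ f : A →* A, ∀ x, f x = x * σ x * σ (σ x) :=
    ⟨MonoidHom.mk' (fun x => x * σ x * σ (σ x)) (fun a b => by
      simp only [map_mul]
      rw [mul_mul_mul_comm a b, mul_mul_mul_comm (a * σ a)]), fun x => rfl⟩
  obtain ⟨δ, hδ⟩ : ∃ f : A →* A, ∀ x, f x = x * (σ x)⁻¹ :=
    ⟨MonoidHom.mk' (fun x => x * (σ x)⁻¹) (fun a b => by
      simp only [map_mul, mul_inv]; exact mul_mul_mul_comm a b _ _), fun x => rfl⟩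
  obtain ⟨W, hW⟩ : ∃ W : Subgroup A, W = Nm.ker := ⟨_, rfl⟩
  have hWm : ∀ x, x ∈ W ↔ x * σ x * σ (σ x) = 1 := fun x => by rw [hW, MonoidHom.mem_ker, hNm]
  have hδker : δ.ker = B := by
    ext x
    rw [MonoidHom.mem_ker, hδ, hB, mul_inv_eq_one, eq_comm]
  have hSr : S.range.index = 3 ^ m := by
    rw [hSpow]; exact hA
  have hSB : (B.map S).relIndex B = 3 ^ k := by
    have h1 : B.map S = (powMonoidHom 3 : B →* B).range.map B.subtype := by
      ext x
      constructor
      · rintro ⟨b, hb, rfl⟩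
        exact ⟨⟨b, hb⟩ ^ 3, ⟨⟨b, hb⟩, rfl⟩, by rw [hS]; rfl⟩
      · rintro ⟨_, ⟨b, rfl⟩, rfl⟩
        exact ⟨b, b.2, by rw [hS]; rfl⟩
    rw [h1, hrel, hBk]
  -- the image of the norm
  have hNr : N.map B.subtype = (⊤ : Subgroup A).map Nm := by
    ext x
    constructor
    · rintro ⟨b, hb, rfl⟩
      obtain ⟨y, hy⟩ := (hN b).1 hb
      exact ⟨y, Subgroup.mem_top y, by rw [hNm]; exact hy.symm⟩
    · rintro ⟨y, -, rfl⟩
      have hyB : Nm y ∈ B := by
        rw [hB, hNm, map_mul, map_mul, hσ]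
        rw [mul_comm, ← mul_assoc]
      exact ⟨⟨Nm y, hyB⟩, (hN _).2 ⟨y, hNm y⟩, rfl⟩
  have hbN : ∀ b ∈ B, Nm b = S b := by
    intro b hb
    have h1 := (hB b).1 hb
    rw [hS, hNm, h1, h1, pow_succ, pow_two]
  have hBNm : B.map Nm = B.map S := by
    ext x
    constructor
    · rintro ⟨b, hb, rfl⟩
      exact ⟨b, hb, (hbN b hb).symm⟩
    · rintro ⟨b, hb, rfl⟩
      exact ⟨b, hb, hbN b hb⟩
  have h1 : (B.map S).relIndex (N.map B.subtype) = (B ⊔ W).index := by
    rw [hNr, ← hBNm, Subgroup.relIndex_map_map, ← hW, top_sup_eq, Subgroup.relIndex_top_right]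
  have hNB : N.map B.subtype ≤ B := by
    rintro _ ⟨b, -, rfl⟩
    exact b.2
  have hSN : B.map S ≤ N.map B.subtype := by
    rw [hNr, ← hBNm]
    exact Subgroup.map_mono le_top
  have e1 : (B ⊔ W).index * N.index = 3 ^ k := by
    rw [← h1, ← hrel N, Subgroup.relIndex_mul_relIndex _ _ _ hSN hNB, hSB]
  -- the subgroup `W`
  have hδr : (⊤ : Subgroup A).map δ = W := by
    ext x
    rw [hWm]
    constructor
    · rintro ⟨z, -, rfl⟩
      rw [hδ, map_mul, map_inv, map_mul, map_inv, hσ]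
      group
    · intro hx
      obtain ⟨z, hz⟩ := h90 x hx
      exact ⟨z, Subgroup.mem_top z, by rw [hδ]; exact hz.symm⟩
  have hWσ : ∀ w ∈ W, σ w ∈ W := by
    intro w hw
    rw [hWm] at hw ⊢
    have h2 := congrArg σ hw
    rw [map_mul, map_mul, map_one] at h2
    exact h2
  have hWδδ : ∀ w ∈ W, δ (δ w) = (S (σ w))⁻¹ := by
    intro w hw
    have h2 := (hWm w).1 hw
    have h3 : σ (σ w) = (w * σ w)⁻¹ := eq_inv_of_mul_eq_one_right h2
    rw [hδ, hδ, hS, map_mul, map_inv, h3]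
    simp only [mul_inv, inv_inv, pow_succ, pow_zero, one_mul]
    have : w * (σ w)⁻¹ * ((σ w)⁻¹ * (w⁻¹ * (σ w)⁻¹)) = (w * w⁻¹) * ((σ w)⁻¹ * (σ w)⁻¹ * (σ w)⁻¹) := by
      simp only [mul_comm, mul_left_comm, mul_assoc]
    rw [this, mul_inv_cancel, one_mul]
  obtain ⟨W', hW'⟩ : ∃ W' : Subgroup A, W' = W.map δ := ⟨_, rfl⟩
  have hW'W : W' ≤ W := by
    rw [hW', ← hδr]
    exact Subgroup.map_mono le_top
  have hWS : W'.map δ = W.map S := by
    rw [hW']
    ext x
    constructor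
    · rintro ⟨_, ⟨w, hw, rfl⟩, rfl⟩
      refine ⟨(σ w)⁻¹, W.inv_mem (hWσ w hw), ?_⟩
      rw [map_inv, hWδδ w hw]
    · rintro ⟨w, hw, rfl⟩
      refine ⟨_, ⟨(σ (σ w))⁻¹, W.inv_mem (hWσ _ (hWσ w hw)), rfl⟩, ?_⟩
      rw [map_inv, map_inv, hWδδ _ (hWσ _ (hWσ w hw)), hσ, inv_inv]
  have e2 : W'.relIndex W = (W ⊔ B).index := by
    rw [hW']
    have h2 := Subgroup.relIndex_map_map δ W ⊤
    rw [hδr, hδker, top_sup_eq, Subgroup.relIndex_top_right] at h2
    exact h2
  -- the cubes of `A`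
  have hSδ : S.range.map δ = W.map S := by
    ext x
    constructor
    · rintro ⟨_, ⟨a, rfl⟩, rfl⟩
      refine ⟨δ a, ?_, ?_⟩
      · have : δ a ∈ (⊤ : Subgroup A).map δ := ⟨a, Subgroup.mem_top a, rfl⟩
        rw [hδr] at this
        exact this
      · rw [hS, hS, map_pow]
    · rintro ⟨w, hw, rfl⟩
      rw [← hδr] at hw
      obtain ⟨a, -, rfl⟩ := hw
      exact ⟨S a, ⟨a, rfl⟩, by rw [hS, hS, map_pow]⟩
  have e3 : (W.map S).relIndex W = (S.range ⊔ B).index := by
    have h2 := Subgroup.relIndex_map_map δ S.range ⊤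
    rw [hδr, hδker, top_sup_eq, Subgroup.relIndex_top_right, hSδ] at h2
    exact h2
  have e4 : S.range.relIndex B * (S.range ⊔ B).index = 3 ^ m := by
    have h2 : S.range.relIndex (B ⊔ S.range) = S.range.relIndex B := Subgroup.relIndex_sup_right ..
    rw [← h2, sup_comm B, Subgroup.relIndex_mul_index le_sup_left, hSr]
  -- the cube roots of unity
  have hkS : S.ker ≤ B := by
    intro x hx
    rw [MonoidHom.mem_ker, hS] at hx
    exact (hB x).2 (hμ x hx)
  have hkW : S.ker ≤ W := by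
    intro x hx
    have h2 := (hB x).1 (hkS hx)
    rw [MonoidHom.mem_ker, hS] at hx
    rw [hWm, h2, h2, ← hx, pow_succ, pow_two]
  have hBW : B ⊓ W = S.ker := by
    apply le_antisymm
    · intro x hx
      have h2 := (hB x).1 hx.1
      have h3 := (hWm x).1 hx.2
      rw [h2, h2] at h3
      rw [MonoidHom.mem_ker, hS, pow_succ, pow_two]
      exact h3
    · exact le_inf hkS hkW
  have hW'μ : W' ⊓ S.ker = ⊥ := by
    rw [eq_bot_iff]
    intro x hx
    rw [Subgroup.mem_bot]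
    have hx1 := hx.1
    rw [hW'] at hx1
    obtain ⟨w, hw, rfl⟩ := hx1
    have h2 : δ w ∈ B := hkS hx.2
    have h3 : δ (δ w) = 1 := by
      have : δ w ∈ δ.ker := by rw [hδker]; exact h2
      exact this
    rw [hWδδ w hw, inv_eq_one, hS] at h3
    have h4 := hμ _ h3
    have h5 : σ w = w := by
      have h6 := congrArg σ h4
      rw [hσ] at h6
      rw [h4] at h6
      exact h6.symm
    rw [hδ, h5, mul_inv_cancel]
  have hker3 : Nat.card S.ker = 3 := by rw [hSpow]; exact hμ3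
  -- `q = [W : W']`
  have e5 : (W'.map δ).relIndex W' = (W' ⊔ S.ker).relIndex W := by
    have h2 := Subgroup.relIndex_map_map δ W' W
    rw [hδker, ← hW'] at h2
    rw [h2]
    have h3 : W ⊔ B = W ⊔ (W' ⊔ B) := by
      rw [← sup_assoc, sup_eq_left.2 hW'W]
    rw [h3, Subgroup.relIndex_sup_right]
    have h4 : (W' ⊔ B) ⊓ W = W' ⊔ S.ker := by
      rw [← hBW]
      apply le_antisymm
      · intro x hx
        obtain ⟨a, ha, b, hb, hab⟩ := Subgroup.mem_sup.1 hx.1
        rw [← hab]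
        apply Subgroup.mul_mem_sup ha
        refine ⟨hb, ?_⟩
        have h5 : b = a⁻¹ * x := by rw [← hab, inv_mul_cancel_left]
        show b ∈ W
        rw [h5]
        exact W.mul_mem (W.inv_mem (hW'W ha)) hx.2
      · apply sup_le
        · exact le_inf le_sup_left hW'W
        · exact inf_le_inf_right _ le_sup_right
    rw [← Subgroup.inf_relIndex_right, h4]
  have e6 : 3 * (W' ⊔ S.ker).relIndex W = W'.relIndex W := by
    have h2 : W'.relIndex (W' ⊔ S.ker) * (W' ⊔ S.ker).relIndex W = W'.relIndex W :=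
      Subgroup.relIndex_mul_relIndex _ _ _ le_sup_left (sup_le hW'W hkW)
    have h3 : W'.relIndex (W' ⊔ S.ker) = 3 := by
      rw [sup_comm, Subgroup.relIndex_sup_right, ← Subgroup.inf_relIndex_right, hW'μ,
        Subgroup.relIndex_bot_left, hker3]
    rw [← h2, h3]
  have e7 : (W.map S).relIndex W = (W' ⊔ S.ker).relIndex W * W'.relIndex W := by
    rw [← hWS, ← e5]
    refine (Subgroup.relIndex_mul_relIndex _ _ _ ?_ hW'W).symm
    calc W'.map δ ≤ W.map δ := Subgroup.map_mono hW'W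
      _ = W' := hW'.symm
  -- cube classes
  have hB' : B ≤ B.comap S := by
    intro b hb
    rw [Subgroup.mem_comap, hS]
    exact B.pow_mem hb 3
  have e8 : (B.map S).relIndex (B ⊓ S.range) = B.relIndex (B.comap S) := by
    have h2 := Subgroup.relIndex_map_map S B (B.comap S)
    rw [Subgroup.map_comap_eq, sup_eq_left.2 hkS, sup_eq_left.2 (hkS.trans hB')] at h2
    rw [inf_comm]
    exact h2
  have hcd : (B.comap S).map δ = S.ker := by
    ext x
    constructor
    · rintro ⟨y, hy, rfl⟩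
      have hy' : y ^ 3 ∈ B := by
        have := Subgroup.mem_comap.1 hy
        rwa [hS] at this
      rw [hB, map_pow] at hy'
      rw [MonoidHom.mem_ker, hS, hδ, mul_pow, inv_pow, hy', mul_inv_cancel]
    · intro hx
      obtain ⟨z, hz⟩ := h90 x ((hWm x).1 (hkW hx))
      refine ⟨z, ?_, by rw [hδ]; exact hz.symm⟩
      show S z ∈ B
      rw [MonoidHom.mem_ker, hS] at hx
      rw [hB, hS, map_pow]
      rw [hz, mul_pow, inv_pow, mul_inv_eq_one] at hx
      exact hx.symm
  have e9 : B.relIndex (B.comap S) = 3 := by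
    have h2 := Subgroup.relIndex_map_map δ B (B.comap S)
    rw [hδker, sup_idem, sup_eq_left.2 hB', hcd] at h2
    rw [← h2]
    have h3 : B.map δ = ⊥ := by
      rw [← hδker]
      ext x
      rw [Subgroup.mem_bot]
      constructor
      · rintro ⟨y, hy, rfl⟩
        exact hy
      · rintro rfl
        exact Subgroup.one_mem _
    rw [h3, Subgroup.relIndex_bot_left, hker3]
  have e10 : 3 * S.range.relIndex B = 3 ^ k := by
    have h2 : (B.map S).relIndex (B ⊓ S.range) * (B ⊓ S.range).relIndex B = (B.map S).relIndex B := by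
      apply Subgroup.relIndex_mul_relIndex
      · apply le_inf
        · rintro _ ⟨b, hb, rfl⟩
          rw [hS]
          exact B.pow_mem hb 3
        · rintro _ ⟨b, hb, rfl⟩
          exact ⟨b, rfl⟩
      · exact inf_le_left
    rw [e8, e9, hSB] at h2
    rw [← h2, inf_comm, Subgroup.inf_relIndex_right]
  -- conclusion
  have hq : (W ⊔ B).index = W'.relIndex W := e2.symm
  rw [sup_comm B W, hq] at e1
  rw [← e3, e7] at e4
  calc N.index ^ 2 * 3 ^ (m + 2)
      = N.index ^ 2 * (S.range.relIndex B * ((W' ⊔ S.ker).relIndex W * W'.relIndex W) * 9) := by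
        rw [e4, pow_add]; norm_num
    _ = (3 * S.range.relIndex B) * (3 * (W' ⊔ S.ker).relIndex W) * W'.relIndex W * N.index ^ 2 := by ring
    _ = 3 ^ k * (W'.relIndex W * N.index) ^ 2 := by rw [e10, e6]; ring
    _ = 3 ^ (3 * k) := by rw [e1]; ring

end Pool.Agent.K1H79.RF
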