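import Pool.Agent.H604C.P_index_formula
import Pool.Agent.H604C.P_good_exists
import Pool.Agent.H604C.P_good_mono
import Pool.Agent.K1H79.RF.Grp3
import Pool.Agent.K1H79.RF.Herb3

/-! # Unramified cyclic cubic extensions: basic facts -/

set_option autoImplicit false

namespace Pool.Agent.K1H79.RF

open NumberField IsDedekindDomain Ideal CohNT

section basic

variable {E M : Type} [Field E] [Field M] [Algebra E M]

theorem cub_inv (h3 : Module.finrank E M = 3)
    (σ : M ≃ₐ[E] M) (hσ : σ ≠ 1) :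
    orderOf σ = 3 ∧ ∀ x, σ x = x → ∃ a : E, algebraMap E M a = x := by
  have hfd : FiniteDimensional E M := Module.finite_of_finrank_pos (by omega)
  have h1 := IntermediateField.finrank_fixedField_eq_card (F := E) (E := M) (Subgroup.zpowers σ)
  have h2 : Module.finrank E (IntermediateField.fixedField (Subgroup.zpowers σ)) *
      Module.finrank (IntermediateField.fixedField (Subgroup.zpowers σ)) M = 3 := by
    rw [Module.finrank_mul_finrank, h3]
  rw [h1, Nat.card_zpowers] at h2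
  have ho : orderOf σ ≠ 1 := by rwa [Ne, orderOf_eq_one_iff]
  have hd : orderOf σ ∣ 3 := ⟨_, by rw [mul_comm]; exact h2.symm⟩
  have ho2 : orderOf σ = 3 := by
    rcases (Nat.dvd_prime Nat.prime_three).1 hd with h | h
    · exact absurd h ho
    · exact h
  have hf1 : Module.finrank E (IntermediateField.fixedField (Subgroup.zpowers σ)) = 1 := by
    rw [ho2] at h2
    omega
  refine ⟨ho2, ?_⟩
  intro x hx
  have hmem : x ∈ IntermediateField.fixedField (Subgroup.zpowers σ) := by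
    rw [IntermediateField.mem_fixedField_iff]
    have hle : Subgroup.zpowers σ ≤ MulAction.stabilizer (M ≃ₐ[E] M) x := by
      rw [Subgroup.zpowers_le]; exact hx
    intro f hf
    exact hle hf
  rw [IntermediateField.finrank_eq_one_iff.1 hf1, IntermediateField.mem_bot] at hmem
  exact hmem

theorem cub_three (h3 : Module.finrank E M = 3) (σ : M ≃ₐ[E] M) (hσ : σ ≠ 1) (x : M) :
    σ (σ (σ x)) = x := by
  have h4 : σ ^ 3 = 1 := by rw [← (cub_inv h3 σ hσ).1]; exact pow_orderOf_eq_one σ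
  have h5 := DFunLike.congr_fun h4 x
  rw [pow_succ, pow_two] at h5
  exact h5

theorem cub_gal (h3 : Module.finrank E M = 3) (σ : M ≃ₐ[E] M) (hσ : σ ≠ 1) :
    IsGalois E M ∧ Nat.card (M ≃ₐ[E] M) = 3 ∧ ∀ g : M ≃ₐ[E] M, g ∈ Subgroup.zpowers σ := by
  have hfd : FiniteDimensional E M := Module.finite_of_finrank_pos (by omega)
  have ho := (cub_inv h3 σ hσ).1
  have h1 : Nat.card (M ≃ₐ[E] M) ≤ 3 := by
    rw [← h3, Nat.card_eq_fintype_card]
    exact AlgEquiv.card_le (F := E) (K := M)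
  have h2 : Nat.card (Subgroup.zpowers σ) = 3 := by rw [Nat.card_zpowers, ho]
  have h4 : Nat.card (Subgroup.zpowers σ) ≤ Nat.card (M ≃ₐ[E] M) := Subgroup.card_le_card_group _
  have h5 : Nat.card (M ≃ₐ[E] M) = 3 := by omega
  refine ⟨IsGalois.of_card_aut_eq_finrank E M (by rw [h5, h3]), h5, ?_⟩
  have h6 : Subgroup.zpowers σ = ⊤ := by
    apply Subgroup.eq_top_of_card_eq
    rw [h2, h5]
  intro g
  rw [h6]
  exact Subgroup.mem_top g

theorem cub_norm (h3 : Module.finrank E M = 3) (σ : M ≃ₐ[E] M) (hσ : σ ≠ 1) (x : M) :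
    algebraMap E M (Algebra.norm E x) = x * σ x * σ (σ x) := by
  classical
  have hfd : FiniteDimensional E M := Module.finite_of_finrank_pos (by omega)
  obtain ⟨hG, hc, hz⟩ := cub_gal h3 σ hσ
  have ho := (cub_inv h3 σ hσ).1
  rw [Algebra.norm_eq_prod_automorphisms]
  have h1 : (Finset.univ : Finset (M ≃ₐ[E] M)) = (Finset.range 3).image (fun i => σ ^ i) := by
    symm
    apply Finset.eq_univ_of_card
    rw [Finset.card_image_of_injOn, Finset.card_range, ← Nat.card_eq_fintype_card, hc]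
    intro i hi j hj hij
    rw [Finset.coe_range, Set.mem_Iio] at hi hj
    exact (pow_inj_mod.1 hij).trans (by rw [ho, Nat.mod_eq_of_lt hj]) |> fun h => by
      rw [ho, Nat.mod_eq_of_lt hi] at h
      exact h
  rw [h1, Finset.prod_image]
  · rw [Finset.prod_range_succ, Finset.prod_range_succ, Finset.prod_range_one]
    simp only [pow_zero, pow_one, pow_two]
    rfl
  · intro i hi j hj hij
    rw [Finset.coe_range, Set.mem_Iio] at hi hj
    exact (pow_inj_mod.1 hij).trans (by rw [ho, Nat.mod_eq_of_lt hj]) |> fun h => by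
      rw [ho, Nat.mod_eq_of_lt hi] at h
      exact h

theorem cub_h90 (h3 : Module.finrank E M = 3) (σ : M ≃ₐ[E] M) (hσ : σ ≠ 1) (y : M)
    (hy : y * σ y * σ (σ y) = 1) : ∃ z : M, z ≠ 0 ∧ σ z = z / y := by
  have hfd : FiniteDimensional E M := Module.finite_of_finrank_pos (by omega)
  obtain ⟨hG, hc, hz⟩ := cub_gal h3 σ hσ
  have hcyc : IsCyclic (M ≃ₐ[E] M) := ⟨⟨σ, hz⟩⟩
  have h1 : Algebra.norm E y = 1 := by
    apply (algebraMap E M).injective
    rw [cub_norm h3 σ hσ, hy, map_one]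
  obtain ⟨z, hz1⟩ := groupCohomology.exists_div_of_norm_eq_one hz h1
  have hz0 : (z : M) ≠ 0 := z.ne_zero
  have hσz0 : σ (z : M) ≠ 0 := by rwa [Ne, map_eq_zero]
  refine ⟨z, hz0, ?_⟩
  rw [← hz1]
  field_simp

end basic

section nf

variable {E M : Type} [Field E] [NumberField E] [Field M] [NumberField M] [Algebra E M]

/-- all primes are unramified (valuation form) -/
def UnrAll (E M : Type) [Field E] [NumberField E] [Field M] [NumberField M] [Algebra E M] : Prop :=
  ∀ (v : Pr E) (w : Pr M), Ab v w → ∀ x : E, w.valuation M (algebraMap E M x) = v.valuation E x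

theorem h90u (h3 : Module.finrank E M = 3) (σ : M ≃ₐ[E] M) (hσ : σ ≠ 1)
    (T : Finset (Pr E)) (TM : Finset (Pr M)) (hTM : ∀ w, w ∈ TM ↔ ∃ v ∈ T, Ab v w)
    (hG : Good T) (hun : UnrAll E M)
    (y : Mˣ) (hy : y ∈ UU TM) (hyn : (y : M) * σ (y : M) * σ (σ (y : M)) = 1) :
    ∃ z : Mˣ, z ∈ UU TM ∧ (y : M) = (z : M) / σ (z : M) := by
  classical
  obtain ⟨-, hfix⟩ := cub_inv h3 σ hσ
  have hs := cub_three h3 σ hσ
  obtain ⟨z0, hz0, hz1⟩ := cub_h90 h3 σ hσ (y : M) hyn
  have hσ0 : σ z0 ≠ 0 := by rwa [Ne, map_eq_zero]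
  have hσσ0 : σ (σ z0) ≠ 0 := by rwa [Ne, map_eq_zero]
  obtain ⟨N, hN⟩ := hfix (z0 * σ z0 * σ (σ z0)) (by
    rw [map_mul, map_mul, hs]; ring)
  have hN0 : N ≠ 0 := by
    rintro rfl
    rw [map_zero] at hN
    exact mul_ne_zero (mul_ne_zero hz0 hσ0) hσσ0 hN.symm
  have hσy : ∀ w ∉ TM, ord w (σ (y : M)) = 0 := by
    intro w hw
    obtain ⟨o1, o2, o3, o4, o5, o6, o7, o8, o9, o10, o11, _⟩ := ord_api w
    have h1 := J_index_formula.sig_mem σ T TM hTM y hy w hw
    exact (o11 _ (Units.ne_zero _)).1 h1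
  -- the order of z0 outside TM
  have hw : ∀ w ∉ TM, ord w (algebraMap E M N) = 3 * ord w z0 := by
    intro w hw
    obtain ⟨o1, o2, o3, o4, o5, o6, o7, o8, o9, o10, o11, _⟩ := ord_api w
    have hy0 : ord w (y : M) = 0 := (o11 _ y.ne_zero).1 (hy w hw)
    have hy1 := hσy w hw
    have hyσ : σ (y : M) ≠ 0 := by rw [Ne, map_eq_zero]; exact y.ne_zero
    have e1 : ord w (σ z0) = ord w z0 := by
      rw [hz1, o5 _ _ hz0 y.ne_zero, hy0, sub_zero]
    have e2 : ord w (σ (σ z0)) = ord w z0 := by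
      conv_lhs => rw [hz1, map_div₀]
      rw [o5 _ _ hσ0 hyσ, hy1, sub_zero, e1]
    rw [hN, o4 _ _ (mul_ne_zero hz0 hσ0) hσσ0, o4 _ _ hz0 hσ0, e1, e2]
    ring
  obtain ⟨v0⟩ := J_h90.h90_ne E
  have hab : ∀ w ∉ TM, ∃ v ∉ T, Ab v w := by
    intro w hw
    obtain ⟨v, hv⟩ := (above_api (M := M) v0).2.1 w
    exact ⟨v, fun hvT => hw ((hTM w).2 ⟨v, hvT, hv⟩), hv⟩
  have hab2 : ∀ v ∉ T, ∀ w : Pr M, Ab v w → w ∉ TM := by
    intro v hv w hvw hwT
    obtain ⟨v', hv', hv'w⟩ := (hTM w).1 hwT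
    have h3 := (above_api (M := M) v).2.2.1 w v' hvw hv'w
    rw [h3] at hv
    exact hv hv'
  have hordw : ∀ v ∉ T, ∀ w : Pr M, Ab v w → ∀ x : E, ord w (algebraMap E M x) = ord v x := by
    intro v hv w hvw x
    unfold ord
    rw [hun v w hvw x]
  have hthird : ∀ v ∉ T, ∀ w : Pr M, Ab v w → ord v N / 3 = ord w z0 := by
    intro v hv w hvw
    have h3 := hw w (hab2 v hv w hvw)
    rw [hordw v hv w hvw] at h3
    omega
  choose! p hp1 hp2 using hG
  set S : Finset (Pr E) := (J_h90.h90_fin N hN0).toFinset.filter (fun v => v ∉ T) with hS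
  set c : Eˣ := ∏ v ∈ S, (p v) ^ (ord v N / 3) with hc
  have hcv : ∀ v ∉ T, ord v (c : E) = ord v N / 3 := by
    intro v hv
    obtain ⟨o1, o2, o3, o4, o5, o6, o7, o8, o9, o10, o11, _⟩ := ord_api v
    rw [hc, J_h90.h90_prod]
    have h3 : ∀ u ∈ S, ord v (((p u) ^ (ord u N / 3) : Eˣ) : E) =
        if u = v then ord v N / 3 else 0 := by
      intro u hu
      have huT : u ∉ T := (Finset.mem_filter.1 hu).2
      rw [Units.val_zpow_eq_zpow_val, o8]
      by_cases huv : u = v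
      · rw [if_pos huv, huv, hp1 v hv, mul_one]
      · rw [if_neg huv]
        have h4 := hp2 u huT v hv (Ne.symm huv)
        rw [(o11 _ (p u).ne_zero).1 h4, mul_zero]
    rw [Finset.sum_congr rfl h3, Finset.sum_ite_eq' S v]
    split_ifs with hvS
    · rfl
    · have h5 : ord v N = 0 := by
        by_contra hne
        apply hvS
        rw [hS, Finset.mem_filter, Set.Finite.mem_toFinset]
        exact ⟨hne, hv⟩
      rw [h5]
      rfl
  have hc0 : algebraMap E M (c : E) ≠ 0 := by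
    rw [Ne, map_eq_zero]
    exact c.ne_zero
  refine ⟨Units.mk0 (z0 / algebraMap E M (c : E)) (div_ne_zero hz0 hc0), ?_, ?_⟩
  · intro w hwT
    obtain ⟨o1, o2, o3, o4, o5, o6, o7, o8, o9, o10, o11, _⟩ := ord_api w
    rw [Units.val_mk0, o11 _ (div_ne_zero hz0 hc0), o5 _ _ hz0 hc0]
    obtain ⟨v, hv, hvw⟩ := hab w hwT
    rw [hordw v hv w hvw, hcv v hv, hthird v hv w hvw, sub_self]
  · rw [Units.val_mk0, map_div₀, AlgEquiv.commutes, hz1]
    have hyne := y.ne_zero
    field_simp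

open Classical in
/-- the number of primes above `v` is one or three -/
theorem above_card (h3 : Module.finrank E M = 3) (σ : M ≃ₐ[E] M) (hσ : σ ≠ 1) (v : Pr E) :
    {w : Pr M | Ab v w}.ncard = if NSp M v then 1 else 3 := by
  have hmax : v.asIdeal.IsMaximal := v.isMaximal
  obtain ⟨hG, hc, hz⟩ := cub_gal h3 σ hσ
  have hfin : {w : Pr M | Ab v w}.Finite := (above_api (M := M) v).2.2.2.1
  have h1 : {w : Pr M | Ab v w}.ncard = (v.asIdeal.primesOver (𝓞 M)).ncard := by
    refine Set.ncard_congr (fun w _ => w.asIdeal) ?_ ?_ ?_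
    · intro w hw
      exact ⟨w.isPrime, hw⟩
    · intro w w' _ _ h
      exact HeightOneSpectrum.ext h
    · intro P hP
      obtain ⟨hP1, hP2⟩ := hP
      exact ⟨⟨P, hP1, Ideal.ne_bot_of_liesOver_of_ne_bot v.ne_bot P⟩, hP2, rfl⟩
  have h2 := Ideal.ncard_primesOver_mul_ramificationIdxIn_mul_inertiaDegIn v.asIdeal (𝓞 M)
    (M ≃ₐ[E] M)
  rw [hc] at h2
  have h4 : {w : Pr M | Ab v w}.ncard = 1 ∨ {w : Pr M | Ab v w}.ncard = 3 := by
    rw [h1]
    exact (Nat.dvd_prime Nat.prime_three).1 ⟨_, h2.symm⟩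
  have h5 : NSp M v ↔ {w : Pr M | Ab v w}.ncard = 1 := by
    rw [Set.ncard_eq_one]
    constructor
    · rintro ⟨w, hw, hw2⟩
      refine ⟨w, ?_⟩
      ext x
      rw [Set.mem_singleton_iff]
      exact ⟨fun h => hw2 x h, fun h => by rw [h]; exact hw⟩
    · rintro ⟨w, hw⟩
      refine ⟨w, ?_, ?_⟩
      · have : w ∈ {w : Pr M | Ab v w} := by rw [hw]; rfl
        exact this
      · intro x hx
        have : x ∈ {w : Pr M | Ab v w} := hx
        rw [hw] at this
        exact this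
  split_ifs with h
  · exact h5.1 h
  · rcases h4 with h6 | h6
    · exact absurd (h5.2 h6) h
    · exact h6

theorem above_count3 (h3 : Module.finrank E M = 3) (σ : M ≃ₐ[E] M) (hσ : σ ≠ 1) (T : Finset (Pr E)) :
    ∃ (TM : Finset (Pr M)) (NS : Finset (Pr E)),
      (∀ w, w ∈ TM ↔ ∃ v ∈ T, Ab v w) ∧ (∀ v, v ∈ NS ↔ v ∈ T ∧ NSp M v) ∧
      TM.card + 2 * NS.card = 3 * T.card := by
  classical
  have hfin : ∀ v : Pr E, {w : Pr M | Ab v w}.Finite := fun v => (above_api (M := M) v).2.2.2.1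
  have hone : ∀ v : Pr E, ((hfin v).toFinset.card) + 2 * (if NSp M v then 1 else 0) = 3 := by
    intro v
    have h1 := above_card h3 σ hσ v
    rw [Set.ncard_eq_toFinset_card _ (hfin v)] at h1
    rw [h1]
    split_ifs <;> rfl
  refine ⟨T.biUnion (fun v => (hfin v).toFinset), T.filter (fun v => NSp M v), ?_, ?_, ?_⟩
  · intro w
    rw [Finset.mem_biUnion]
    constructor
    · rintro ⟨v, hv, hw⟩
      exact ⟨v, hv, (hfin v).mem_toFinset.mp hw⟩
    · rintro ⟨v, hv, hw⟩
      exact ⟨v, hv, (hfin v).mem_toFinset.mpr hw⟩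
  · intro v
    rw [Finset.mem_filter]
  · rw [Finset.card_biUnion, Finset.card_filter, Finset.mul_sum, ← Finset.sum_add_distrib,
      Finset.sum_congr rfl (fun v _ => hone v), Finset.sum_const, smul_eq_mul, mul_comm]
    intro v _ v' _ hne
    refine Finset.disjoint_left.mpr ?_
    intro w hw hw'
    exact hne ((above_api (M := M) v).2.2.1 w v' ((hfin v).mem_toFinset.mp hw)
      ((hfin v').mem_toFinset.mp hw'))

theorem infplace3 (h3 : Module.finrank E M = 3) (σ : M ≃ₐ[E] M) (hσ : σ ≠ 1) {ω : E}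
    (hω : IsPrimitiveRoot ω 3) :
    Fintype.card (InfinitePlace M) = 3 * Fintype.card (InfinitePlace E) := by
  obtain ⟨hG, hc, hz⟩ := cub_gal h3 σ hσ
  have hU : IsUnramifiedAtInfinitePlaces E M := by
    constructor
    intro w
    rw [InfinitePlace.isUnramified_iff]
    right
    rw [← InfinitePlace.not_isReal_iff_isComplex]
    intro hr
    obtain ⟨φ, hφ, -⟩ := hr
    have hinj : Function.Injective hφ.embedding := hφ.embedding.injective
    have h1 : IsPrimitiveRoot (hφ.embedding ω) 3 := hω.map_of_injective hinj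
    have h2 := h1.pow_eq_one
    have h4 : (hφ.embedding ω - 1) * (hφ.embedding ω ^ 2 + hφ.embedding ω + 1) = 0 := by
      linear_combination h2
    rcases mul_eq_zero.1 h4 with h5 | h5
    · exact h1.ne_one (by norm_num) (by linarith)
    · nlinarith [sq_nonneg (hφ.embedding ω + 1 / 2)]
  rw [IsUnramifiedAtInfinitePlaces.card_infinitePlace E M, h3, mul_comm]

end nf

end Pool.Agent.K1H79.RF
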