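import Pool.Agent.K1H79.RF.Psi

/-! # Decomposition of primes in an unramified cyclic cubic extension -/

set_option autoImplicit false

namespace Pool.Agent.K1H79.RF

open NumberField IsDedekindDomain Ideal CohNT UniqueFactorizationMonoid
open scoped Classical nonZeroDivisors

section one

variable {K : Type} [Field K] [NumberField K]

theorem cn_mul (v : Pr K) {I J : Ideal (𝓞 K)} (hI : I ≠ 0) (hJ : J ≠ 0) :
    cn v (I * J) = cn v I + cn v J := by
  unfold cn
  rw [normalizedFactors_mul hI hJ, Multiset.count_add]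

theorem cn_pos_iff (v : Pr K) {I : Ideal (𝓞 K)} (hI : I ≠ 0) : 0 < cn v I ↔ I ≤ v.asIdeal := by
  unfold cn
  rw [Multiset.count_pos, ← Ideal.dvd_iff_le]
  constructor
  · exact fun h => dvd_of_mem_normalizedFactors h
  · intro h
    obtain ⟨q, hq, hq2⟩ := exists_mem_normalizedFactors_of_dvd hI v.irreducible h
    rwa [associated_iff_eq.1 hq2]

theorem cn_self (v w : Pr K) : cn v w.asIdeal = if v = w then 1 else 0 := by
  unfold cn
  rw [normalizedFactors_irreducible w.irreducible, normalize_eq, Multiset.count_singleton]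
  by_cases h : v = w
  · subst h; simp
  · rw [if_neg h, if_neg]
    exact fun h' => h (HeightOneSpectrum.ext h')

theorem ideal_ext {I J : Ideal (𝓞 K)} (hI : I ≠ 0) (hJ : J ≠ 0) (h : ∀ v, cn v I = cn v J) : I = J := by
  have h1 : normalizedFactors I = normalizedFactors J := by
    ext P
    by_cases hP : P.IsPrime ∧ P ≠ ⊥
    · exact h ⟨P, hP.1, hP.2⟩
    · have h2 : ∀ L : Ideal (𝓞 K), P ∉ normalizedFactors L := by
        intro L hL
        have hPp : Prime P := prime_of_normalized_factor P hL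
        exact hP ⟨Ideal.isPrime_of_prime hPp, hPp.ne_zero⟩
      rw [Multiset.count_eq_zero.2 (h2 I), Multiset.count_eq_zero.2 (h2 J)]
  rw [← Ideal.prod_normalizedFactors_eq_self hI, ← Ideal.prod_normalizedFactors_eq_self hJ, h1]

theorem cn_prod (v : Pr K) (S : Finset (Pr K)) (n : Pr K → ℕ) :
    cn v (∏ w ∈ S, w.asIdeal ^ n w) = if v ∈ S then n v else 0 := by
  have hne : ∀ w : Pr K, w.asIdeal ^ n w ≠ 0 := fun w => pow_ne_zero _ w.ne_bot
  have hpow : ∀ (w : Pr K) (k : ℕ), cn v (w.asIdeal ^ k) = if v = w then k else 0 := by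
    intro w k
    unfold cn
    rw [normalizedFactors_pow, Multiset.count_nsmul]
    have := cn_self v w
    unfold cn at this
    rw [this]
    split_ifs <;> simp
  induction S using Finset.induction_on with
  | empty =>
    unfold cn
    rw [Finset.prod_empty, normalizedFactors_one]
    simp
  | insert a s ha ih =>
    rw [Finset.prod_insert ha, cn_mul v (hne a) (Finset.prod_ne_zero_iff.2 fun w _ => hne w), ih, hpow]
    by_cases hva : v = a
    · subst hva
      simp [ha]
    · simp [hva]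

end one

variable {E M : Type} [Field E] [NumberField E] [Field M] [NumberField M] [Algebra E M]

/-- extension of ideals -/
noncomputable def ex (M : Type) [Field M] [NumberField M] [Algebra E M] (I : Ideal (𝓞 E)) : Ideal (𝓞 M) :=
  I.map (algebraMap (𝓞 E) (𝓞 M))

theorem ex_ne {I : Ideal (𝓞 E)} (hI : I ≠ 0) : ex M I ≠ 0 := by
  unfold ex
  rw [Ne, Ideal.zero_eq_bot, Ideal.map_eq_bot_iff_of_injective (FaithfulSMul.algebraMap_injective (𝓞 E) (𝓞 M))]
  exact hI

theorem ex_mul (I J : Ideal (𝓞 E)) : ex M (I * J) = ex M I * ex M J := by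
  unfold ex
  exact Ideal.map_mul _ _ _

theorem ab_iff (v : Pr E) (w : Pr M) : Ab v w ↔ ex M v.asIdeal ≤ w.asIdeal := by
  unfold ex
  rw [Ideal.map_le_iff_le_comap]
  constructor
  · intro h
    have : w.asIdeal.LiesOver v.asIdeal := h
    rw [this.over]
  · intro h
    have h1 : v.asIdeal = w.asIdeal.comap (algebraMap (𝓞 E) (𝓞 M)) :=
      v.isMaximal.eq_of_le (Ideal.comap_ne_top _ w.isPrime.ne_top) h
    exact ⟨h1⟩

theorem exists_unif (v : Pr E) : ∃ a : 𝓞 E, a ≠ 0 ∧ ord v (a : E) = 1 := by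
  obtain ⟨a, ha⟩ := v.intValuation_exists_uniformizer
  have ha0 : a ≠ 0 := by
    rintro rfl
    rw [map_zero] at ha
    exact WithZero.exp_ne_zero ha.symm
  refine ⟨a, ha0, ?_⟩
  unfold ord
  have h1 : v.valuation E (a : E) = v.intValuation a := v.valuation_of_algebraMap a
  rw [h1, ha, WithZero.log_exp]
  norm_num

theorem cn_ex (hun : UnrAll E M) (v : Pr E) (w : Pr M) :
    cn w (ex M v.asIdeal) = if Ab v w then 1 else 0 := by
  have hv0 : ex M v.asIdeal ≠ 0 := ex_ne v.ne_bot
  split_ifs with h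
  · obtain ⟨a, ha0, ha⟩ := exists_unif v
    have h1 : cn v (Ideal.span {a}) = 1 := by
      have := ord_span v ha0
      rw [ha] at this
      exact_mod_cast this.symm
    have hsp : Ideal.span {a} ≠ 0 := by
      rw [Ne, Ideal.zero_eq_bot, Ideal.span_singleton_eq_bot]; exact ha0
    have h2 : v.asIdeal ∣ Ideal.span {a} := by
      rw [Ideal.dvd_iff_le]
      exact (cn_pos_iff v hsp).1 (by omega)
    obtain ⟨J, hJ⟩ := h2
    have hJ0 : J ≠ 0 := by
      rintro rfl
      rw [mul_zero] at hJ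
      exact hsp hJ
    have h3 : ex M (Ideal.span {a}) = Ideal.span {algebraMap (𝓞 E) (𝓞 M) a} := by
      unfold ex
      rw [Ideal.map_span, Set.image_singleton]
    have ha0' : algebraMap (𝓞 E) (𝓞 M) a ≠ 0 := by
      intro h'
      exact ha0 (FaithfulSMul.algebraMap_injective (𝓞 E) (𝓞 M) (by rw [h', map_zero]))
    have h4 : cn w (ex M (Ideal.span {a})) = 1 := by
      rw [h3]
      have h5 := ord_span w ha0'
      have h6 : ((algebraMap (𝓞 E) (𝓞 M) a : 𝓞 M) : M) = algebraMap E M (a : E) := by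
        rw [← IsScalarTower.algebraMap_apply (𝓞 E) E M]
        exact (IsScalarTower.algebraMap_apply (𝓞 E) (𝓞 M) M a).symm
      rw [h6] at h5
      have h7 : ord w (algebraMap E M (a : E)) = ord v (a : E) := by
        unfold ord
        rw [hun v w h]
      rw [h7, ha] at h5
      exact_mod_cast h5.symm
    rw [hJ, ex_mul, cn_mul w hv0 (ex_ne hJ0)] at h4
    have h8 : 0 < cn w (ex M v.asIdeal) := (cn_pos_iff w hv0).2 ((ab_iff v w).1 h)
    omega
  · by_contra h'
    exact h ((ab_iff v w).2 ((cn_pos_iff w hv0).1 (Nat.pos_of_ne_zero h')))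

theorem ab_fin (v : Pr E) : {w : Pr M | Ab v w}.Finite := (above_api (M := M) v).2.2.2.1

theorem ex_eq_prod (hun : UnrAll E M) (v : Pr E) :
    ex M v.asIdeal = ∏ w ∈ (ab_fin (M := M) v).toFinset, w.asIdeal := by
  have h1 : ∏ w ∈ (ab_fin (M := M) v).toFinset, w.asIdeal =
      ∏ w ∈ (ab_fin (M := M) v).toFinset, w.asIdeal ^ (1 : ℕ) := by
    simp only [pow_one]
  rw [h1]
  refine ideal_ext (ex_ne v.ne_bot) (Finset.prod_ne_zero_iff.2 fun w _ => pow_ne_zero _ w.ne_bot) ?_
  intro w
  rw [cn_ex hun v w, cn_prod w _ (fun _ => 1)]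
  simp only [Set.Finite.mem_toFinset, Set.mem_ofPred_eq]

/-- decomposition, nonsplit case -/
theorem rel_nonsplit (h3 : Module.finrank E M = 3) (hun : UnrAll E M) {v : Pr E} (hv : NSp M v) {w : Pr M}
    (hw : Ab v w) : Ideal.relNorm (𝓞 E) w.asIdeal = v.asIdeal ^ 3 := by
  have h1 : (ab_fin (M := M) v).toFinset = {w} := by
    ext x
    rw [Set.Finite.mem_toFinset, Finset.mem_singleton]
    obtain ⟨u, hu, hu2⟩ := hv
    constructor
    · intro hx
      rw [hu2 x hx, hu2 w hw]
    · rintro rfl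
      exact hw
  have h2 := ex_eq_prod hun v
  rw [h1, Finset.prod_singleton] at h2
  rw [← h2]
  unfold ex
  rw [Ideal.relNorm_algebraMap]
  have hr : Module.finrank (𝓞 E) (𝓞 M) = 3 := by
    rw [← h3]
    exact (IsFractionRing.finrank_eq (𝓞 E) E (𝓞 M) M).symm
  rw [hr]

/-- decomposition, split case -/
theorem rel_split (h3 : Module.finrank E M = 3) (σ : M ≃ₐ[E] M) (hσ : σ ≠ 1) (hun : UnrAll E M) {v : Pr E}
    (hv : ¬ NSp M v) {w : Pr M} (hw : Ab v w) : Ideal.relNorm (𝓞 E) w.asIdeal = v.asIdeal := by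
  have h1 := above_card h3 σ hσ v
  rw [if_neg hv, Set.ncard_eq_toFinset_card _ (ab_fin (M := M) v)] at h1
  have h2 := congrArg (Ideal.relNorm (𝓞 E)) (ex_eq_prod hun v)
  have hr : Module.finrank (𝓞 E) (𝓞 M) = 3 := by
    rw [← h3]
    exact (IsFractionRing.finrank_eq (𝓞 E) E (𝓞 M) M).symm
  unfold ex at h2
  rw [Ideal.relNorm_algebraMap, hr, map_prod] at h2
  have h4 : ∀ u : Pr M, Ab v u → ∃ s : ℕ, 1 ≤ s ∧ Ideal.relNorm (𝓞 E) u.asIdeal = v.asIdeal ^ s := by
    intro u hu
    have hlo : u.asIdeal.LiesOver v.asIdeal := hu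
    have hvp : v.asIdeal.IsPrime := v.isPrime
    obtain ⟨s, hs⟩ := Ideal.exists_relNorm_eq_pow_of_isPrime u.asIdeal v.asIdeal
    refine ⟨s, ?_, hs⟩
    by_contra h0
    have h5 : s = 0 := by omega
    rw [h5, pow_zero, Ideal.one_eq_top] at hs
    have h6 := Ideal.relNorm_le_comap (𝓞 E) u.asIdeal
    rw [hs] at h6
    exact Ideal.comap_ne_top _ u.isPrime.ne_top (top_le_iff.1 h6)
  choose! s hs1 hs2 using h4
  have h5 : ∏ u ∈ (ab_fin (M := M) v).toFinset, Ideal.relNorm (𝓞 E) u.asIdeal =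
      v.asIdeal ^ (∑ u ∈ (ab_fin (M := M) v).toFinset, s u) := by
    rw [← Finset.prod_pow_eq_pow_sum]
    refine Finset.prod_congr rfl fun u hu => ?_
    rw [Set.Finite.mem_toFinset] at hu
    exact hs2 u hu
  rw [h5] at h2
  have h6 : ∑ u ∈ (ab_fin (M := M) v).toFinset, s u = 3 := by
    have h7 := congrArg (cn v) h2
    have h8 : ∀ k, cn v (v.asIdeal ^ k) = k := by
      intro k
      have := cn_prod v {v} (fun _ => k)
      simpa using this
    rw [h8, h8] at h7
    exact h7.symm
  have h7 : s w = 1 := by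
    have hwm : w ∈ (ab_fin (M := M) v).toFinset := by
      rw [Set.Finite.mem_toFinset]; exact hw
    have h8 := Finset.add_sum_erase _ s hwm
    have h9 : ((ab_fin (M := M) v).toFinset.erase w).card • 1 ≤ ∑ u ∈ (ab_fin (M := M) v).toFinset.erase w, s u := by
      apply Finset.card_nsmul_le_sum
      intro u hu
      have := Finset.mem_of_mem_erase hu
      rw [Set.Finite.mem_toFinset] at this
      exact hs1 u this
    rw [Finset.card_erase_of_mem hwm, h1, smul_eq_mul, mul_one] at h9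
    have h10 := hs1 w hw
    omega
  rw [hs2 w hw, h7, pow_one]

/-- norms -/
theorem absNorm_rel (I : Ideal (𝓞 M)) :
    Ideal.absNorm (Ideal.relNorm (𝓞 E) I) = Ideal.absNorm I := Ideal.absNorm_relNorm (𝓞 E) (𝓞 M) I

/-- an automorphism and a prime which is the only one above its restriction -/
theorem sig_val (σ : M ≃ₐ[E] M) {v : Pr E} (hv : NSp M v) {w : Pr M} (hw : Ab v w) (hun : UnrAll E M) (y : M) :
    w.valuation M (σ y) = w.valuation M y := by
  have key : ∃ (w' : Pr M) (e : ℕ), 0 < e ∧ ∀ x : M, w.valuation M (σ x) = (w'.valuation M x) ^ e := by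
    obtain ⟨-, h2, -⟩ := @above_api M M _ _ _ _ ((σ : M →+* M).toAlgebra) w
    obtain ⟨w', hw'⟩ := h2 w
    obtain ⟨-, -, -, -, h5, -⟩ := @above_api M M _ _ _ _ ((σ : M →+* M).toAlgebra) w'
    obtain ⟨e, he, hv, -⟩ := h5 w hw'
    exact ⟨w', e, he, hv⟩
  obtain ⟨w', e, he, hval⟩ := key
  obtain ⟨v', hv'⟩ := (above_api (M := M) v).2.1 w'
  have hvv : v' = v := by
    apply J_index_formula.pr_ext
    intro x
    have h1 := hval (algebraMap E M x)
    rw [AlgEquiv.commutes, hun v w hw, hun v' w' hv'] at h1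
    rw [h1, pow_lt_one_iff (by omega)]
  rw [hvv] at hv'
  have hww : w' = w := by
    obtain ⟨u, hu, hu2⟩ := hv
    rw [hu2 w' hv', hu2 w hw]
  rw [hww] at hval
  obtain ⟨a, ha0, ha⟩ := exists_unif v
  have he1 : e = 1 := by
    have h1 := hval (algebraMap E M (a : E))
    rw [AlgEquiv.commutes, hun v w hw] at h1
    have h2 := congrArg WithZero.log h1
    rw [WithZero.log_pow] at h2
    unfold ord at ha
    have h3 : WithZero.log (v.valuation E (a : E)) = -1 := by omega
    rw [h3] at h2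
    simp at h2
    omega
  rw [hval, he1, pow_one]

end Pool.Agent.K1H79.RF
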