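import Pool.Agent.K1H79.RF.Cub

/-! # The index of the norms of `T`-units in an unramified cyclic cubic extension -/

set_option autoImplicit false

namespace Pool.Agent.K1H79.RF

open NumberField IsDedekindDomain Ideal CohNT

variable {E M : Type} [Field E] [NumberField E] [Field M] [NumberField M] [Algebra E M]

/-- norms of `T`-units -/
noncomputable def NU (σ : M ≃ₐ[E] M) (T : Finset (Pr E)) (TM : Finset (Pr M)) : Subgroup (UU T) where
  carrier := {x | ∃ y : Mˣ, y ∈ UU TM ∧
    algebraMap E M ((x : Eˣ) : E) = (y : M) * σ (y : M) * σ (σ (y : M))}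
  mul_mem' := by
    rintro a b ⟨y, hy, hy2⟩ ⟨z, hz, hz2⟩
    refine ⟨y * z, (UU TM).mul_mem hy hz, ?_⟩
    simp only [Subgroup.coe_mul, Units.val_mul, map_mul, hy2, hz2]
    ring
  one_mem' := ⟨1, (UU TM).one_mem, by simp⟩
  inv_mem' := by
    rintro a ⟨y, hy, hy2⟩
    refine ⟨y⁻¹, (UU TM).inv_mem hy, ?_⟩
    simp only [Subgroup.coe_inv, Units.val_inv_eq_inv_val, map_inv₀, hy2, mul_inv]

theorem card_cube_ker {F : Type} [Field F] [NumberField F] {ω : F} (hω : IsPrimitiveRoot ω 3)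
    (T : Finset (Pr F)) : Nat.card (powMonoidHom 3 : UU T →* UU T).ker = 3 := by
  have hω3 : ω ^ 3 = 1 := hω.pow_eq_one
  have hω0 : ω ≠ 0 := hω.ne_zero (by norm_num)
  have hω1 : ω ≠ 1 := hω.ne_one (by norm_num)
  have hmem : ∀ z : Fˣ, z ^ 3 = 1 → z ∈ UU T := by
    intro z hz v hv
    have h1 : v.valuation F (z : F) ^ 3 = 1 := by
      rw [← map_pow, ← Units.val_pow_eq_pow_val, hz, Units.val_one, map_one]
    exact (pow_eq_one_iff.1 h1).resolve_right (by norm_num)
  obtain ⟨u, hu⟩ : ∃ u : Fˣ, (u : F) = ω := ⟨Units.mk0 ω hω0, rfl⟩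
  have hu3 : u ^ 3 = 1 := by
    apply Units.ext
    rw [Units.val_pow_eq_pow_val, hu, hω3, Units.val_one]
  obtain ⟨u', hu'⟩ : ∃ u' : UU T, (u' : Fˣ) = u := ⟨⟨u, hmem u hu3⟩, rfl⟩
  have hu'3 : u' ^ 3 = 1 := by
    apply Subtype.ext
    rw [Subgroup.coe_pow, hu', hu3]
    rfl
  have hset : ((powMonoidHom 3 : UU T →* UU T).ker : Set (UU T)) = {1, u', u' ^ 2} := by
    ext x
    rw [SetLike.mem_coe, MonoidHom.mem_ker]
    constructor
    · intro hx
      have hx3 : ((x : Fˣ) : F) ^ 3 = 1 := by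
        have := congrArg (fun z : UU T => ((z : Fˣ) : F)) hx
        exact this
      obtain ⟨i, hi, hix⟩ := hω.eq_pow_of_pow_eq_one hx3
      have h1 : x = u' ^ i := by
        apply Subtype.ext
        apply Units.ext
        rw [← hix, Subgroup.coe_pow, hu', Units.val_pow_eq_pow_val, hu]
      interval_cases i
      · left; rw [h1, pow_zero]
      · right; left; rw [h1, pow_one]
      · right; right; exact h1
    · intro hx
      show x ^ 3 = 1
      rcases hx with rfl | rfl | rfl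
      · exact one_pow 3
      · exact hu'3
      · rw [← pow_mul, mul_comm, pow_mul, hu'3, one_pow]
  have h1 : Nat.card (powMonoidHom 3 : UU T →* UU T).ker =
      ((powMonoidHom 3 : UU T →* UU T).ker : Set (UU T)).ncard := rfl
  have hne1 : (1 : UU T) ≠ u' := by
    intro h
    apply hω1
    rw [← hu, ← hu', ← h]
    rfl
  have hne2 : (1 : UU T) ≠ u' ^ 2 := by
    intro h
    apply hne1
    calc (1 : UU T) = u' ^ 3 := hu'3.symm
      _ = u' ^ 2 * u' := pow_succ _ _
      _ = u' := by rw [← h, one_mul]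
  have hne3 : u' ≠ u' ^ 2 := by
    intro h
    apply hne1
    rw [pow_two] at h
    exact (mul_eq_left.1 h.symm).symm
  rw [h1, hset, Set.ncard_eq_three]
  exact ⟨1, u', u' ^ 2, hne1, hne2, hne3, rfl⟩

theorem index_pow3_equiv {A B : Type} [CommGroup A] [CommGroup B] (φ : A ≃* B) :
    (powMonoidHom 3 : B →* B).range.index = (powMonoidHom 3 : A →* A).range.index := by
  have h : (powMonoidHom 3 : B →* B).range = (powMonoidHom 3 : A →* A).range.map (φ : A →* B) := by
    ext x
    constructor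
    · rintro ⟨y, rfl⟩
      obtain ⟨a, rfl⟩ := φ.surjective y
      exact ⟨a ^ 3, ⟨a, rfl⟩, map_pow φ a 3⟩
    · rintro ⟨_, ⟨a, rfl⟩, rfl⟩
      exact ⟨φ a, (map_pow φ a 3).symm⟩
  rw [h, Subgroup.index_map_equiv]

theorem index3 (h3 : Module.finrank E M = 3) (σ : M ≃ₐ[E] M) (hσ : σ ≠ 1) {ω : E}
    (hω : IsPrimitiveRoot ω 3) (hun : UnrAll E M) (T : Finset (Pr E)) (hG : Good T)
    (TM : Finset (Pr M)) (hTM : ∀ w, w ∈ TM ↔ ∃ v ∈ T, Ab v w)
    (NS : Finset (Pr E)) (hNS : ∀ v, v ∈ NS ↔ v ∈ T ∧ NSp M v) :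
    (NU σ T TM).index ^ 2 * 3 ^ 2 = 3 ^ (2 * NS.card) := by
  obtain ⟨-, hfix⟩ := cub_inv h3 σ hσ
  have hinv := cub_three h3 σ hσ
  let s0 : Mˣ →* Mˣ := Units.map (σ : M →* M)
  have hs0 : ∀ x : Mˣ, ((s0 x : Mˣ) : M) = σ (x : M) := fun x => rfl
  have hs0mem : ∀ x ∈ UU TM, s0 x ∈ UU TM := fun x hx => J_index_formula.sig_mem σ T TM hTM x hx
  let s : UU TM →* UU TM := (s0.comp (UU TM).subtype).codRestrict (UU TM) (fun x => hs0mem _ x.2)
  have hs : ∀ x : UU TM, (((s x : UU TM) : Mˣ) : M) = σ ((x : Mˣ) : M) := fun x => rfl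
  have hss : ∀ x, s (s (s x)) = x := by
    intro x
    apply Subtype.ext
    apply Units.ext
    rw [hs, hs, hs, hinv]
  let B : Subgroup (UU TM) :=
    { carrier := {x | s x = x}
      mul_mem' := by
        intro a b ha hb
        simp only [Set.mem_setOf_eq] at ha hb ⊢
        rw [map_mul, ha, hb]
      one_mem' := by simp
      inv_mem' := by
        intro a ha
        simp only [Set.mem_setOf_eq] at ha ⊢
        rw [map_inv, ha] }
  have hB : ∀ x, x ∈ B ↔ s x = x := fun x => Iff.rfl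
  -- the map from UU T
  let u0 : Eˣ →* Mˣ := Units.map (algebraMap E M : E →* M)
  have hu0 : ∀ x : Eˣ, ((u0 x : Mˣ) : M) = algebraMap E M (x : E) := fun x => rfl
  have hu0mem : ∀ x ∈ UU T, u0 x ∈ UU TM := by
    intro x hx w hw
    rw [hu0]
    obtain ⟨m0, hm0⟩ := Ideal.exists_maximal (𝓞 E)
    let v0 : Pr E := ⟨m0, hm0.isPrime, Ring.ne_bot_of_isMaximal_of_not_isField hm0 (NumberField.RingOfIntegers.not_isField E)⟩
    obtain ⟨-, h6, -⟩ := above_api (M := M) v0
    obtain ⟨v, hvw⟩ := h6 w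
    have hv : v ∉ T := fun h => hw ((hTM w).2 ⟨v, h, hvw⟩)
    rw [hun v w hvw]
    exact hx v hv
  let u1 : UU T →* UU TM := (u0.comp (UU T).subtype).codRestrict (UU TM) (fun x => hu0mem _ x.2)
  have hu1 : ∀ x : UU T, (((u1 x : UU TM) : Mˣ) : M) = algebraMap E M ((x : Eˣ) : E) := fun x => rfl
  have hu1mem : ∀ x, u1 x ∈ B := by
    intro x
    rw [hB]
    apply Subtype.ext
    apply Units.ext
    rw [hs, hu1, AlgEquiv.commutes]
  let u : UU T →* B := u1.codRestrict B hu1mem
  have hu : ∀ x : UU T, ((((u x : B) : UU TM) : Mˣ) : M) = algebraMap E M ((x : Eˣ) : E) := fun x => rfl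
  have hinj : Function.Injective u := by
    intro x y hxy
    apply Subtype.ext
    apply Units.ext
    apply (algebraMap E M).injective
    rw [← hu, ← hu, hxy]
  have hsurj : Function.Surjective u := by
    intro y
    have hy : s (y : UU TM) = y := (hB _).1 y.2
    have hy' : σ (((y : UU TM) : Mˣ) : M) = (((y : UU TM) : Mˣ) : M) := by
      rw [← hs, hy]
    obtain ⟨a, ha⟩ := hfix _ hy'
    have ha0 : a ≠ 0 := by
      rintro rfl
      rw [map_zero] at ha
      exact ((y : UU TM) : Mˣ).ne_zero ha.symm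
    refine ⟨⟨Units.mk0 a ha0, ?_⟩, ?_⟩
    · intro v hv
      obtain ⟨⟨w, hw⟩, -, h3, -⟩ := above_api (M := M) v
      have hwT : w ∉ TM := by
        intro h
        obtain ⟨v', hv', hA⟩ := (hTM w).1 h
        rw [h3 w v' hw hA] at hv
        exact hv hv'
      have h1 := hun v w hw a
      rw [ha] at h1
      rw [Units.val_mk0, ← h1]
      exact (y : UU TM).2 w hwT
    · apply Subtype.ext
      apply Subtype.ext
      apply Units.ext
      rw [hu]
      exact ha
  let φ : UU T ≃* B := MulEquiv.ofBijective u ⟨hinj, hsurj⟩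
  have hφ : ∀ x : UU T, ((((φ x : B) : UU TM) : Mˣ) : M) = algebraMap E M ((x : Eˣ) : E) := fun x => rfl
  have hBk : (powMonoidHom 3 : B →* B).range.index = 3 ^ (T.card + Fintype.card (InfinitePlace E)) := by
    rw [index_pow3_equiv φ]
    exact tunit_index3 hω T
  let N : Subgroup B := (NU σ T TM).comap (φ.symm : B →* UU T)
  have hNi : N.index = (NU σ T TM).index :=
    Subgroup.index_comap_of_surjective _ φ.symm.surjective
  have hN : ∀ x : B, x ∈ N ↔ ∃ y : UU TM, (x : UU TM) = y * s y * s (s y) := by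
    intro x
    have hx : algebraMap E M (((φ.symm x : UU T) : Eˣ) : E) = (((x : UU TM) : Mˣ) : M) := by
      rw [← hφ, MulEquiv.apply_symm_apply]
    have h1 : x ∈ N ↔ ∃ y : Mˣ, y ∈ UU TM ∧
        algebraMap E M (((φ.symm x : UU T) : Eˣ) : E) = (y : M) * σ (y : M) * σ (σ (y : M)) := Iff.rfl
    rw [h1]
    constructor
    · rintro ⟨y, hy, hxy⟩
      refine ⟨⟨y, hy⟩, ?_⟩
      apply Subtype.ext
      apply Units.ext
      rw [hx] at hxy
      exact hxy
    · rintro ⟨y, hy⟩
      refine ⟨y, y.2, ?_⟩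
      rw [hx, hy]
      rfl
  have hωM : IsPrimitiveRoot (algebraMap E M ω) 3 := hω.map_of_injective (algebraMap E M).injective
  have hmain := herbrand3 (UU TM) s hss B hB (TM.card + Fintype.card (InfinitePlace M))
    (T.card + Fintype.card (InfinitePlace E)) (tunit_index3 hωM TM) hBk (by
      intro x hx
      have hx3 : ((x : Mˣ) : M) ^ 3 = 1 := by
        have := congrArg (fun z : UU TM => ((z : Mˣ) : M)) hx
        exact this
      obtain ⟨i, hi, hix⟩ := hωM.eq_pow_of_pow_eq_one hx3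
      apply Subtype.ext
      apply Units.ext
      rw [hs, ← hix, map_pow, AlgEquiv.commutes]) (card_cube_ker hωM TM) (by
      intro y hy
      have hy' : ((y : Mˣ) : M) * σ ((y : Mˣ) : M) * σ (σ ((y : Mˣ) : M)) = 1 := by
        have := congrArg (fun z : UU TM => ((z : Mˣ) : M)) hy
        exact this
      obtain ⟨z, hz, hz2⟩ := h90u h3 σ hσ T TM hTM hG hun (y : Mˣ) y.2 hy'
      refine ⟨⟨z, hz⟩, ?_⟩
      apply Subtype.ext
      apply Units.ext
      rw [hz2]
      simp only [Subgroup.coe_mul, Subgroup.coe_inv, Units.val_mul, Units.val_inv_eq_inv_val, hs]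
      rw [div_eq_mul_inv]) N hN
  rw [hNi, infplace3 h3 σ hσ hω] at hmain
  obtain ⟨TM', NS', h1, h3', h4⟩ := above_count3 (M := M) h3 σ hσ T
  have e1 : TM' = TM := by
    ext w
    rw [h1, hTM]
  have e2 : NS' = NS := by
    ext v
    rw [h3', hNS]
  rw [e1, e2] at h4
  have hkey : (NU σ T TM).index ^ 2 * 3 ^ 2 * 3 ^ (TM.card + 3 * Fintype.card (InfinitePlace E))
      = 3 ^ (2 * NS.card) * 3 ^ (TM.card + 3 * Fintype.card (InfinitePlace E)) := by
    rw [← pow_add]
    have e3 : 2 * NS.card + (TM.card + 3 * Fintype.card (InfinitePlace E)) = 3 * (T.card + Fintype.card (InfinitePlace E)) := by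
      omega
    rw [e3, ← hmain]
    ring
  exact Nat.eq_of_mul_eq_mul_right (by positivity) hkey

end Pool.Agent.K1H79.RF
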