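import Pool.Agent.K1H79.RF.Rep

/-! # The reflection inequality -/

set_option autoImplicit false

namespace Pool.Agent.K1H79.RF

open NumberField IsDedekindDomain Ideal CohNT
open scoped Classical nonZeroDivisors

theorem under_ab {L K : Type} [Field L] [NumberField L] [Field K] [NumberField K] [Algebra L K] (w : Pr K) :
    ∃ v : Pr L, Ab v w := ⟨HeightOneSpectrum.under (𝓞 L) w, by
  show w.asIdeal.LiesOver _
  exact ⟨rfl⟩⟩

/-- an abstract pigeonhole -/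
theorem pigeon {T R : Type} [Fintype T] [Fintype R] [Nonempty R] (ρ : T → R) :
    ∃ r : R, Fintype.card T ≤ Fintype.card R * (Finset.univ.filter fun c => ρ c = r).card := by
  by_contra hcon
  push Not at hcon
  have h1 : Fintype.card T = ∑ r : R, (Finset.univ.filter fun c => ρ c = r).card := by
    have := Finset.card_eq_sum_card_fiberwise (f := ρ) (s := (Finset.univ : Finset T)) (t := Finset.univ)
      (fun _ _ => Finset.mem_univ _)
    simpa using this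
  have h2 : ∑ r : R, Fintype.card R * (Finset.univ.filter fun c => ρ c = r).card < ∑ _r : R, Fintype.card T :=
    Finset.sum_lt_sum_of_nonempty Finset.univ_nonempty fun r _ => hcon r
  rw [← Finset.mul_sum, ← h1, Finset.sum_const, Finset.card_univ, smul_eq_mul] at h2
  exact lt_irrefl _ h2

/-- **the reflection inequality**, from the statements on Dirichlet sums -/
theorem refl_core (hA1 : S_A1) (hA2 : S_A2) (hA3 : S_A3) (hA4 : S_A4) {L K : Type} [Field L] [NumberField L]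
    [Field K] [NumberField K] [Algebra L K] (h2 : Module.finrank L K = 2) {ω0 : K} (hω0 : ω0 ^ 2 + ω0 + 1 = 0)
    (hL : ∀ z : L, z ^ 2 + z + 1 ≠ 0) :
    Nat.card {c : ClassGroup (𝓞 L) // c ^ 3 = 1} ≤ 2 * 27 ^ (Module.finrank ℚ L) *
      Nat.card {Ψ : ClassGroup (𝓞 K) →* Multiplicative (ZMod 3) //
        ∀ C, Ψ (ClassGroup.extendedHom (𝓞 L) (𝓞 K) C) = 1} := by
  have hω3 : ω0 ^ 3 = 1 := by linear_combination (ω0 - 1) * hω0
  have hωint : IsIntegral ℤ ω0 := by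
    apply IsIntegral.of_pow (n := 3) (by norm_num)
    rw [hω3]
    exact isIntegral_one
  obtain ⟨ω, hωω⟩ : ∃ ω : 𝓞 K, (ω : K) = ω0 := ⟨⟨ω0, hωint⟩, rfl⟩
  have hω : ω ^ 2 + ω + 1 = 0 := by
    apply RingOfIntegers.ext
    rw [← hωω] at hω0
    exact hω0
  -- representatives
  have h1 : ∀ c : {c : ClassGroup (𝓞 L) // c ^ 3 = 1}, ∃ (A : (Ideal (𝓞 L))⁰) (a : 𝓞 L),
      ClassGroup.mk0 A = c.1 ∧ a ≠ 0 ∧ Ideal.span {a} = (A : Ideal (𝓞 L)) ^ 3 ∧
        ∀ v : Pr L, (3 : 𝓞 L) ∈ v.asIdeal → a ∉ v.asIdeal := by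
    intro c
    obtain ⟨A, hA, hA3⟩ := exists_cop c.1
    have h3 : ClassGroup.mk0 (A ^ 3) = 1 := by rw [map_pow, hA, c.2]
    rw [ClassGroup.mk0_eq_one_iff] at h3
    obtain ⟨a, ha⟩ := h3
    have ha' : Ideal.span {a} = (A : Ideal (𝓞 L)) ^ 3 := by
      rw [SubmonoidClass.coe_pow] at ha
      exact ha.symm
    have hA0 : (A : Ideal (𝓞 L)) ≠ 0 := nonZeroDivisors.ne_zero A.2
    refine ⟨A, a, hA, ?_, ha', ?_⟩
    · rintro rfl
      rw [Ideal.span_singleton_eq_bot.2 rfl] at ha'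
      exact pow_ne_zero 3 hA0 ha'.symm
    · intro v hv hav
      apply hA3 v hv
      have h4 : (A : Ideal (𝓞 L)) ^ 3 ≤ v.asIdeal := by
        rw [← ha']
        exact (Ideal.span_singleton_le_iff_mem _).2 hav
      exact v.isPrime.le_of_pow_le h4
  choose A a hA ha0 haA ha3 using h1
  -- pigeonhole modulo 27
  have hR := card27 (F := L)
  have hRfin : Finite (𝓞 L ⧸ Ideal.span {(27 : 𝓞 L)}) := Nat.finite_of_card_ne_zero (by
    rw [hR]
    positivity)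
  have hRft : Fintype (𝓞 L ⧸ Ideal.span {(27 : 𝓞 L)}) := Fintype.ofFinite _
  have hTft : Fintype {c : ClassGroup (𝓞 L) // c ^ 3 = 1} := Fintype.ofFinite _
  obtain ⟨r, hr⟩ := pigeon (fun c : {c : ClassGroup (𝓞 L) // c ^ 3 = 1} =>
    Ideal.Quotient.mk (Ideal.span {(27 : 𝓞 L)}) (a c))
  rw [← Nat.card_eq_fintype_card (α := 𝓞 L ⧸ Ideal.span {(27 : 𝓞 L)}), hR] at hr
  obtain ⟨S, hS⟩ : ∃ S : Finset {c : ClassGroup (𝓞 L) // c ^ 3 = 1}, S = Finset.univ.filter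
    (fun c => Ideal.Quotient.mk (Ideal.span {(27 : 𝓞 L)}) (a c) = r) := ⟨_, rfl⟩
  rw [← hS] at hr
  have hT1 : 0 < Fintype.card {c : ClassGroup (𝓞 L) // c ^ 3 = 1} :=
    Fintype.card_pos_iff.2 ⟨⟨1, one_pow 3⟩⟩
  have hS1 : S.Nonempty := by
    rw [← Finset.card_pos]
    by_contra hcon
    have : S.card = 0 := by omega
    rw [this, mul_zero] at hr
    omega
  obtain ⟨c0, hc0⟩ := hS1
  have hmod : ∀ c ∈ S, ∃ h : 𝓞 L, a c = a c0 + 27 * h := by
    intro c hc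
    rw [hS, Finset.mem_filter] at hc hc0
    have h3 : Ideal.Quotient.mk (Ideal.span {(27 : 𝓞 L)}) (a c) =
      Ideal.Quotient.mk (Ideal.span {(27 : 𝓞 L)}) (a c0) := by rw [hc.2, hc0.2]
    rw [Ideal.Quotient.eq, Ideal.mem_span_singleton'] at h3
    obtain ⟨h, hh⟩ := h3
    exact ⟨h, by linear_combination -hh⟩
  -- the elements
  obtain ⟨b, hb⟩ : ∃ b : {c : ClassGroup (𝓞 L) // c ^ 3 = 1} → 𝓞 L, ∀ c, b c = a c * (a c0 * a c0) :=
    ⟨_, fun _ => rfl⟩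
  obtain ⟨B, hB⟩ : ∃ B : {c : ClassGroup (𝓞 L) // c ^ 3 = 1} → (Ideal (𝓞 L))⁰, ∀ c, B c = A c * (A c0 * A c0) :=
    ⟨_, fun _ => rfl⟩
  have hb0 : ∀ c, b c ≠ 0 := fun c => by
    rw [hb]
    exact mul_ne_zero (ha0 c) (mul_ne_zero (ha0 c0) (ha0 c0))
  have hbB : ∀ c, Ideal.span {b c} = (B c : Ideal (𝓞 L)) ^ 3 := by
    intro c
    rw [hb, hB, ← Ideal.span_singleton_mul_span_singleton, ← Ideal.span_singleton_mul_span_singleton, haA, haA]
    push_cast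
    ring
  have hIC : ∀ c, IC (b c) := fun c => ⟨hb0 c, _, hbB c⟩
  obtain ⟨β, hβ⟩ : ∃ β : {c : ClassGroup (𝓞 L) // c ^ 3 = 1} → 𝓞 K, ∀ c, β c = algebraMap (𝓞 L) (𝓞 K) (b c) :=
    ⟨_, fun _ => rfl⟩
  have hGd : ∀ c ∈ S, Gd (β c) := by
    intro c hc
    obtain ⟨h, hh⟩ := hmod c hc
    refine ⟨⟨?_, ex K (B c : Ideal (𝓞 L)), ?_⟩, algebraMap (𝓞 L) (𝓞 K) (a c0),
      algebraMap (𝓞 L) (𝓞 K) (h * (a c0 * a c0)), ?_, ?_⟩
    · rw [hβ]
      intro h0
      exact hb0 c (FaithfulSMul.algebraMap_injective (𝓞 L) (𝓞 K) (by rw [h0, map_zero]))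
    · have h4 : ex K (Ideal.span {b c}) = Ideal.span {algebraMap (𝓞 L) (𝓞 K) (b c)} := by
        unfold ex
        rw [Ideal.map_span, Set.image_singleton]
      rw [hβ, ← h4, hbB]
      unfold ex
      rw [Ideal.map_pow]
    · have h27 : (27 : 𝓞 K) = algebraMap (𝓞 L) (𝓞 K) 27 := by rw [map_ofNat]
      rw [hβ, h27, ← map_pow, ← map_mul, ← map_add, hb, hh]
      congr 1
      ring
    · intro w hw
      obtain ⟨v, hv⟩ := under_ab (L := L) w
      rw [alg_mem hv]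
      apply ha3
      rw [← alg_mem hv, map_ofNat]
      exact hw
  have hmkB : ∀ c, ClassGroup.mk0 (B c) = c.1 * (c0.1 * c0.1) := by
    intro c
    rw [hB, map_mul, map_mul, hA, hA]
  have hc3 : ∀ c : {c : ClassGroup (𝓞 L) // c ^ 3 = 1}, c.1 * c.1 * c.1 = 1 := by
    intro c
    have := c.2
    rw [pow_succ, pow_two] at this
    exact this
  have hcube : ∀ (x : 𝓞 L) (J : (Ideal (𝓞 L))⁰), x ≠ 0 → Ideal.span {x} = (J : Ideal (𝓞 L)) ^ 3 →
      ClassGroup.mk0 J ≠ 1 → ∀ κ : K, κ ^ 3 ≠ ((algebraMap (𝓞 L) (𝓞 K) x : 𝓞 K) : K) := by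
    intro x J hx hJ hne κ hκ
    exact hne (class_of_cube h2 hx hJ hκ)
  have hnc : ∀ c ∈ S, c ≠ c0 → ∀ κ : K, κ ^ 3 ≠ ((β c : 𝓞 K) : K) := by
    intro c hc hne κ
    rw [hβ]
    refine hcube (b c) (B c) (hb0 c) (hbB c) ?_ κ
    rw [hmkB]
    intro h3
    apply hne
    apply Subtype.ext
    have h4 := hc3 c0
    calc c.1 = c.1 * (c0.1 * c0.1 * c0.1) := by rw [h4, mul_one]
      _ = c.1 * (c0.1 * c0.1) * c0.1 := by rw [mul_assoc c.1 (c0.1 * c0.1) c0.1]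
      _ = c0.1 := by rw [h3, one_mul]
  -- the characters
  have hchar : ∀ c : {c : ClassGroup (𝓞 L) // c ^ 3 = 1}, ∃ Ψ : ClassGroup (𝓞 K) →* Multiplicative (ZMod 3),
      c ∈ S → c ≠ c0 → (Ψ ≠ 1 ∧ (∀ w : Pr K, Qa (β c) w → Ψ (ClassGroup.mk0 (pI w)) = 1)) := by
    intro c
    by_cases hc : c ∈ S ∧ c ≠ c0
    · obtain ⟨Ψ, h3, h4⟩ := exists_char hω (hGd c hc.1) (hnc c hc.1 hc.2)
      exact ⟨Ψ, fun _ _ => ⟨h3, h4⟩⟩
    · exact ⟨1, fun h3 h4 => absurd ⟨h3, h4⟩ hc⟩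
  choose Ψ hΨ using hchar
  have hminus : ∀ c ∈ S, c ≠ c0 → ∀ C : ClassGroup (𝓞 L), Ψ c (ClassGroup.extendedHom (𝓞 L) (𝓞 K) C) = 1 := by
    intro c hc hne C
    refine minus hA1 hA2 hA4 h2 hω hL (hIC c) (fun w hw => ?_) C
    rw [← hβ] at hw
    exact (hΨ c hc hne).2 w hw
  have hfib : ∀ c ∈ S, c ≠ c0 → ∀ c' ∈ S, c' ≠ c0 → Ψ c = Ψ c' → c' = c ∨ c'.1 = (c.1 * c0.1)⁻¹ := by
    intro c hc hne c' hc' hne' hΨΨ
    by_contra hcon
    push Not at hcon
    obtain ⟨hcon1, hcon2⟩ := hcon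
    refine inj hA1 hA2 hA3 hω (hGd c hc) (hGd c' hc') (hnc c hc hne) (hnc c' hc' hne') ?_ ?_ (hΨ c hc hne).1
      (hΨ c hc hne).2 (by rw [hΨΨ]; exact (hΨ c' hc' hne').2)
    · rw [hβ, hβ, ← map_mul]
      refine hcube _ (B c * B c') (mul_ne_zero (hb0 c) (hb0 c')) ?_ ?_
      · rw [← Ideal.span_singleton_mul_span_singleton, hbB, hbB]
        push_cast
        ring
      · rw [map_mul, hmkB, hmkB]
        intro h3
        apply hcon2
        have h4 := hc3 c0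
        have h5 : c.1 * c0.1 * c'.1 = 1 := by
          calc c.1 * c0.1 * c'.1 = c.1 * c0.1 * c'.1 * (c0.1 * c0.1 * c0.1) := by rw [h4, mul_one]
            _ = c.1 * (c0.1 * c0.1) * (c'.1 * (c0.1 * c0.1)) := by
              simp only [mul_assoc, mul_comm, mul_left_comm]
            _ = 1 := h3
        exact eq_inv_of_mul_eq_one_right h5
    · rw [hβ, hβ, ← map_mul, ← map_mul]
      refine hcube _ (B c * (B c' * B c')) (mul_ne_zero (hb0 c) (mul_ne_zero (hb0 c') (hb0 c'))) ?_ ?_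
      · rw [← Ideal.span_singleton_mul_span_singleton, ← Ideal.span_singleton_mul_span_singleton, hbB, hbB]
        push_cast
        ring
      · rw [map_mul, map_mul, hmkB, hmkB]
        intro h3
        apply hcon1
        apply Subtype.ext
        have h4 := hc3 c0
        have h5 := hc3 c'
        have h6 : c.1 * (c'.1 * c'.1) = 1 := by
          calc c.1 * (c'.1 * c'.1) = c.1 * (c'.1 * c'.1) * ((c0.1 * c0.1 * c0.1) * (c0.1 * c0.1 * c0.1)) := by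
                rw [h4, mul_one, mul_one]
            _ = c.1 * (c0.1 * c0.1) * (c'.1 * (c0.1 * c0.1) * (c'.1 * (c0.1 * c0.1))) := by
              simp only [mul_assoc, mul_comm, mul_left_comm]
            _ = 1 := h3
        calc c'.1 = c.1 * (c'.1 * c'.1) * c'.1 := by rw [h6, one_mul]
          _ = c.1 * (c'.1 * c'.1 * c'.1) := by rw [mul_assoc c.1]
          _ = c.1 := by rw [h5, mul_one]
  -- counting
  have hHfin : Finite (ClassGroup (𝓞 K) →* Multiplicative (ZMod 3)) := DFunLike.finite _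
  have hHft : Fintype (ClassGroup (𝓞 K) →* Multiplicative (ZMod 3)) := Fintype.ofFinite _
  obtain ⟨X, hX⟩ : ∃ X : Finset (ClassGroup (𝓞 K) →* Multiplicative (ZMod 3)), X = Finset.univ.filter
    (fun Ψ => ∀ C : ClassGroup (𝓞 L), Ψ (ClassGroup.extendedHom (𝓞 L) (𝓞 K) C) = 1) := ⟨_, rfl⟩
  have hXc : Nat.card {Ψ : ClassGroup (𝓞 K) →* Multiplicative (ZMod 3) //
      ∀ C, Ψ (ClassGroup.extendedHom (𝓞 L) (𝓞 K) C) = 1} = X.card := by
    rw [Nat.card_eq_fintype_card, Fintype.card_subtype, hX]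
  rw [hXc]
  have h1X : (1 : ClassGroup (𝓞 K) →* Multiplicative (ZMod 3)) ∈ X := by
    rw [hX, Finset.mem_filter]
    exact ⟨Finset.mem_univ _, fun _ => rfl⟩
  have hcount : (S.erase c0).card ≤ 2 * ((S.erase c0).image Ψ).card := by
    refine Finset.card_le_mul_card_image (S.erase c0) 2 ?_
    intro χ hχ
    rw [Finset.mem_image] at hχ
    obtain ⟨c, hc, rfl⟩ := hχ
    rw [Finset.mem_erase] at hc
    have hsub : (S.erase c0).filter (fun x => Ψ x = Ψ c) ⊆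
        ({c, ⟨(c.1 * c0.1)⁻¹, by rw [inv_pow, mul_pow, c.2, c0.2, mul_one, inv_one]⟩} :
          Finset {c : ClassGroup (𝓞 L) // c ^ 3 = 1}) := by
      intro c' hc'
      rw [Finset.mem_filter, Finset.mem_erase] at hc'
      rw [Finset.mem_insert, Finset.mem_singleton]
      rcases hfib c hc.2 hc.1 c' hc'.1.2 hc'.1.1 hc'.2.symm with h | h
      · exact Or.inl h
      · exact Or.inr (Subtype.ext h)
    exact (Finset.card_le_card hsub).trans Finset.card_le_two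
  have himg : ((S.erase c0).image Ψ).card ≤ X.card - 1 := by
    rw [← Finset.card_erase_of_mem h1X]
    refine Finset.card_le_card fun χ hχ => ?_
    rw [Finset.mem_image] at hχ
    obtain ⟨c, hc, rfl⟩ := hχ
    rw [Finset.mem_erase] at hc
    rw [Finset.mem_erase, hX, Finset.mem_filter]
    exact ⟨(hΨ c hc.2 hc.1).1, Finset.mem_univ _, hminus c hc.2 hc.1⟩
  rw [Finset.card_erase_of_mem hc0] at hcount
  have hX1 : 0 < X.card := Finset.card_pos.2 ⟨1, h1X⟩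
  have hSX : S.card ≤ 2 * X.card := by omega
  rw [Nat.card_eq_fintype_card (α := {c : ClassGroup (𝓞 L) // c ^ 3 = 1})]
  calc Fintype.card {c : ClassGroup (𝓞 L) // c ^ 3 = 1} ≤ 27 ^ Module.finrank ℚ L * (2 * X.card) :=
        hr.trans (Nat.mul_le_mul_left _ hSX)
    _ = _ := by ring

theorem refl_of (hA1 : S_A1) (hA2 : S_A2) (hA3 : S_A3) (hA4 : S_A4) : S_REFL := by
  intro L K _ _ _ _ _ h2 ω0 hω0 hL
  obtain ⟨N, hN, -⟩ := exists_norm (L := L) (K := K) h2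
  have h1 := dual_mul (ClassGroup.extendedHom (𝓞 L) (𝓞 K)) N hN
  have h3 := refl_core hA1 hA2 hA3 hA4 h2 hω0 hL
  calc (Nat.card {c : ClassGroup (𝓞 L) // c ^ 3 = 1}) ^ 2
      = Nat.card {c : ClassGroup (𝓞 L) // c ^ 3 = 1} * Nat.card {c : ClassGroup (𝓞 L) // c ^ 3 = 1} := sq _
    _ ≤ Nat.card {c : ClassGroup (𝓞 L) // c ^ 3 = 1} * (2 * 27 ^ (Module.finrank ℚ L) *
      Nat.card {Ψ : ClassGroup (𝓞 K) →* Multiplicative (ZMod 3) //
        ∀ C, Ψ (ClassGroup.extendedHom (𝓞 L) (𝓞 K) C) = 1}) := Nat.mul_le_mul_left _ h3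
    _ = 2 * 27 ^ (Module.finrank ℚ L) * (Nat.card {c : ClassGroup (𝓞 L) // c ^ 3 = 1} *
      Nat.card {Ψ : ClassGroup (𝓞 K) →* Multiplicative (ZMod 3) //
        ∀ C, Ψ (ClassGroup.extendedHom (𝓞 L) (𝓞 K) C) = 1}) := by ring
    _ ≤ _ := Nat.mul_le_mul_left _ h1

/-- the minus part of the classes killed by `3` -/
def CM (L K : Type) [Field L] [NumberField L] [Field K] [NumberField K] [Algebra L K]
    (c : ClassGroup (𝓞 K)) : Prop := c ^ 3 = 1 ∧
  ∃ I : (Ideal (𝓞 K))⁰, ClassGroup.mk0 I = c ∧ (Ideal.relNorm (𝓞 L) (I : Ideal (𝓞 K))).IsPrincipal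

/-- the reflection inequality with the minus part -/
theorem refl_minus (hA1 : S_A1) (hA2 : S_A2) (hA3 : S_A3) (hA4 : S_A4) {L K : Type} [Field L] [NumberField L]
    [Field K] [NumberField K] [Algebra L K] (h2 : Module.finrank L K = 2) {ω0 : K} (hω0 : ω0 ^ 2 + ω0 + 1 = 0)
    (hL : ∀ z : L, z ^ 2 + z + 1 ≠ 0) :
    Nat.card {c : ClassGroup (𝓞 L) // c ^ 3 = 1} ≤ 2 * 27 ^ (Module.finrank ℚ L) *
      Nat.card {c : ClassGroup (𝓞 K) // CM L K c} := by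
  obtain ⟨N, hN, hN2⟩ := exists_norm (L := L) (K := K) h2
  have h1 := dual_minus (ClassGroup.extendedHom (𝓞 L) (𝓞 K)) N hN
  have h3 := refl_core hA1 hA2 hA3 hA4 h2 hω0 hL
  have h4 : Nat.card {c : ClassGroup (𝓞 K) // c ^ 3 = 1 ∧ N c = 1} ≤ Nat.card {c : ClassGroup (𝓞 K) // CM L K c} := by
    refine Nat.card_le_card_of_injective (fun c => ⟨c.1, c.2.1, ?_⟩) ?_
    · obtain ⟨I, hI⟩ := ClassGroup.mk0_surjective c.1
      exact ⟨I, hI, hN2 I (by rw [hI]; exact c.2.2)⟩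
    · rintro ⟨c, hc⟩ ⟨c', hc'⟩ h
      exact Subtype.ext (congrArg (fun z : {c : ClassGroup (𝓞 K) // CM L K c} => z.1) h)
  exact h3.trans (Nat.mul_le_mul_left _ (h1.trans h4))

end Pool.Agent.K1H79.RF
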