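import Pool.Agent.K1H79.RF.PackM
import Pool.Agent.K1H79.RF.Rep

/-! # Balanced representatives of the classes of the minus part -/

set_option autoImplicit false

namespace Pool.Agent.K1H79.RF

open NumberField Finset Pool.Agent.TH847.LS Pool.Agent.TH847.LG NumberField.InfinitePlace
open scoped Classical nonZeroDivisors

variable {L K : Type} [Field L] [NumberField L] [Field K] [NumberField K] [Algebra L K]

/-- the relative norm as a product -/
theorem exists_conj (h2 : Module.finrank L K = 2) : ∃ τ : K ≃ₐ[L] K, ∀ x : K,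
    algebraMap L K (Algebra.norm L x) = x * τ x := by
  have hq : Algebra.IsQuadraticExtension L K := ⟨h2⟩
  have hg : IsGalois L K := Algebra.IsQuadraticExtension.isGalois L K
  have hfd : FiniteDimensional L K := Module.finite_of_finrank_pos (by omega)
  have hc : Fintype.card (K ≃ₐ[L] K) = 2 := by
    rw [← Nat.card_eq_fintype_card, IsGalois.card_aut_eq_finrank, h2]
  obtain ⟨τ, hτ⟩ : ∃ τ : K ≃ₐ[L] K, τ ≠ 1 := by
    have : Nontrivial (K ≃ₐ[L] K) := Fintype.one_lt_card_iff_nontrivial.1 (by omega)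
    exact exists_ne 1
  have huniv : (Finset.univ : Finset (K ≃ₐ[L] K)) = {1, τ} := by
    symm
    apply Finset.eq_univ_of_card
    rw [Finset.card_pair hτ.symm, hc]
  refine ⟨τ, fun x => ?_⟩
  rw [Algebra.norm_eq_prod_automorphisms, huniv, Finset.prod_pair hτ.symm, AlgEquiv.one_apply]

theorem Lw_conj (τ : K ≃ₐ[L] K) (w : InfinitePlace K) (x : K) :
    Lw w (τ x) = Lw (w.comap (τ : K →+* K)) x := by
  unfold Lw
  have h1 : Algebra.norm ℚ (τ x) = Algebra.norm ℚ x := by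
    have := Algebra.norm_eq_of_algEquiv (τ.restrictScalars ℚ) x
    exact this
  rw [h1]
  rfl

/-- the integral norm -/
noncomputable def nm (K : Type) [Field K] [NumberField K] [Algebra L K] (x : 𝓞 K) : 𝓞 L := Algebra.intNorm (𝓞 L) (𝓞 K) x

theorem nm_coe (x : 𝓞 K) : ((nm (L := L) K x : 𝓞 L) : L) = Algebra.norm L (x : K) :=
  Algebra.algebraMap_intNorm (A := 𝓞 L) (K := L) (B := 𝓞 K) (L := K) x

theorem nm_mul (x y : 𝓞 K) : nm (L := L) K (x * y) = nm K x * nm K y := map_mul _ _ _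

theorem nm_pow (x : 𝓞 K) (k : ℕ) : nm (L := L) K (x ^ k) = nm K x ^ k := map_pow _ _ _

theorem nm_alg (h2 : Module.finrank L K = 2) (z : 𝓞 L) : nm K (algebraMap (𝓞 L) (𝓞 K) z) = z ^ 2 := by
  apply RingOfIntegers.ext
  rw [nm_coe, alg_coe, Algebra.norm_algebraMap, h2]
  rfl

theorem rel_span (x : 𝓞 K) : Ideal.relNorm (𝓞 L) (Ideal.span {x}) = Ideal.span {nm K x} :=
  Ideal.relNorm_singleton (𝓞 L) x

theorem exists_repM (h2 : Module.finrank L K = 2) (c : ClassGroup (𝓞 K)) (hc : c ^ 3 = 1)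
    (hcN : ∃ I : (Ideal (𝓞 K))⁰, ClassGroup.mk0 I = c ∧ (Ideal.relNorm (𝓞 L) (I : Ideal (𝓞 K))).IsPrincipal) :
    ∃ (A : (Ideal (𝓞 K))⁰) (η : 𝓞 K) (γ : 𝓞 L), ClassGroup.mk0 A = c ∧
      (A : Ideal (𝓞 K)) ^ 3 = Ideal.span {η} ∧ η ≠ 0 ∧ γ ≠ 0 ∧
      Ideal.relNorm (𝓞 L) (A : Ideal (𝓞 K)) = Ideal.span {γ} ∧ γ ^ 3 = nm K η ∧
      ∀ w : InfinitePlace K, |Lw w (η : K)| ≤ 2 * ((3 : ℕ) : ℝ) := by
  obtain ⟨I, rfl, γ0, hγ0⟩ := hcN
  have hγ0' : Ideal.relNorm (𝓞 L) (I : Ideal (𝓞 K)) = Ideal.span {γ0} := hγ0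
  have hI0 : (I : Ideal (𝓞 K)) ≠ 0 := nonZeroDivisors.ne_zero I.2
  have hγ00 : γ0 ≠ 0 := by
    rintro rfl
    rw [Ideal.span_singleton_eq_bot.2 rfl, Ideal.relNorm_eq_bot_iff] at hγ0'
    exact hI0 hγ0'
  rw [← map_pow, ClassGroup.mk0_eq_one_iff] at hc
  obtain ⟨g, hg⟩ := hc
  have hg' : (I : Ideal (𝓞 K)) ^ 3 = Ideal.span {g} := by
    rw [SubmonoidClass.coe_pow] at hg
    exact hg
  have hg0 : g ≠ 0 := by
    rintro rfl
    rw [Ideal.span_singleton_eq_bot.2 rfl] at hg'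
    exact pow_ne_zero 3 hI0 hg'
  -- the unit
  have h1 : Ideal.span {nm (L := L) K g} = Ideal.span {γ0 ^ 3} := by
    rw [← rel_span, ← hg', map_pow, hγ0', Ideal.span_singleton_pow]
  obtain ⟨u, hu⟩ := Ideal.span_singleton_eq_span_singleton.1 h1
  -- `nm g * u = γ0 ^ 3`; replace `g` by `g * u`... with the inverse unit
  obtain ⟨v, hv⟩ : ∃ v : 𝓞 L, v = ((u⁻¹ : (𝓞 L)ˣ) : 𝓞 L) := ⟨_, rfl⟩
  have hv0 : v ≠ 0 := by rw [hv]; exact Units.ne_zero _
  have huv : nm (L := L) K g = γ0 ^ 3 * v := by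
    rw [← hu, hv, mul_assoc, Units.mul_inv, mul_one]
  have hvunit : Ideal.span {algebraMap (𝓞 L) (𝓞 K) v} = ⊤ := by
    rw [Ideal.span_singleton_eq_top]
    rw [hv]
    exact (Units.isUnit _).map _
  obtain ⟨g1, hg1⟩ : ∃ g1 : 𝓞 K, g1 = g * algebraMap (𝓞 L) (𝓞 K) v := ⟨_, rfl⟩
  have hg1I : (I : Ideal (𝓞 K)) ^ 3 = Ideal.span {g1} := by
    rw [hg1, ← Ideal.span_singleton_mul_span_singleton, hvunit, Ideal.mul_top, hg']
  have hg10 : g1 ≠ 0 := by
    rw [hg1]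
    refine mul_ne_zero hg0 fun h => hv0 ?_
    exact FaithfulSMul.algebraMap_injective (𝓞 L) (𝓞 K) (by rw [h, map_zero])
  have hg1n : nm (L := L) K g1 = (γ0 * v) ^ 3 := by
    rw [hg1, nm_mul, nm_alg h2, huv]
    ring
  have hgK : (g1 : K) ≠ 0 := by exact_mod_cast hg10
  -- balancing
  obtain ⟨x, hx0, hx⟩ := approx (K := K) (fun w => -(Lw w (g1 : K)) / 3) (by
    have := sum_Lw hgK
    have h2 : ∑ w : InfinitePlace K, (mult w : ℝ) * (-(Lw w (g1 : K)) / 3) =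
        -(∑ w : InfinitePlace K, (mult w : ℝ) * Lw w (g1 : K)) / 3 := by
      rw [← Finset.sum_neg_distrib, Finset.sum_div]
      refine Finset.sum_congr rfl fun w _ => ?_
      ring
    rw [h2, this]
    simp)
  have hxK : (x : K) ≠ 0 := by exact_mod_cast hx0
  have hspan : (Ideal.span {x} : Ideal (𝓞 K)) ∈ nonZeroDivisors (Ideal (𝓞 K)) := by
    refine mem_nonZeroDivisors_of_ne_zero ?_
    rw [Ne, Ideal.zero_eq_bot, Ideal.span_singleton_eq_bot]
    exact hx0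
  have hnx0 : nm (L := L) K x ≠ 0 := by
    intro h
    have h3 : Ideal.relNorm (𝓞 L) (Ideal.span {x}) = ⊥ := by rw [rel_span, h, Ideal.span_singleton_eq_bot]
    rw [Ideal.relNorm_eq_bot_iff, Ideal.span_singleton_eq_bot] at h3
    exact hx0 h3
  refine ⟨⟨Ideal.span {x}, hspan⟩ * I, x ^ 3 * g1, nm K x * (γ0 * v), ?_, ?_, ?_, ?_, ?_, ?_, ?_⟩
  · rw [map_mul]
    have : ClassGroup.mk0 (⟨Ideal.span {x}, hspan⟩ : nonZeroDivisors (Ideal (𝓞 K))) = 1 := by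
      rw [ClassGroup.mk0_eq_one_iff]
      exact ⟨⟨x, rfl⟩⟩
    rw [this, one_mul]
  · change (Ideal.span {x} * (I : Ideal (𝓞 K))) ^ 3 = _
    rw [mul_pow, hg1I, Ideal.span_singleton_pow, Ideal.span_singleton_mul_span_singleton]
  · exact mul_ne_zero (pow_ne_zero _ hx0) hg10
  · exact mul_ne_zero hnx0 (mul_ne_zero hγ00 hv0)
  · change Ideal.relNorm (𝓞 L) (Ideal.span {x} * (I : Ideal (𝓞 K))) = _
    have hvu : Ideal.span {v} = ⊤ := by
      rw [Ideal.span_singleton_eq_top, hv]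
      exact Units.isUnit _
    rw [map_mul, rel_span, hγ0', ← Ideal.span_singleton_mul_span_singleton, ← Ideal.span_singleton_mul_span_singleton,
      hvu, Ideal.mul_top]
  · rw [nm_mul, nm_pow, hg1n]
    ring
  · intro w
    have h3 : Lw w ((x ^ 3 * g1 : 𝓞 K) : K) = 3 * (Lw w (x : K) - (-(Lw w (g1 : K)) / 3)) := by
      push_cast
      rw [Lw_mul w (pow_ne_zero _ hxK) hgK, Lw_pow]
      push_cast
      ring
    rw [h3, abs_mul, abs_of_pos (by norm_num : (0 : ℝ) < 3)]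
    have := hx w
    push_cast
    linarith

/-- the generators of the norms are balanced -/
theorem bal_norm (h2 : Module.finrank L K = 2) {η : 𝓞 K} {γ : 𝓞 L} (hη : η ≠ 0)
    (h : γ ^ 3 = nm K η) (hb : ∀ w : InfinitePlace K, |Lw w (η : K)| ≤ 2 * ((3 : ℕ) : ℝ)) (w : InfinitePlace K) :
    |Lw w ((algebraMap (𝓞 L) (𝓞 K) γ : 𝓞 K) : K)| ≤ 4 := by
  obtain ⟨τ, hτ⟩ := exists_conj h2
  have hηK : (η : K) ≠ 0 := by exact_mod_cast hη
  have hτη : τ (η : K) ≠ 0 := fun h => hηK (τ.injective (by rw [h, map_zero]))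
  have h1 : (((algebraMap (𝓞 L) (𝓞 K) γ : 𝓞 K) : K)) ^ 3 = (η : K) * τ (η : K) := by
    rw [← hτ, ← nm_coe, ← h, alg_coe]
    have : ((γ ^ 3 : 𝓞 L) : L) = (γ : L) ^ 3 := rfl
    rw [this, map_pow]
  have h3 := congrArg (Lw w) h1
  rw [Lw_pow, Lw_mul w hηK hτη, Lw_conj] at h3
  have h4 := abs_le.1 (hb w)
  have h5 := abs_le.1 (hb (w.comap (τ : K →+* K)))
  push_cast at h3 h4 h5
  rw [abs_le]
  constructor <;> linarith

theorem cofM (h2 : Module.finrank L K = 2) {n : ℕ} (hn : Module.finrank ℚ L = n) {B : (Ideal (𝓞 K))⁰} {g : 𝓞 L}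
    (hg0 : g ≠ 0) (hB : Ideal.relNorm (𝓞 L) (B : Ideal (𝓞 K)) = Ideal.span {g})
    (hg : ∀ w : InfinitePlace K, |Lw w ((algebraMap (𝓞 L) (𝓞 K) g : 𝓞 K) : K)| ≤ 4) {N : ℝ} (hN : 0 < N)
    {a : 𝓞 K} {J : Ideal (𝓞 K)} (ha : a ≠ 0) (haJ : Ideal.span {a} = (B : Ideal (𝓞 K)) * J)
    (haw : ∀ w : InfinitePlace K, w (a : K) ^ (2 * n) < N * Ideal.absNorm (B : Ideal (𝓞 K))) :
    ∃ δ : 𝓞 L, δ ≠ 0 ∧ Ideal.relNorm (𝓞 L) J = Ideal.span {δ} ∧
      ∀ w : InfinitePlace K, w ((algebraMap (𝓞 L) (𝓞 K) δ : 𝓞 K) : K) ≤ Real.exp 4 * N ^ (1 / n : ℝ) := by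
  have hn0 : n ≠ 0 := by rw [← hn]; exact (Module.finrank_pos (R := ℚ) (M := L)).ne'
  have hnr : (0 : ℝ) < n := by exact_mod_cast Nat.pos_of_ne_zero hn0
  have hgs : Ideal.span {g} ≠ 0 := by rw [Ne, Ideal.zero_eq_bot, Ideal.span_singleton_eq_bot]; exact hg0
  have h1 : Ideal.span {nm (L := L) K a} = Ideal.span {g} * Ideal.relNorm (𝓞 L) J := by
    rw [← rel_span, haJ, map_mul, hB]
  have h3 : nm (L := L) K a ∈ Ideal.span {g} := by
    have : nm (L := L) K a ∈ Ideal.span {nm (L := L) K a} := Ideal.mem_span_singleton_self _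
    rw [h1] at this
    exact Ideal.mul_le_left this
  obtain ⟨δ, hδ⟩ := Ideal.mem_span_singleton'.1 h3
  have hna0 : nm (L := L) K a ≠ 0 := by
    intro h
    have h3 : Ideal.relNorm (𝓞 L) (Ideal.span {a}) = ⊥ := by rw [rel_span, h, Ideal.span_singleton_eq_bot]
    rw [Ideal.relNorm_eq_bot_iff, Ideal.span_singleton_eq_bot] at h3
    exact ha h3
  refine ⟨δ, ?_, ?_, ?_⟩
  · rintro rfl
    rw [zero_mul] at hδ
    exact hna0 hδ.symm
  · apply mul_left_cancel₀ hgs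
    rw [← h1, ← hδ, Ideal.span_singleton_mul_span_singleton, mul_comm]
  · intro w
    obtain ⟨τ, hτ⟩ := exists_conj h2
    have hgK : ((algebraMap (𝓞 L) (𝓞 K) g : 𝓞 K) : K) ≠ 0 := by
      intro h
      apply hg0
      apply FaithfulSMul.algebraMap_injective (𝓞 L) (𝓞 K)
      rw [map_zero]
      exact_mod_cast h
    obtain ⟨X, hX⟩ : ∃ X : ℝ, X = N * Ideal.absNorm (B : Ideal (𝓞 K)) := ⟨_, rfl⟩
    have hNB : (0 : ℝ) < Ideal.absNorm (B : Ideal (𝓞 K)) := by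
      exact_mod_cast absNorm_pos (nonZeroDivisors.coe_ne_zero B)
    have hX0 : 0 < X := by rw [hX]; positivity
    have e1 : w ((algebraMap (𝓞 L) (𝓞 K) δ : 𝓞 K) : K) * w ((algebraMap (𝓞 L) (𝓞 K) g : 𝓞 K) : K) =
        w (a : K) * (w.comap (τ : K →+* K)) (a : K) := by
      have h4 : (w.comap (τ : K →+* K)) (a : K) = w (τ (a : K)) := rfl
      have h5 : ((algebraMap (𝓞 L) (𝓞 K) δ : 𝓞 K) : K) * ((algebraMap (𝓞 L) (𝓞 K) g : 𝓞 K) : K) =
          (a : K) * τ (a : K) := by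
        rw [← hτ, ← nm_coe, ← hδ, alg_coe, alg_coe, ← map_mul]
        rfl
      rw [h4, ← map_mul w, ← map_mul w, h5]
    have e2 : w (a : K) * (w.comap (τ : K →+* K)) (a : K) ≤ X ^ (1 / n : ℝ) := by
      have h5 := haw w
      have h6 := haw (w.comap (τ : K →+* K))
      rw [← hX] at h5 h6
      obtain ⟨s, hs⟩ : ∃ s : ℝ, s = w (a : K) := ⟨_, rfl⟩
      obtain ⟨t, ht⟩ : ∃ t : ℝ, t = (w.comap (τ : K →+* K)) (a : K) := ⟨_, rfl⟩
      rw [← hs] at h5 ⊢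
      rw [← ht] at h6 ⊢
      have hs0 : 0 ≤ s := by rw [hs]; exact apply_nonneg _ _
      have ht0 : 0 ≤ t := by rw [ht]; exact apply_nonneg _ _
      have h7 : ((s * t) ^ n) ^ 2 ≤ X ^ 2 := by
        calc ((s * t) ^ n) ^ 2 = s ^ (2 * n) * t ^ (2 * n) := by ring
          _ ≤ X * X := mul_le_mul h5.le h6.le (by positivity) hX0.le
          _ = X ^ 2 := by ring
      have h8 : (s * t) ^ n ≤ X := by
        have := abs_le_of_sq_le_sq h7 hX0.le
        exact (abs_le.1 this).2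
      calc s * t = ((s * t) ^ n) ^ (1 / n : ℝ) := by
            rw [← Real.rpow_natCast, ← Real.rpow_mul (by positivity), mul_one_div_cancel hnr.ne', Real.rpow_one]
        _ ≤ X ^ (1 / n : ℝ) := Real.rpow_le_rpow (by positivity) h8 (by positivity)
    have e3 : Real.exp (-4) * (Ideal.absNorm (B : Ideal (𝓞 K)) : ℝ) ^ (1 / n : ℝ) ≤
        w ((algebraMap (𝓞 L) (𝓞 K) g : 𝓞 K) : K) := by
      have h5 := (abs_le.1 (hg w)).1
      unfold Lw at h5
      have h6 : |((Algebra.norm ℚ ((algebraMap (𝓞 L) (𝓞 K) g : 𝓞 K) : K) : ℚ) : ℝ)| =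
          (Ideal.absNorm (B : Ideal (𝓞 K)) : ℝ) ^ 2 := by
        rw [alg_coe, ← Algebra.norm_norm (S := L), Algebra.norm_algebraMap, h2, map_pow]
        have h7 : Ideal.absNorm (B : Ideal (𝓞 K)) = (Algebra.norm ℤ g).natAbs := by
          rw [← absNorm_rel (E := L), hB, Ideal.absNorm_span_singleton]
        have h8 : |((Algebra.norm ℚ (g : L) : ℚ) : ℝ)| = (((Algebra.norm ℤ g).natAbs : ℕ) : ℝ) := by
          rw [← Algebra.coe_norm_int, Nat.cast_natAbs]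
          push_cast
          rfl
        rw [h7, ← h8]
        push_cast
        rw [abs_pow]
      have h9 : (Module.finrank ℚ K : ℝ) = 2 * n := by
        have := Module.finrank_mul_finrank ℚ L K
        rw [h2, hn] at this
        rw [← this]
        push_cast
        ring
      rw [h6, h9, Real.log_pow] at h5
      have hgpos := w_pos w hgK
      rw [← Real.log_le_log_iff (by positivity) hgpos, Real.log_mul (Real.exp_pos _).ne' (by positivity),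
        Real.log_exp, Real.log_rpow hNB]
      have e4 : ((2 : ℕ) : ℝ) * Real.log (Ideal.absNorm (B : Ideal (𝓞 K)) : ℝ) / (2 * n) =
        1 / n * Real.log (Ideal.absNorm (B : Ideal (𝓞 K)) : ℝ) := by
        push_cast
        field_simp
      rw [e4] at h5
      linarith
    have hgpos := w_pos w hgK
    have h10 : w ((algebraMap (𝓞 L) (𝓞 K) δ : 𝓞 K) : K) * (Real.exp (-4) * (Ideal.absNorm (B : Ideal (𝓞 K)) : ℝ) ^ (1 / n : ℝ)) ≤
        X ^ (1 / n : ℝ) := by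
      refine (mul_le_mul_of_nonneg_left e3 (apply_nonneg _ _)).trans ?_
      rw [e1]
      exact e2
    rw [hX, Real.mul_rpow hN.le hNB.le] at h10
    have h11 : (0 : ℝ) < (Ideal.absNorm (B : Ideal (𝓞 K)) : ℝ) ^ (1 / n : ℝ) := by positivity
    have h12 : w ((algebraMap (𝓞 L) (𝓞 K) δ : 𝓞 K) : K) * Real.exp (-4) ≤ N ^ (1 / n : ℝ) := by
      have : (w ((algebraMap (𝓞 L) (𝓞 K) δ : 𝓞 K) : K) * Real.exp (-4)) *
          (Ideal.absNorm (B : Ideal (𝓞 K)) : ℝ) ^ (1 / n : ℝ) ≤ N ^ (1 / n : ℝ) *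
          (Ideal.absNorm (B : Ideal (𝓞 K)) : ℝ) ^ (1 / n : ℝ) := by
        rw [mul_assoc]
        exact h10
      exact le_of_mul_le_mul_right this h11
    calc w ((algebraMap (𝓞 L) (𝓞 K) δ : 𝓞 K) : K) = Real.exp 4 * (w ((algebraMap (𝓞 L) (𝓞 K) δ : 𝓞 K) : K) * Real.exp (-4)) := by
          rw [Real.exp_neg]
          field_simp
      _ ≤ _ := mul_le_mul_of_nonneg_left h12 (Real.exp_pos _).le

end Pool.Agent.K1H79.RF
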