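import Pool.Agent.K1H79.RF.Stm3
import Pool.Agent.K1H79.RF.RepM
import Pool.Agent.K1H79.RF.Refl
import Pool.Agent.K1H79.RF.FieldK

/-! # The inequality for the inert primes -/

set_option autoImplicit false

namespace Pool.Agent.K1H79.RF

open NumberField Finset Pool.Agent.TH847.LS Pool.Agent.TH847.LG NumberField.InfinitePlace
open scoped Classical nonZeroDivisors

/-- counting the cofactors -/
theorem card_cof (hBOX : S_BOX) (hRM : S_RM) {n : ℕ} (hn1 : 1 ≤ n) {ε : ℝ} (hε : 0 < ε) {c : ℝ} (hc : 1 ≤ c) :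
    ∃ C : ℝ, 0 < C ∧ ∀ (L K : Type) [Field L] [NumberField L] [Field K] [NumberField K] [Algebra L K],
      Module.finrank ℚ L = n → Module.finrank L K = 2 → ∀ N : ℕ, 1 ≤ N → (N : ℝ) ≤ c * |(discr L : ℝ)| →
      (((FI K N).filter (fun J => ∃ δ : 𝓞 L, δ ≠ 0 ∧ Ideal.relNorm (𝓞 L) J = Ideal.span {δ} ∧
        ∀ w : InfinitePlace K, w ((algebraMap (𝓞 L) (𝓞 K) δ : 𝓞 K) : K) ≤
          Real.exp 4 * (N : ℝ) ^ (1 / n : ℝ))).card : ℝ) ≤ C * |(discr L : ℝ)| ^ (1 / 2 + ε) := by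
  obtain ⟨k, hk⟩ := exists_nat_gt (1 / ε)
  have hk1 : 1 ≤ k := by
    have h1 : (0 : ℝ) < k := lt_trans (by positivity) hk
    exact_mod_cast h1
  have hk2 : 1 / (2 * k : ℝ) ≤ ε / 2 := by
    have h1 : (0 : ℝ) < k := by exact_mod_cast hk1
    rw [div_lt_iff₀ hε] at hk
    rw [div_le_iff₀ (by positivity)]
    nlinarith
  obtain ⟨C0, hC0⟩ : ∃ C0 : ℝ, C0 = Real.exp 4 * c ^ (1 / n : ℝ) := ⟨_, rfl⟩
  have hC01 : 1 ≤ C0 := by
    rw [hC0]
    have h1 : (1 : ℝ) ≤ Real.exp 4 := Real.one_le_exp (by norm_num)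
    have h2 : (1 : ℝ) ≤ c ^ (1 / n : ℝ) := Real.one_le_rpow hc (by positivity)
    nlinarith
  obtain ⟨C1, hC1, hB⟩ := hBOX n k hn1 hk1 C0 hC01
  obtain ⟨C2, hC2, hR⟩ := hRM (2 * n) (ε / 2) (by positivity)
  refine ⟨C1 * (C2 * c ^ (ε / 2)), by positivity, ?_⟩
  intro L K _ _ _ _ _ hn h2 N hN1 hND
  obtain ⟨D, hD⟩ : ∃ D : ℝ, D = |(discr L : ℝ)| := ⟨_, rfl⟩
  have hD1 : 1 ≤ D := by rw [hD]; exact QR.disc_one L
  rw [← hD] at hND ⊢
  have hD0 : 0 < D := by linarith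
  have hNr : (1 : ℝ) ≤ N := by exact_mod_cast hN1
  have hKn : Module.finrank ℚ K = 2 * n := by
    have := Module.finrank_mul_finrank ℚ L K
    rw [h2, hn] at this
    rw [← this, mul_comm]
  obtain ⟨F, hF⟩ : ∃ F : Finset (Ideal (𝓞 K)), F = (FI K N).filter (fun J => ∃ δ : 𝓞 L, δ ≠ 0 ∧
    Ideal.relNorm (𝓞 L) J = Ideal.span {δ} ∧ ∀ w : InfinitePlace K,
      w ((algebraMap (𝓞 L) (𝓞 K) δ : 𝓞 K) : K) ≤ Real.exp 4 * (N : ℝ) ^ (1 / n : ℝ)) := ⟨_, rfl⟩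
  rw [← hF]
  have hFm : ∀ J : Ideal (𝓞 K), ∃ δ : 𝓞 L, J ∈ F → (δ ≠ 0 ∧
    Ideal.relNorm (𝓞 L) J = Ideal.span {δ} ∧ ∀ w : InfinitePlace K,
      w ((algebraMap (𝓞 L) (𝓞 K) δ : 𝓞 K) : K) ≤ Real.exp 4 * (N : ℝ) ^ (1 / n : ℝ)) := by
    intro J
    by_cases hJ : J ∈ F
    · have := hJ
      rw [hF, Finset.mem_filter] at this
      obtain ⟨δ, hδ⟩ := this.2
      exact ⟨δ, fun _ => hδ⟩
    · exact ⟨0, fun h => absurd h hJ⟩
  choose δ hδ using hFm
  have hFN : ∀ J ∈ F, Ideal.absNorm J ≤ N ∧ J ≠ ⊥ := by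
    intro J hJ
    rw [hF, Finset.mem_filter, mem_FI] at hJ
    exact hJ.1
  -- the box
  have hbox : ((F.image δ).card : ℝ) ≤ C1 * D ^ (1 / 2 + 1 / (2 * k) : ℝ) := by
    rw [hD]
    refine hB L hn (F.image δ) ?_
    intro x hx v
    rw [Finset.mem_image] at hx
    obtain ⟨J, hJ, rfl⟩ := hx
    obtain ⟨w, hw⟩ := InfinitePlace.comap_surjective (k := L) (K := K) v
    have hv : v ((δ J : 𝓞 L) : L) = w ((algebraMap (𝓞 L) (𝓞 K) (δ J) : 𝓞 K) : K) := by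
      rw [alg_coe, ← hw]
      rfl
    rw [hv]
    refine ((hδ J hJ).2.2 w).trans ?_
    rw [hC0, mul_assoc, ← hD, ← Real.mul_rpow (by linarith) hD0.le]
    refine mul_le_mul_of_nonneg_left ?_ (Real.exp_pos 4).le
    exact Real.rpow_le_rpow (by linarith) hND (by positivity)
  -- the fibres
  obtain ⟨b, hb⟩ : ∃ b : ℕ, b = ⌊C2 * (c * D) ^ (ε / 2)⌋₊ := ⟨_, rfl⟩
  have hfib : F.card ≤ b * (F.image δ).card := by
    refine Finset.card_le_mul_card_image F b ?_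
    intro x hx
    rw [Finset.mem_image] at hx
    obtain ⟨J0, hJ0, rfl⟩ := hx
    obtain ⟨m, hm⟩ : ∃ m : ℕ, m = Ideal.absNorm J0 := ⟨_, rfl⟩
    have hm1 : 1 ≤ m := by
      rw [hm]
      exact absNorm_pos (hFN J0 hJ0).2
    have hmN : m ≤ N := by rw [hm]; exact (hFN J0 hJ0).1
    have h3 : ∀ J ∈ F.filter (fun J => δ J = δ J0), Ideal.absNorm J = m := by
      intro J hJ
      rw [Finset.mem_filter] at hJ
      have e1 : Ideal.absNorm J = Ideal.absNorm (Ideal.relNorm (𝓞 L) J) := (absNorm_rel (E := L) J).symm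
      have e2 : Ideal.absNorm J0 = Ideal.absNorm (Ideal.relNorm (𝓞 L) J0) := (absNorm_rel (E := L) J0).symm
      rw [hm, e1, e2, (hδ J hJ.1).2.1, (hδ J0 hJ0).2.1, hJ.2]
    have h4 : (F.filter (fun J => δ J = δ J0)).card ≤ Nat.card {J : Ideal (𝓞 K) // Ideal.absNorm J = m} := by
      have hfin : Finite {J : Ideal (𝓞 K) // Ideal.absNorm J = m} := Ideal.finite_setOfPred_absNorm_eq m
      have e3 : (F.filter (fun J => δ J = δ J0)).card = Nat.card {J // J ∈ F.filter (fun J => δ J = δ J0)} := by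
        rw [Nat.card_eq_fintype_card, Fintype.card_coe]
      rw [e3]
      refine Nat.card_le_card_of_injective (fun J => ⟨J.1, h3 J.1 J.2⟩) ?_
      rintro ⟨J, hJ⟩ ⟨J', hJ'⟩ h
      exact Subtype.ext (congrArg (fun z : {J : Ideal (𝓞 K) // Ideal.absNorm J = m} => z.1) h)
    have h5 := hR K hKn m hm1
    rw [hb]
    refine Nat.le_floor ?_
    have h6 : ((F.filter (fun J => δ J = δ J0)).card : ℝ) ≤ (Nat.card {J : Ideal (𝓞 K) // Ideal.absNorm J = m} : ℝ) := by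
      exact_mod_cast h4
    refine h6.trans (h5.trans ?_)
    refine mul_le_mul_of_nonneg_left ?_ hC2.le
    apply Real.rpow_le_rpow (by positivity) _ (by positivity)
    calc (m : ℝ) ≤ N := by exact_mod_cast hmN
      _ ≤ c * D := hND
  calc (F.card : ℝ) ≤ (b : ℝ) * ((F.image δ).card : ℝ) := by exact_mod_cast hfib
    _ ≤ (C2 * (c * D) ^ (ε / 2)) * (C1 * D ^ (1 / 2 + 1 / (2 * k) : ℝ)) := by
        refine mul_le_mul ?_ hbox (Nat.cast_nonneg _) (by positivity)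
        rw [hb]
        exact Nat.floor_le (by positivity)
    _ = C1 * (C2 * c ^ (ε / 2)) * (D ^ (ε / 2) * D ^ (1 / 2 + 1 / (2 * k) : ℝ)) := by
        rw [Real.mul_rpow (by linarith) hD0.le]
        ring
    _ ≤ C1 * (C2 * c ^ (ε / 2)) * D ^ (1 / 2 + ε) := by
        refine mul_le_mul_of_nonneg_left ?_ (by positivity)
        rw [← Real.rpow_add hD0]
        apply Real.rpow_le_rpow_of_exponent_le hD1
        linarith

/-- **the inequality for the inert primes** -/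
theorem ine_of (hPRM : S_PRM) (hSEP : S_SEP) (hBOX : S_BOX) (hRM : S_RM) (hDISC : S_DISC)
    (hA1 : S_A1) (hA2 : S_A2) (hA3 : S_A3) (hA4 : S_A4) : S_INE := by
  intro n hev hn4 ε hε
  have hnr : (0 : ℝ) < n := by exact_mod_cast (by omega : 0 < n)
  obtain ⟨Cs, hCs, hsep⟩ := hSEP n hev hn4 (150 ^ 3) (by positivity)
  obtain ⟨c, hc⟩ : ∃ c : ℝ, c = 2 ^ (2 * n) * √(3 ^ n) + 1 := ⟨_, rfl⟩
  have hc1 : 1 ≤ c := by
    rw [hc]
    have : 0 ≤ (2 : ℝ) ^ (2 * n) * √(3 ^ n) := by positivity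
    linarith
  obtain ⟨C1, hC1, hcof⟩ := card_cof hBOX hRM (n := n) (by omega) (ε := ε / 2) (by positivity) hc1
  obtain ⟨C2, hC2, hlog⟩ := log_pow (2 * n) (ε := ε / 2) (by positivity)
  refine ⟨max Cs (2 * 27 ^ n * (C1 * (C2 * c ^ (ε / 2)))), lt_of_lt_of_le hCs (le_max_left _ _), ?_⟩
  intro L _ _ hn hns M Y hM hD
  obtain ⟨D, hDD⟩ : ∃ D : ℝ, D = |(discr L : ℝ)| := ⟨_, rfl⟩
  have hD1 : 1 ≤ D := by rw [hDD]; exact QR.disc_one L
  have hD0 : 0 < D := by linarith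
  have hL := no_root hn (by omega) hns
  obtain ⟨K, _, _, _, h2, ω, hω⟩ := exists_K L hL
  have hKn : Module.finrank ℚ K = 2 * n := by
    have := Module.finrank_mul_finrank ℚ L K
    rw [h2, hn] at this
    rw [← this, mul_comm]
  obtain ⟨hd1, hd2⟩ := hDISC L K h2 ω hω hL
  rw [hn, ← hDD] at hd2
  obtain ⟨N, hN⟩ : ∃ N : ℕ, N = ⌊2 ^ (2 * n) * √|(discr K : ℝ)|⌋₊ + 1 := ⟨_, rfl⟩
  have hN1 : 1 ≤ N := by omega
  have hNlt : 2 ^ (2 * n) * √|(discr K : ℝ)| < N := by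
    rw [hN]
    push_cast
    exact Nat.lt_floor_add_one _
  have hNle : (N : ℝ) ≤ c * D := by
    rw [hN, hc]
    push_cast
    have h3 := Nat.floor_le (by positivity : 0 ≤ 2 ^ (2 * n) * √|(discr K : ℝ)|)
    have h4 : √|(discr K : ℝ)| ≤ √(3 ^ n) * D := by
      calc √|(discr K : ℝ)| ≤ √(3 ^ n * D ^ 2) := Real.sqrt_le_sqrt hd2
        _ = √(3 ^ n) * D := by rw [Real.sqrt_mul (by positivity), Real.sqrt_sq hD0.le]
    have h5 : 2 ^ (2 * n) * √|(discr K : ℝ)| ≤ 2 ^ (2 * n) * (√(3 ^ n) * D) :=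
      mul_le_mul_of_nonneg_left h4 (by positivity)
    nlinarith
  -- the primes
  have hP : ∀ p : {p // p ∈ M}, ∃ P : Ideal (𝓞 K), Ov K p.1 P ∧
      Ideal.relNorm (𝓞 L) P = Ideal.span {((p.1 : ℕ) : 𝓞 L)} := fun p =>
    hPRM L K (by rw [hn]; exact hev) h2 ω hω hL p.1 (hM p.1 p.2).2
  choose P hP1 hP2 using hP
  have hp0 : ∀ p : {p // p ∈ M}, ((p.1 : ℕ) : 𝓞 L) ≠ 0 := by
    intro p h
    have := (hM p.1 p.2).2.1.ne_zero
    exact this (by exact_mod_cast h)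
  have hP0 : ∀ p, P p ∈ (Ideal (𝓞 K))⁰ := by
    intro p
    rw [mem_nonZeroDivisors_iff_ne_zero]
    intro h
    have h3 := hP2 p
    rw [h, map_zero, Ideal.zero_eq_bot, eq_comm, Ideal.span_singleton_eq_bot] at h3
    exact hp0 p h3
  have hPN : ∀ p, Ideal.absNorm (P p) = p.1 ^ n := by
    intro p
    have e1 : Ideal.absNorm (P p) = Ideal.absNorm (Ideal.relNorm (𝓞 L) (P p)) := (absNorm_rel (E := L) (P p)).symm
    rw [e1, hP2, Ideal.absNorm_span_singleton]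
    have e2 : ((p.1 : ℕ) : 𝓞 L) = algebraMap ℤ (𝓞 L) (p.1 : ℤ) := by simp
    rw [e2, Algebra.norm_algebraMap, RingOfIntegers.rank, hn, Int.natAbs_pow, Int.natAbs_natCast]
  -- the classes
  have hrep : ∀ c : {c : ClassGroup (𝓞 K) // CM L K c}, ∃ (A : (Ideal (𝓞 K))⁰) (η : 𝓞 K) (γ : 𝓞 L),
      ClassGroup.mk0 A = c.1 ∧ (A : Ideal (𝓞 K)) ^ 3 = Ideal.span {η} ∧ η ≠ 0 ∧ γ ≠ 0 ∧
      Ideal.relNorm (𝓞 L) (A : Ideal (𝓞 K)) = Ideal.span {γ} ∧ γ ^ 3 = nm K η ∧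
      ∀ w : InfinitePlace K, |Lw w (η : K)| ≤ 2 * ((3 : ℕ) : ℝ) := fun c => exists_repM h2 c.1 c.2.1 c.2.2
  choose A η γ hA1' hA2' hA3' hA4' hA5' hA6' hA7' using hrep
  have hft : Fintype {c : ClassGroup (𝓞 K) // CM L K c} := Fintype.ofFinite _
  have key := ev_h hKn (l := 3) (by norm_num) N hNlt (ι := {p // p ∈ M}) (κ := {c : ClassGroup (𝓞 K) // CM L K c})
    (fun p => ⟨P p, hP0 p⟩) A η (by
      intro c c' h
      rw [hA1', hA1'] at h
      exact Subtype.ext h) hA2' hA3' hA7' (by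
      intro p q hpq x y hx hy hxy hw
      have hne : p.1 ≠ q.1 := fun h => hpq (Subtype.ext h)
      have h3 := hsep L K hn hns h2 ω hω p.1 q.1 hne (hM p.1 p.2).2 (hM q.1 q.2).2 (P p) (P q) (hP1 p) (hP1 q)
        x y hx hy hxy (by
          intro w
          refine (hw w).trans (le_of_eq ?_)
          congr 2
          show (((Ideal.absNorm (P p) : ℕ) : ℝ) / ((Ideal.absNorm (P q) : ℕ) : ℝ)) ^ _ = _
          rw [hPN, hPN]
          push_cast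
          rw [← div_pow, ← Real.rpow_natCast, ← Real.rpow_mul (by positivity)]
          congr 1
          field_simp)
      rw [← hDD] at h3 hD
      have hmax : max (p.1 : ℝ) q.1 ≤ Y := max_le (hM p.1 p.2).1 (hM q.1 q.2).1
      have h4 : D ≤ max Cs (2 * 27 ^ n * (C1 * (C2 * c ^ (ε / 2)))) * Y ^ (3 * n * (n - 1)) := by
        refine h3.trans ?_
        have hY0 : 0 ≤ Y := (Nat.cast_nonneg _).trans (hM p.1 p.2).1
        have h5 : (max (p.1 : ℝ) q.1) ^ (3 * n * (n - 1)) ≤ Y ^ (3 * n * (n - 1)) := by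
          refine pow_le_pow_left₀ ?_ hmax _
          exact le_max_of_le_left (Nat.cast_nonneg _)
        exact mul_le_mul (le_max_left _ _) h5 (by positivity) (by positivity)
      linarith)
    (fun J => ∃ δ : 𝓞 L, δ ≠ 0 ∧ Ideal.relNorm (𝓞 L) J = Ideal.span {δ} ∧
        ∀ w : InfinitePlace K, w ((algebraMap (𝓞 L) (𝓞 K) δ : 𝓞 K) : K) ≤
          Real.exp 4 * (N : ℝ) ^ (1 / n : ℝ)) (by
      intro p c' a J ha haJ haw
      refine cofM h2 hn (g := γ c' * ((p.1 : ℕ) : 𝓞 L)) (mul_ne_zero (hA4' c') (hp0 p)) ?_ ?_ (by positivity) ha haJ haw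
      · rw [Submonoid.coe_mul, map_mul, hA5', ← Ideal.span_singleton_mul_span_singleton]
        congr 1
        exact hP2 p
      · intro w
        have e1 : ((algebraMap (𝓞 L) (𝓞 K) (γ c' * ((p.1 : ℕ) : 𝓞 L)) : 𝓞 K) : K) =
            ((algebraMap (𝓞 L) (𝓞 K) (γ c') : 𝓞 K) : K) * ((p.1 : ℕ) : K) := by
          rw [map_mul, map_natCast]
          push_cast
          rfl
        have e2 : ((algebraMap (𝓞 L) (𝓞 K) (γ c') : 𝓞 K) : K) ≠ 0 := by
          intro h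
          apply hA4' c'
          apply FaithfulSMul.algebraMap_injective (𝓞 L) (𝓞 K)
          rw [map_zero]
          exact_mod_cast h
        have e3 : ((p.1 : ℕ) : K) ≠ 0 := by exact_mod_cast (hM p.1 p.2).2.1.ne_zero
        rw [e1, Lw_mul w e2 e3, Lw_natCast, add_zero]
        exact bal_norm h2 (hA3' c') (hA6' c') (hA7' c') w)
  rw [Fintype.card_coe, ← Nat.card_eq_fintype_card] at key
  have hrefl := refl_minus hA1 hA2 hA3 hA4 h2 hω hL
  rw [hn] at hrefl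
  have hcard := hcof L K hn h2 N hN1 (by rw [← hDD]; exact hNle)
  rw [← hDD] at hcard ⊢
  have hNr : (1 : ℝ) ≤ N := by exact_mod_cast hN1
  have hsum : ∑ J ∈ (FI K N).filter (fun J => ∃ δ : 𝓞 L, δ ≠ 0 ∧ Ideal.relNorm (𝓞 L) J = Ideal.span {δ} ∧
        ∀ w : InfinitePlace K, w ((algebraMap (𝓞 L) (𝓞 K) δ : 𝓞 K) : K) ≤
          Real.exp 4 * (N : ℝ) ^ (1 / n : ℝ)), (1 + Real.log ((N : ℝ) / Ideal.absNorm J)) ^ (2 * n) ≤
      (C1 * D ^ (1 / 2 + ε / 2)) * (C2 * (c * D) ^ (ε / 2)) := by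
    have h3 : ∀ J ∈ (FI K N).filter (fun J => ∃ δ : 𝓞 L, δ ≠ 0 ∧ Ideal.relNorm (𝓞 L) J = Ideal.span {δ} ∧
        ∀ w : InfinitePlace K, w ((algebraMap (𝓞 L) (𝓞 K) δ : 𝓞 K) : K) ≤
          Real.exp 4 * (N : ℝ) ^ (1 / n : ℝ)), (1 + Real.log ((N : ℝ) / Ideal.absNorm J)) ^ (2 * n) ≤
        C2 * (c * D) ^ (ε / 2) := by
      intro J hJ
      rw [Finset.mem_filter, mem_FI] at hJ
      have hJ1 : (1 : ℝ) ≤ Ideal.absNorm J := by exact_mod_cast absNorm_pos hJ.1.2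
      have hJN : (Ideal.absNorm J : ℝ) ≤ N := by exact_mod_cast hJ.1.1
      have hJ0 : (0 : ℝ) < Ideal.absNorm J := by linarith
      have h4 : 1 ≤ (N : ℝ) / Ideal.absNorm J := by rwa [le_div_iff₀ hJ0, one_mul]
      have h5 : (N : ℝ) / Ideal.absNorm J ≤ c * D := (div_le_self (by linarith) hJ1).trans hNle
      refine (hlog _ h4).trans ?_
      refine mul_le_mul_of_nonneg_left ?_ hC2.le
      exact Real.rpow_le_rpow (by linarith) h5 (by positivity)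
    refine (Finset.sum_le_card_nsmul _ _ _ h3).trans ?_
    rw [nsmul_eq_mul]
    exact mul_le_mul_of_nonneg_right hcard (by positivity)
  have hM0 : (0 : ℝ) ≤ M.card := Nat.cast_nonneg _
  calc (M.card : ℝ) * (Nat.card {c : ClassGroup (𝓞 L) // c ^ 3 = 1} : ℝ)
      ≤ (M.card : ℝ) * ((2 * 27 ^ n * Nat.card {c : ClassGroup (𝓞 K) // CM L K c} : ℕ) : ℝ) :=
        mul_le_mul_of_nonneg_left (by exact_mod_cast hrefl) hM0
    _ = 2 * 27 ^ n * ((M.card : ℝ) * (Nat.card {c : ClassGroup (𝓞 K) // CM L K c} : ℝ)) := by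
        push_cast
        ring
    _ ≤ 2 * 27 ^ n * ((C1 * D ^ (1 / 2 + ε / 2)) * (C2 * (c * D) ^ (ε / 2))) :=
        mul_le_mul_of_nonneg_left (key.trans hsum) (by positivity)
    _ = 2 * 27 ^ n * (C1 * (C2 * c ^ (ε / 2))) * D ^ (1 / 2 + ε : ℝ) := by
        rw [Real.mul_rpow (by linarith) hD0.le]
        have : D ^ (1 / 2 + ε : ℝ) = D ^ (1 / 2 + ε / 2 : ℝ) * D ^ (ε / 2) := by
          rw [← Real.rpow_add hD0]
          congr 1
          ring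
        rw [this]
        ring
    _ ≤ _ := mul_le_mul_of_nonneg_right (le_max_right _ _) (by positivity)

end Pool.Agent.K1H79.RF
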