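import Pool.Agent.K1H79.RF.Chr

/-! # Cubic Kummer extensions of cubes of ideals -/

set_option autoImplicit false

namespace Pool.Agent.K1H79.RF

open NumberField IsDedekindDomain Ideal CohNT UniqueFactorizationMonoid
open scoped Classical nonZeroDivisors

variable {E M : Type} [Field E] [NumberField E] [Field M] [NumberField M] [Algebra E M]

theorem alg_coe (a : 𝓞 E) : ((algebraMap (𝓞 E) (𝓞 M) a : 𝓞 M) : M) = algebraMap E M (a : E) := by
  rw [← IsScalarTower.algebraMap_apply (𝓞 E) E M]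
  exact (IsScalarTower.algebraMap_apply (𝓞 E) (𝓞 M) M a).symm

theorem alg_mem {v : Pr E} {w : Pr M} (h : Ab v w) (a : 𝓞 E) :
    algebraMap (𝓞 E) (𝓞 M) a ∈ w.asIdeal ↔ a ∈ v.asIdeal := by
  have : w.asIdeal.LiesOver v.asIdeal := h
  rw [this.over]
  exact Iff.rfl

/-- the exponent `e` of the valuations -/
theorem val_exp (v : Pr E) (w : Pr M) (h : Ab v w) :
    ∀ x : E, w.valuation M (algebraMap E M x) = (v.valuation E x) ^ (cn w (ex M v.asIdeal)) := by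
  obtain ⟨e, he, hval, hord⟩ := (above_api (M := M) v).2.2.2.2.1 w h
  suffices hee : cn w (ex M v.asIdeal) = e by rw [hee]; exact hval
  have hv0 : ex M v.asIdeal ≠ 0 := ex_ne v.ne_bot
  obtain ⟨a, ha0, ha⟩ := exists_unif v
  have h1 : cn v (Ideal.span {a}) = 1 := by
    have := ord_span v ha0
    rw [ha] at this
    exact_mod_cast this.symm
  have hsp : Ideal.span {a} ≠ 0 := by
    rw [Ne, Ideal.zero_eq_bot, Ideal.span_singleton_eq_bot]; exact ha0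
  have h2 : v.asIdeal ∣ Ideal.span {a} := by
    rw [Ideal.dvd_iff_le]
    exact (cn_pos_iff v hsp).1 (by omega)
  obtain ⟨J, hJ⟩ := h2
  have hJ0 : J ≠ 0 := by
    rintro rfl
    rw [mul_zero] at hJ
    exact hsp hJ
  have h3 : ex M (Ideal.span {a}) = Ideal.span {algebraMap (𝓞 E) (𝓞 M) a} := by
    unfold ex
    rw [Ideal.map_span, Set.image_singleton]
  have ha0' : algebraMap (𝓞 E) (𝓞 M) a ≠ 0 := by
    intro h'
    exact ha0 (FaithfulSMul.algebraMap_injective (𝓞 E) (𝓞 M) (by rw [h', map_zero]))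
  have h4 : cn w (ex M (Ideal.span {a})) = e := by
    rw [h3]
    have h5 := ord_span w ha0'
    rw [alg_coe, hord, ha, mul_one] at h5
    exact_mod_cast h5.symm
  rw [hJ, ex_mul, cn_mul w hv0 (ex_ne hJ0)] at h4
  have h8 : cn w (ex M J) = 0 := by
    by_contra hne
    have h9 := (cn_pos_iff w (ex_ne hJ0)).1 (Nat.pos_of_ne_zero hne)
    have h10 : J ≤ v.asIdeal := by
      intro x hx
      rw [← alg_mem h]
      exact h9 (Ideal.mem_map_of_mem _ hx)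
    have h11 := (cn_pos_iff v hJ0).2 h10
    rw [hJ, cn_mul v v.ne_bot hJ0, cn_self, if_pos rfl] at h1
    omega
  omega

theorem ex_eq_prod' (v : Pr E) :
    ex M v.asIdeal = ∏ w ∈ (ab_fin (M := M) v).toFinset, w.asIdeal ^ cn w (ex M v.asIdeal) := by
  refine ideal_ext (ex_ne v.ne_bot) (Finset.prod_ne_zero_iff.2 fun w _ => pow_ne_zero _ w.ne_bot) ?_
  intro w
  rw [cn_prod w _ (fun w => cn w (ex M v.asIdeal))]
  split_ifs with h
  · rfl
  · by_contra h'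
    apply h
    rw [Set.Finite.mem_toFinset]
    exact (ab_iff v w).2 ((cn_pos_iff w (ex_ne v.ne_bot)).1 (Nat.pos_of_ne_zero h'))

/-- the relation of ramification and residue degree -/
theorem ks (v : Pr E) : ∃ s : Pr M → ℕ, (∀ w, Ab v w → 1 ≤ s w ∧ 1 ≤ cn w (ex M v.asIdeal) ∧
      Ideal.relNorm (𝓞 E) w.asIdeal = v.asIdeal ^ s w) ∧
    ∑ w ∈ (ab_fin (M := M) v).toFinset, s w * cn w (ex M v.asIdeal) = Module.finrank E M := by
  have h4 : ∀ u : Pr M, Ab v u → ∃ s : ℕ, 1 ≤ s ∧ Ideal.relNorm (𝓞 E) u.asIdeal = v.asIdeal ^ s := by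
    intro u hu
    have hlo : u.asIdeal.LiesOver v.asIdeal := hu
    have hvp : v.asIdeal.IsPrime := v.isPrime
    obtain ⟨s, hs⟩ := Ideal.exists_relNorm_eq_pow_of_isPrime u.asIdeal v.asIdeal
    refine ⟨s, ?_, hs⟩
    by_contra h0
    have h5 : s = 0 := by omega
    rw [h5, pow_zero, Ideal.one_eq_top] at hs
    have h6 := Ideal.relNorm_le_comap (𝓞 E) u.asIdeal
    rw [hs] at h6
    exact Ideal.comap_ne_top _ u.isPrime.ne_top (top_le_iff.1 h6)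
  choose! s hs1 hs2 using h4
  refine ⟨s, fun w hw => ⟨hs1 w hw, (cn_pos_iff w (ex_ne v.ne_bot)).2 ((ab_iff v w).1 hw), hs2 w hw⟩, ?_⟩
  have h2 := congrArg (Ideal.relNorm (𝓞 E)) (ex_eq_prod' (M := M) v)
  have hr : Module.finrank (𝓞 E) (𝓞 M) = Module.finrank E M :=
    (IsFractionRing.finrank_eq (𝓞 E) E (𝓞 M) M).symm
  have h3 : Ideal.relNorm (𝓞 E) (ex M v.asIdeal) = v.asIdeal ^ Module.finrank E M := by
    unfold ex
    rw [Ideal.relNorm_algebraMap, hr]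
  rw [h3, map_prod] at h2
  have h5 : ∏ u ∈ (ab_fin (M := M) v).toFinset, Ideal.relNorm (𝓞 E) (u.asIdeal ^ cn u (ex M v.asIdeal)) =
      v.asIdeal ^ (∑ u ∈ (ab_fin (M := M) v).toFinset, s u * cn u (ex M v.asIdeal)) := by
    rw [← Finset.prod_pow_eq_pow_sum]
    refine Finset.prod_congr rfl fun u hu => ?_
    rw [Set.Finite.mem_toFinset] at hu
    rw [map_pow, hs2 u hu, ← pow_mul]
  rw [h5] at h2
  have h7 := congrArg (cn v) h2
  have h8 : ∀ k, cn v (v.asIdeal ^ k) = k := by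
    intro k
    have := cn_prod v {v} (fun _ => k)
    simpa using this
  rw [h8, h8] at h7
  exact h7.symm

theorem unr_of (h3 : Module.finrank E M = 3) (σ : M ≃ₐ[E] M) (hσ : σ ≠ 1) (v : Pr E)
    (hone : NSp M v → ∀ w : Pr M, Ab v w → Ideal.relNorm (𝓞 E) w.asIdeal = v.asIdeal → False) (w : Pr M)
    (hw : Ab v w) (x : E) : w.valuation M (algebraMap E M x) = v.valuation E x := by
  suffices hk : cn w (ex M v.asIdeal) = 1 by rw [val_exp v w hw, hk, pow_one]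
  obtain ⟨s, hs, hsum⟩ := ks (M := M) v
  rw [h3] at hsum
  have hcard := above_card h3 σ hσ v
  rw [Set.ncard_eq_toFinset_card _ (ab_fin (M := M) v)] at hcard
  have hwm : w ∈ (ab_fin (M := M) v).toFinset := by
    rw [Set.Finite.mem_toFinset]; exact hw
  obtain ⟨hs1, hk1, hrel⟩ := hs w hw
  by_cases hns : NSp M v
  · have h1 : (ab_fin (M := M) v).toFinset = {w} := by
      rw [if_pos hns] at hcard
      rw [Finset.card_eq_one] at hcard
      obtain ⟨u, hu⟩ := hcard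
      rw [hu] at hwm ⊢
      rw [Finset.mem_singleton] at hwm
      rw [hwm]
    rw [h1, Finset.sum_singleton] at hsum
    have h2 : s w = 1 ∨ s w = 3 := (Nat.dvd_prime Nat.prime_three).1 ⟨_, hsum.symm⟩
    rcases h2 with h4 | h4
    · exfalso
      rw [h4, pow_one] at hrel
      exact hone hns w hw hrel
    · rw [h4] at hsum
      omega
  · rw [if_neg hns] at hcard
    have h8 := Finset.add_sum_erase _ (fun u => s u * cn u (ex M v.asIdeal)) hwm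
    have h9 : ((ab_fin (M := M) v).toFinset.erase w).card • 1 ≤
        ∑ u ∈ (ab_fin (M := M) v).toFinset.erase w, s u * cn u (ex M v.asIdeal) := by
      apply Finset.card_nsmul_le_sum
      intro u hu
      have := Finset.mem_of_mem_erase hu
      rw [Set.Finite.mem_toFinset] at this
      obtain ⟨a1, a2, -⟩ := hs u this
      exact Nat.mul_pos a1 a2
    rw [Finset.card_erase_of_mem hwm, hcard, smul_eq_mul, mul_one] at h9
    have h10 : s w * cn w (ex M v.asIdeal) = 1 := by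
      have := Nat.mul_pos hs1 hk1
      omega
    exact Nat.eq_one_of_mul_eq_one_left h10

/-- equal residue fields -/
theorem res_surj {v : Pr E} {w : Pr M} (hw : Ab v w) (hrel : Ideal.relNorm (𝓞 E) w.asIdeal = v.asIdeal)
    (t : 𝓞 M) : ∃ c : 𝓞 E, t - algebraMap (𝓞 E) (𝓞 M) c ∈ w.asIdeal := by
  have h1 : Ideal.absNorm w.asIdeal = Ideal.absNorm v.asIdeal := by
    rw [← absNorm_rel (E := E), hrel]
  have hlo : w.asIdeal.LiesOver v.asIdeal := hw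
  let φ : (𝓞 E ⧸ v.asIdeal) →+* (𝓞 M ⧸ w.asIdeal) := Ideal.quotientMap w.asIdeal (algebraMap (𝓞 E) (𝓞 M)) (by
    rw [hlo.over])
  have hinj : Function.Injective φ := by
    refine Ideal.quotientMap_injective' ?_
    rw [hlo.over]
  have hv0 : Ideal.absNorm v.asIdeal ≠ 0 := by
    rw [Ne, Ideal.absNorm_eq_zero_iff]; exact v.ne_bot
  have hfv : Finite (𝓞 E ⧸ v.asIdeal) := by
    rw [Ideal.absNorm_apply, Submodule.cardQuot_apply] at hv0
    exact Nat.finite_of_card_ne_zero hv0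
  have hfw : Finite (𝓞 M ⧸ w.asIdeal) := by
    have hw0 : Ideal.absNorm w.asIdeal ≠ 0 := by rw [h1]; exact hv0
    rw [Ideal.absNorm_apply, Submodule.cardQuot_apply] at hw0
    exact Nat.finite_of_card_ne_zero hw0
  have hcard : Nat.card (𝓞 E ⧸ v.asIdeal) = Nat.card (𝓞 M ⧸ w.asIdeal) := by
    have h2 := h1
    rw [Ideal.absNorm_apply, Ideal.absNorm_apply, Submodule.cardQuot_apply, Submodule.cardQuot_apply] at h2
    exact h2.symm
  have hbij : Function.Bijective φ := (Nat.bijective_iff_injective_and_card φ).2 ⟨hinj, hcard⟩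
  obtain ⟨c', hc'⟩ := hbij.2 (Ideal.Quotient.mk w.asIdeal t)
  obtain ⟨c, rfl⟩ := Ideal.Quotient.mk_surjective c'
  refine ⟨c, ?_⟩
  rw [← Ideal.Quotient.eq]
  exact hc'.symm

/-- the automorphism preserves the only prime -/
theorem sig_mem' (σ : M ≃ₐ[E] M) {v : Pr E} (hv : NSp M v) {w : Pr M} (hw : Ab v w) {x y : 𝓞 M}
    (hx : x ∈ w.asIdeal) (hxy : (y : M) = σ (x : M)) : y ∈ w.asIdeal := by
  let φ : 𝓞 M →+* 𝓞 M := RingOfIntegers.mapRingHom (σ : M →+* M)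
  have hφ : ∀ z : 𝓞 M, ((φ z : 𝓞 M) : M) = σ (z : M) := fun z => rfl
  have hφinj : Function.Injective φ := by
    intro a b hab
    apply RingOfIntegers.ext
    apply σ.injective
    rw [← hφ, ← hφ, hab]
  have hφalg : ∀ c : 𝓞 E, φ (algebraMap (𝓞 E) (𝓞 M) c) = algebraMap (𝓞 E) (𝓞 M) c := by
    intro c
    apply RingOfIntegers.ext
    rw [hφ, alg_coe, AlgEquiv.commutes]
  have hP : (w.asIdeal.comap φ).IsPrime := Ideal.comap_isPrime φ w.asIdeal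
  have hP0 : w.asIdeal.comap φ ≠ ⊥ := by
    intro h0
    obtain ⟨c, hc, hc0⟩ := Submodule.exists_mem_ne_zero_of_ne_bot v.ne_bot
    have h1 : algebraMap (𝓞 E) (𝓞 M) c ∈ w.asIdeal.comap φ := by
      rw [Ideal.mem_comap, hφalg, alg_mem hw]
      exact hc
    rw [h0, Ideal.mem_bot] at h1
    exact hc0 (FaithfulSMul.algebraMap_injective (𝓞 E) (𝓞 M) (by rw [h1, map_zero]))
  obtain ⟨w', hw'⟩ : ∃ w' : Pr M, w'.asIdeal = w.asIdeal.comap φ := ⟨⟨_, hP, hP0⟩, rfl⟩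
  have hab : Ab v w' := by
    rw [ab_iff, hw']
    unfold ex
    rw [Ideal.map_le_iff_le_comap]
    intro c hc
    rw [Ideal.mem_comap, Ideal.mem_comap, hφalg, alg_mem hw]
    exact hc
  have hww : w' = w := by
    obtain ⟨u, hu, hu2⟩ := hv
    rw [hu2 w' hab, hu2 w hw]
  have h2 : x ∈ w'.asIdeal := by rw [hww]; exact hx
  rw [hw', Ideal.mem_comap] at h2
  have h3 : y = φ x := by
    apply RingOfIntegers.ext
    rw [hxy, hφ]
  rw [h3]
  exact h2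

/-- a local generator of a cube of an ideal -/
theorem loc_gen (v : Pr E) {a : 𝓞 E} (ha : a ≠ 0) {𝔟 : Ideal (𝓞 E)} (hb : Ideal.span {a} = 𝔟 ^ 3) :
    ∃ (r : 𝓞 E) (c : E), c ≠ 0 ∧ r ∉ v.asIdeal ∧ (r : E) = (a : E) * c ^ 3 := by
  have hb0 : 𝔟 ≠ 0 := by
    rintro rfl
    rw [zero_pow (by norm_num), Ideal.zero_eq_bot, Ideal.span_singleton_eq_bot] at hb
    exact ha hb
  have hlt : 𝔟 * v.asIdeal < 𝔟 := by
    refine lt_of_le_of_ne Ideal.mul_le_left ?_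
    intro h
    have h1 : 𝔟 * v.asIdeal = 𝔟 * 1 := by rw [mul_one]; exact h
    have h2 := mul_left_cancel₀ hb0 h1
    exact v.isPrime.ne_top (by rw [h2, Ideal.one_eq_top])
  obtain ⟨β, hβ, hβv⟩ := SetLike.exists_of_lt hlt
  have hβ0 : β ≠ 0 := by
    rintro rfl
    exact hβv (Ideal.zero_mem _)
  obtain ⟨𝔢, he⟩ : 𝔟 ∣ Ideal.span {β} := by
    rw [Ideal.dvd_iff_le, Ideal.span_singleton_le_iff_mem]
    exact hβ
  have hev : ¬ 𝔢 ≤ v.asIdeal := by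
    intro h
    apply hβv
    rw [← Ideal.span_singleton_le_iff_mem, he]
    exact Ideal.mul_mono_right h
  obtain ⟨γ, hγ, hγv⟩ := SetLike.not_le_iff_exists.1 hev
  have hγ0 : γ ≠ 0 := by
    rintro rfl
    exact hγv (Ideal.zero_mem _)
  have h1 : a * γ ^ 3 ∈ Ideal.span {β ^ 3} := by
    rw [← Ideal.span_singleton_pow, he, mul_pow, ← hb]
    exact Ideal.mul_mem_mul (Ideal.mem_span_singleton_self _) (Ideal.pow_mem_pow hγ 3)
  obtain ⟨r, hr⟩ := Ideal.mem_span_singleton'.1 h1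
  have hβE : (β : E) ≠ 0 := by exact_mod_cast hβ0
  have hγE : (γ : E) ≠ 0 := by exact_mod_cast hγ0
  refine ⟨r, (γ : E) / (β : E), div_ne_zero hγE hβE, ?_, ?_⟩
  · intro hrv
    apply hγv
    -- (γ)^3 = 𝔢^3 (r)
    have h2 : 𝔟 ^ 3 * (Ideal.span {γ ^ 3}) = 𝔟 ^ 3 * (𝔢 ^ 3 * Ideal.span {r}) := by
      rw [← hb, Ideal.span_singleton_mul_span_singleton, ← hr, ← Ideal.span_singleton_mul_span_singleton,
        ← Ideal.span_singleton_pow, he, mul_pow, hb]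
      ring
    have h4 := mul_left_cancel₀ (pow_ne_zero 3 hb0) h2
    have h5 : γ ^ 3 ∈ v.asIdeal := by
      have h6 : γ ^ 3 ∈ 𝔢 ^ 3 * Ideal.span {r} := by
        rw [← h4]
        exact Ideal.mem_span_singleton_self _
      have h7 : 𝔢 ^ 3 * Ideal.span {r} ≤ v.asIdeal :=
        Ideal.mul_le_right.trans ((Ideal.span_singleton_le_iff_mem _).2 hrv)
      exact h7 h6
    exact v.isPrime.mem_of_pow_mem 3 h5
  · have h2 : (r : E) * (β : E) ^ 3 = (a : E) * (γ : E) ^ 3 := by exact_mod_cast congrArg (fun z : 𝓞 E => (z : E)) hr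
    field_simp
    linear_combination h2

theorem one_sub_mem {ω : 𝓞 E} (hω : ω ^ 2 + ω + 1 = 0) {v : Pr E} (h : 1 - ω ∈ v.asIdeal) :
    (3 : 𝓞 E) ∈ v.asIdeal := by
  have h1 : (3 : 𝓞 E) = (1 - ω) * (2 + ω) := by linear_combination hω
  rw [h1]
  exact Ideal.mul_mem_right _ _ h

/-- `v` prime to `3`: an element multiplied by `ω` is not congruent to an element of `E` -/
theorem not_cong {ω : 𝓞 E} (hω : ω ^ 2 + ω + 1 = 0) (σ : M ≃ₐ[E] M) {v : Pr E} (hv3 : (3 : 𝓞 E) ∉ v.asIdeal)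
    (hv : NSp M v) {w : Pr M} (hw : Ab v w) {t : 𝓞 M} (ht : t ∉ w.asIdeal)
    (hσt : σ (t : M) = algebraMap E M (ω : E) * (t : M)) (c : 𝓞 E) :
    t - algebraMap (𝓞 E) (𝓞 M) c ∉ w.asIdeal := by
  intro h
  obtain ⟨y, hy⟩ : ∃ y : 𝓞 M, y = algebraMap (𝓞 E) (𝓞 M) ω * t - algebraMap (𝓞 E) (𝓞 M) c := ⟨_, rfl⟩
  have h1 : y ∈ w.asIdeal := by
    refine sig_mem' σ hv hw h ?_
    have e1 : ((algebraMap (𝓞 E) (𝓞 M) ω * t - algebraMap (𝓞 E) (𝓞 M) c : 𝓞 M) : M) =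
      ((algebraMap (𝓞 E) (𝓞 M) ω : 𝓞 M) : M) * (t : M) - ((algebraMap (𝓞 E) (𝓞 M) c : 𝓞 M) : M) := rfl
    have e2 : ((t - algebraMap (𝓞 E) (𝓞 M) c : 𝓞 M) : M) = (t : M) - ((algebraMap (𝓞 E) (𝓞 M) c : 𝓞 M) : M) := rfl
    rw [hy, e1, e2, map_sub, hσt, alg_coe, alg_coe, AlgEquiv.commutes]
  have h2 : algebraMap (𝓞 E) (𝓞 M) (1 - ω) * t ∈ w.asIdeal := by
    have h4 : algebraMap (𝓞 E) (𝓞 M) (1 - ω) * t = (t - algebraMap (𝓞 E) (𝓞 M) c) - y := by
      rw [hy, map_sub, map_one]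
      ring
    rw [h4]
    exact Ideal.sub_mem _ h h1
  rcases w.isPrime.mem_or_mem h2 with h5 | h5
  · rw [alg_mem hw] at h5
    exact hv3 (one_sub_mem hω h5)
  · exact ht h5

theorem exists_t {a r : 𝓞 E} {c : E} (hc : (r : E) = (a : E) * c ^ 3) {θ : M} (hθ : θ ^ 3 = algebraMap E M (a : E)) :
    ∃ t : 𝓞 M, (t : M) = θ * algebraMap E M c ∧ t ^ 3 = algebraMap (𝓞 E) (𝓞 M) r := by
  have h1 : (θ * algebraMap E M c) ^ 3 = ((algebraMap (𝓞 E) (𝓞 M) r : 𝓞 M) : M) := by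
    rw [mul_pow, hθ, ← map_pow, ← map_mul, ← hc, alg_coe]
  have h2 : IsIntegral ℤ (θ * algebraMap E M c) := by
    apply IsIntegral.of_pow (n := 3) (by norm_num)
    rw [h1]
    exact RingOfIntegers.isIntegral_coe _
  refine ⟨⟨_, h2⟩, rfl, ?_⟩
  apply RingOfIntegers.ext
  rw [← h1]
  rfl

theorem t_not_mem {v : Pr E} {w : Pr M} (hw : Ab v w) {r : 𝓞 E} (hr : r ∉ v.asIdeal) {t : 𝓞 M}
    (ht : t ^ 3 = algebraMap (𝓞 E) (𝓞 M) r) : t ∉ w.asIdeal := by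
  intro h
  have h1 : t ^ 3 ∈ w.asIdeal := Ideal.pow_mem_of_mem _ h 3 (by norm_num)
  rw [ht, alg_mem hw] at h1
  exact hr h1

/-- the Kummer extension is unramified -/
theorem kum_unr (h3 : Module.finrank E M = 3) (σ : M ≃ₐ[E] M) (hσ : σ ≠ 1) {ω : 𝓞 E}
    (hω : ω ^ 2 + ω + 1 = 0) {a : 𝓞 E} (ha : a ≠ 0) {𝔟 : Ideal (𝓞 E)} (hb : Ideal.span {a} = 𝔟 ^ 3)
    {g h : 𝓞 E} (hg : a = g ^ 3 + 27 * h) (hg3 : ∀ v : Pr E, (3 : 𝓞 E) ∈ v.asIdeal → g ∉ v.asIdeal)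
    {θ : M} (hθ : θ ^ 3 = algebraMap E M (a : E)) (hσθ : σ θ = algebraMap E M (ω : E) * θ) :
    UnrAll E M := by
  intro v w hw x
  refine unr_of h3 σ hσ v ?_ w hw x
  intro hns w hw hrel
  by_cases hv3 : (3 : 𝓞 E) ∈ v.asIdeal
  · -- the element `ξ`
    have hω' : (ω : E) ^ 2 + (ω : E) + 1 = 0 := by exact_mod_cast congrArg (fun z : 𝓞 E => (z : E)) hω
    obtain ⟨W, hW⟩ : ∃ W : M, W = algebraMap E M (ω : E) := ⟨_, rfl⟩
    obtain ⟨G, hG⟩ : ∃ G : M, G = algebraMap E M (g : E) := ⟨_, rfl⟩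
    obtain ⟨H, hH⟩ : ∃ H : M, H = algebraMap E M (h : E) := ⟨_, rfl⟩
    have hW2 : W ^ 2 + W + 1 = 0 := by
      rw [hW, ← map_pow, ← map_add, ← map_one (algebraMap E M), ← map_add, hω', map_zero]
    have hA : θ ^ 3 = G ^ 3 + 27 * H := by
      have e0 : ((g ^ 3 + 27 * h : 𝓞 E) : E) = (g : E) ^ 3 + 27 * (h : E) := by
        have e1 : ((g ^ 3 + 27 * h : 𝓞 E) : E) = (g : E) ^ 3 + ((27 : 𝓞 E) : E) * (h : E) := rfl
        rw [e1]
        rfl
      rw [hθ, hg, hG, hH, e0, map_add, map_pow, map_mul, map_ofNat]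
    have hL : (1 - W) ≠ 0 := by
      intro h0
      have h1 : W = 1 := by linear_combination (-1 : M) * h0
      rw [h1] at hW2
      norm_num at hW2
    obtain ⟨ξ, hξ⟩ : ∃ ξ : M, ξ = (θ - G) / (1 - W) := ⟨_, rfl⟩
    have hθξ : θ = G + (1 - W) * ξ := by
      rw [hξ, mul_div_cancel₀ _ hL]
      ring
    have heq : ξ ^ 3 + (1 - W ^ 2) * G * ξ ^ 2 - W ^ 2 * G ^ 2 * ξ - (1 - W ^ 2) ^ 3 * H = 0 := by
      have h1 : (1 - W) ^ 3 * (ξ ^ 3 + (1 - W ^ 2) * G * ξ ^ 2 - W ^ 2 * G ^ 2 * ξ - (1 - W ^ 2) ^ 3 * H) = 0 := by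
        rw [hθξ] at hA
        have f1 : (1 - W) * (1 - W ^ 2) = 3 := by linear_combination (W - 2) * hW2
        have f2 : (1 - W) ^ 2 * W ^ 2 = -3 := by linear_combination (W ^ 2 - 3 * W + 3) * hW2
        linear_combination hA + ((1 - W) ^ 2 * G * ξ ^ 2 -
          H * (((1 - W) * (1 - W ^ 2)) ^ 2 + 3 * ((1 - W) * (1 - W ^ 2)) + 9)) * f1 - (1 - W) * G ^ 2 * ξ * f2
      exact (mul_eq_zero.1 h1).resolve_left (pow_ne_zero 3 hL)
    -- integrality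
    have hωM : W = ((algebraMap (𝓞 E) (𝓞 M) ω : 𝓞 M) : M) := by rw [hW, alg_coe]
    have hgM : G = ((algebraMap (𝓞 E) (𝓞 M) g : 𝓞 M) : M) := by rw [hG, alg_coe]
    have hhM : H = ((algebraMap (𝓞 E) (𝓞 M) h : 𝓞 M) : M) := by rw [hH, alg_coe]
    obtain ⟨W', hW'⟩ : ∃ W' : 𝓞 M, (W' : M) = W := ⟨_, hωM.symm⟩
    obtain ⟨G', hG'⟩ : ∃ G' : 𝓞 M, (G' : M) = G := ⟨_, hgM.symm⟩
    obtain ⟨H', hH'⟩ : ∃ H' : 𝓞 M, (H' : M) = H := ⟨_, hhM.symm⟩
    have hint : IsIntegral (𝓞 M) ξ := by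
      obtain ⟨A1, hA1⟩ : ∃ A1 : 𝓞 M, A1 = (1 - W' ^ 2) * G' := ⟨_, rfl⟩
      obtain ⟨A2, hA2⟩ : ∃ A2 : 𝓞 M, A2 = W' ^ 2 * G' ^ 2 := ⟨_, rfl⟩
      obtain ⟨A3, hA3⟩ : ∃ A3 : 𝓞 M, A3 = (1 - W' ^ 2) ^ 3 * H' := ⟨_, rfl⟩
      have k1 : algebraMap (𝓞 M) M A1 = (1 - W ^ 2) * G := by rw [hA1, ← hW', ← hG']; rfl
      have k2 : algebraMap (𝓞 M) M A2 = W ^ 2 * G ^ 2 := by rw [hA2, ← hW', ← hG']; rfl
      have k3 : algebraMap (𝓞 M) M A3 = (1 - W ^ 2) ^ 3 * H := by rw [hA3, ← hW', ← hH']; rfl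
      refine ⟨Polynomial.X ^ 3 + Polynomial.C A1 * Polynomial.X ^ 2 -
        Polynomial.C A2 * Polynomial.X - Polynomial.C A3, by monicity!, ?_⟩
      rw [Polynomial.eval₂_sub, Polynomial.eval₂_sub, Polynomial.eval₂_add, Polynomial.eval₂_mul,
        Polynomial.eval₂_mul, Polynomial.eval₂_pow, Polynomial.eval₂_pow, Polynomial.eval₂_X,
        Polynomial.eval₂_C, Polynomial.eval₂_C, Polynomial.eval₂_C, k1, k2, k3, heq]
    have hintZ : IsIntegral ℤ ξ := isIntegral_trans (R := ℤ) (A := 𝓞 M) ξ hint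
    obtain ⟨x, hx⟩ : ∃ x : 𝓞 M, (x : M) = ξ := ⟨⟨ξ, hintZ⟩, rfl⟩
    have hθint : IsIntegral ℤ θ := by
      apply IsIntegral.of_pow (n := 3) (by norm_num)
      rw [hθ, ← alg_coe]
      exact RingOfIntegers.isIntegral_coe _
    obtain ⟨t, ht⟩ : ∃ t : 𝓞 M, (t : M) = θ := ⟨⟨θ, hθint⟩, rfl⟩
    have ht3 : t ^ 3 = algebraMap (𝓞 E) (𝓞 M) a := by
      apply RingOfIntegers.ext
      rw [alg_coe, ← hθ, ← ht]
      rfl
    obtain ⟨c, hc⟩ := res_surj hw hrel x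
    have hσξ : σ ξ = ξ - θ := by
      rw [hξ, map_div₀, map_sub, map_sub, map_one, hσθ, hG, hW, AlgEquiv.commutes, AlgEquiv.commutes, ← hG, ← hW]
      field_simp
      ring
    have h5 : x - t - algebraMap (𝓞 E) (𝓞 M) c ∈ w.asIdeal := by
      refine sig_mem' σ hns hw hc ?_
      have e1 : ((x - t - algebraMap (𝓞 E) (𝓞 M) c : 𝓞 M) : M) =
        (x : M) - (t : M) - ((algebraMap (𝓞 E) (𝓞 M) c : 𝓞 M) : M) := rfl
      have e2 : ((x - algebraMap (𝓞 E) (𝓞 M) c : 𝓞 M) : M) = (x : M) - ((algebraMap (𝓞 E) (𝓞 M) c : 𝓞 M) : M) := rfl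
      rw [e1, e2, map_sub, hx, hσξ, ht, alg_coe, AlgEquiv.commutes]
    have h6 : t ∈ w.asIdeal := by
      have h7 := Ideal.sub_mem _ hc h5
      have h8 : x - algebraMap (𝓞 E) (𝓞 M) c - (x - t - algebraMap (𝓞 E) (𝓞 M) c) = t := by ring
      rwa [h8] at h7
    have h7 : t ^ 3 ∈ w.asIdeal := Ideal.pow_mem_of_mem _ h6 3 (by norm_num)
    rw [ht3, alg_mem hw, hg] at h7
    have h8 : (27 : 𝓞 E) * h ∈ v.asIdeal := by
      have : (27 : 𝓞 E) * h = 3 * (9 * h) := by ring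
      rw [this]
      exact Ideal.mul_mem_right _ _ hv3
    have h9 : g ^ 3 ∈ v.asIdeal := (Ideal.add_mem_iff_left _ h8).1 h7
    exact hg3 v hv3 (v.isPrime.mem_of_pow_mem 3 h9)
  · obtain ⟨r, c, hc0, hrv, hrc⟩ := loc_gen v ha hb
    obtain ⟨t, ht1, ht3⟩ := exists_t hrc hθ
    have htw := t_not_mem hw hrv ht3
    obtain ⟨c', hc'⟩ := res_surj hw hrel t
    refine not_cong hω σ hv3 hns hw htw ?_ c' hc'
    rw [ht1, map_mul, hσθ, AlgEquiv.commutes]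
    ring

end Pool.Agent.K1H79.RF
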