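import Pool.Agent.K1H79.RF.Spl

/-! # Existence of the Kummer extension, and the class character attached to a good element -/

set_option autoImplicit false

namespace Pool.Agent.K1H79.RF

open NumberField IsDedekindDomain Ideal CohNT Polynomial
open scoped Classical nonZeroDivisors

variable {E : Type} [Field E] [NumberField E]

theorem exists_kum {ω : E} (hω : ω ^ 2 + ω + 1 = 0) {a : E} (ha : ∀ b : E, b ^ 3 ≠ a) :
    ∃ (M : Type) (_ : Field M) (_ : NumberField M) (_ : Algebra E M), Module.finrank E M = 3 ∧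
      ∃ (σ : M ≃ₐ[E] M) (θ : M), σ ≠ 1 ∧ θ ^ 3 = algebraMap E M a ∧ σ θ = algebraMap E M ω * θ := by
  have hirr : Irreducible (X ^ 3 - C a : E[X]) := X_pow_sub_C_irreducible_of_prime Nat.prime_three ha
  have hf : Fact (Irreducible (X ^ 3 - C a : E[X])) := ⟨hirr⟩
  have hne : (X ^ 3 - C a : E[X]) ≠ 0 := hirr.ne_zero
  have hfr : Module.finrank E (AdjoinRoot (X ^ 3 - C a : E[X])) = 3 := by
    rw [(AdjoinRoot.powerBasis hne).finrank, AdjoinRoot.powerBasis_dim, natDegree_X_pow_sub_C]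
  have hfd : FiniteDimensional E (AdjoinRoot (X ^ 3 - C a : E[X])) := Module.finite_of_finrank_pos (by omega)
  have hcz : CharZero (AdjoinRoot (X ^ 3 - C a : E[X])) := charZero_of_injective_algebraMap
    (algebraMap E (AdjoinRoot (X ^ 3 - C a : E[X]))).injective
  have hfd2 : FiniteDimensional ℚ (AdjoinRoot (X ^ 3 - C a : E[X])) :=
    Module.Finite.trans (R := ℚ) E (AdjoinRoot (X ^ 3 - C a : E[X]))
  have hnf : NumberField (AdjoinRoot (X ^ 3 - C a : E[X])) := ⟨⟩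
  have hω3 : ω ^ 3 = 1 := by linear_combination (ω - 1) * hω
  have hω1 : ω ≠ 1 := by
    rintro rfl
    norm_num at hω
  have hω0 : ω ≠ 0 := by
    rintro rfl
    norm_num at hω
  have hroot : (AdjoinRoot.root (X ^ 3 - C a : E[X])) ^ 3 = algebraMap E _ a := by
    have h1 := AdjoinRoot.eval₂_root (X ^ 3 - C a : E[X])
    rw [eval₂_sub, eval₂_pow, eval₂_X, eval₂_C, sub_eq_zero] at h1
    exact h1
  let η : rootsOfUnity 3 E := ⟨Units.mk0 ω hω0, by
    rw [mem_rootsOfUnity]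
    ext
    simpa using hω3⟩
  refine ⟨AdjoinRoot (X ^ 3 - C a : E[X]), inferInstance, hnf, inferInstance, hfr,
    autAdjoinRootXPowSubC 3 a η, AdjoinRoot.root _, ?_, hroot, ?_⟩
  · intro h
    have h1 := autAdjoinRootXPowSubC_root (n := 3) (a := a) η
    rw [h, AlgEquiv.one_apply, Algebra.smul_def] at h1
    have h2 : AdjoinRoot.root (X ^ 3 - C a : E[X]) ≠ 0 := by
      intro h0
      rw [h0, zero_pow (by norm_num)] at hroot
      have h3 : a = 0 := (algebraMap E (AdjoinRoot (X ^ 3 - C a : E[X]))).injective (by rw [← hroot, map_zero])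
      exact ha 0 (by rw [h3]; norm_num)
    have h4 : algebraMap E (AdjoinRoot (X ^ 3 - C a : E[X])) ω = 1 := by
      apply mul_right_cancel₀ h2
      rw [one_mul]
      exact h1.symm
    exact hω1 ((algebraMap E (AdjoinRoot (X ^ 3 - C a : E[X]))).injective (by rw [h4, map_one]))
  · have h1 := autAdjoinRootXPowSubC_root (n := 3) (a := a) η
    rw [h1, Algebra.smul_def]
    rfl

theorem prim3 {ω : E} (hω : ω ^ 2 + ω + 1 = 0) : IsPrimitiveRoot ω 3 := by
  have hω3 : ω ^ 3 = 1 := by linear_combination (ω - 1) * hω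
  have hω1 : ω ≠ 1 := by
    rintro rfl
    norm_num at hω
  have h1 : orderOf ω = 3 := orderOf_eq_prime hω3 hω1
  rw [← h1]
  exact IsPrimitiveRoot.orderOf ω

/-- elements which are cubes of ideals and congruent to a cube modulo `27` -/
def Gd (a : 𝓞 E) : Prop := IC a ∧ ∃ g h : 𝓞 E, a = g ^ 3 + 27 * h ∧ ∀ v : Pr E, (3 : 𝓞 E) ∈ v.asIdeal → g ∉ v.asIdeal

theorem Gd.mul {a b : 𝓞 E} (ha : Gd a) (hb : Gd b) : Gd (a * b) := by
  obtain ⟨ha1, g, h, hgh, hg⟩ := ha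
  obtain ⟨hb1, g', h', hgh', hg'⟩ := hb
  refine ⟨ha1.mul hb1, g * g', g ^ 3 * h' + g' ^ 3 * h + 27 * h * h', ?_, ?_⟩
  · rw [hgh, hgh']
    ring
  · intro v hv h1
    rcases v.isPrime.mem_or_mem h1 with h2 | h2
    · exact hg v hv h2
    · exact hg' v hv h2

/-- the primes of the set attached to `a` -/
def Qa (a : 𝓞 E) (v : Pr E) : Prop := (3 : 𝓞 E) ∉ v.asIdeal ∧ Cu a v

/-- **the class character attached to a good element** -/
theorem exists_char {ω : 𝓞 E} (hω : ω ^ 2 + ω + 1 = 0) {a : 𝓞 E} (ha : Gd a)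
    (hnc : ∀ b : E, b ^ 3 ≠ (a : E)) :
    ∃ Ψ : ClassGroup (𝓞 E) →* Multiplicative (ZMod 3), Ψ ≠ 1 ∧
      ∀ v : Pr E, Qa a v → Ψ (ClassGroup.mk0 (pI v)) = 1 := by
  have hω' : (ω : E) ^ 2 + (ω : E) + 1 = 0 := by exact_mod_cast congrArg (fun z : 𝓞 E => (z : E)) hω
  obtain ⟨M, _, _, _, h3, σ, θ, hσ, hθ, hσθ⟩ := exists_kum hω' hnc
  obtain ⟨⟨ha0, 𝔟, hb⟩, g, h, hgh, hg⟩ := ha
  have hun := kum_unr h3 σ hσ hω ha0 hb hgh hg hθ hσθ
  obtain ⟨Ψ, hΨ1, hΨ2⟩ := exists_psi (M := M) h3 σ hσ (prim3 hω') hun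
  exact ⟨Ψ, hΨ1, fun v hv => hΨ2 v (split_of hω σ hv.1 hθ hσθ hv.2)⟩

end Pool.Agent.K1H79.RF
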