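import Pool.Agent.K1H79.RF.SmA

/-! # The class characters attached to the elements of `L` vanish on the classes from `L` -/

set_option autoImplicit false

namespace Pool.Agent.K1H79.RF

open NumberField IsDedekindDomain Ideal CohNT
open scoped Classical nonZeroDivisors

section quad

variable {L K : Type} [Field L] [NumberField L] [Field K] [NumberField K] [Algebra L K]

/-- the conjugation -/
theorem exists_tau (h2 : Module.finrank L K = 2) {ω : K} (hω : ω ^ 2 + ω + 1 = 0)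
    (hL : ∀ z : L, z ^ 2 + z + 1 ≠ 0) : ∃ τ : K ≃ₐ[L] K, τ ω = ω ^ 2 := by
  have hq : Algebra.IsQuadraticExtension L K := ⟨h2⟩
  have hg : IsGalois L K := Algebra.IsQuadraticExtension.isGalois L K
  have hfd : FiniteDimensional L K := Module.finite_of_finrank_pos (by omega)
  by_contra hcon
  push Not at hcon
  have hfix : ∀ τ : K ≃ₐ[L] K, τ ω = ω := by
    intro τ
    have h1 : (τ ω) ^ 2 + τ ω + 1 = 0 := by
      rw [← map_pow, ← map_add, ← map_one τ, ← map_add, hω, map_zero]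
    have h3 : (τ ω - ω) * (τ ω - ω ^ 2) = 0 := by
      linear_combination h1 - τ ω * hω + (ω - 1) * hω
    rcases mul_eq_zero.1 h3 with h4 | h4
    · exact sub_eq_zero.1 h4
    · exact absurd (sub_eq_zero.1 h4) (hcon τ)
  obtain ⟨z, hz⟩ := (IsGalois.mem_bot_iff_fixed ω).2 (fun τ => hfix τ)
  apply hL z
  apply (algebraMap L K).injective
  rw [map_add, map_add, map_pow, map_one, map_zero]
  have hz' : algebraMap L K z = ω := hz
  rw [hz', hω]

end quad

section cubes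

variable {F : Type} [Field F] [NumberField F]

theorem cube_or (v : Pr F) : (∀ x : 𝓞 F, ∃ z : 𝓞 F, x - z ^ 3 ∈ v.asIdeal) ∨
    (∃ u : 𝓞 F, u ^ 2 + u + 1 ∈ v.asIdeal) := by
  have hm : v.asIdeal.IsMaximal := v.isMaximal
  let _ : Field (𝓞 F ⧸ v.asIdeal) := Ideal.Quotient.field _
  have := res_fin v
  by_cases hinj : Function.Injective (fun x : 𝓞 F ⧸ v.asIdeal => x ^ 3)
  · left
    have hsur := Finite.surjective_of_injective hinj
    intro x
    obtain ⟨y, hy⟩ := hsur (Ideal.Quotient.mk v.asIdeal x)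
    obtain ⟨z, hz⟩ := Ideal.Quotient.mk_surjective y
    refine ⟨z, ?_⟩
    rw [← Ideal.Quotient.eq, map_pow, hz]
    exact hy.symm
  · right
    unfold Function.Injective at hinj
    push Not at hinj
    obtain ⟨x, y, hxy, hne⟩ := hinj
    have hxy' : x ^ 3 = y ^ 3 := hxy
    have hy : y ≠ 0 := by
      rintro rfl
      rw [zero_pow (by norm_num)] at hxy'
      exact hne (pow_eq_zero_iff (by norm_num) |>.1 hxy')
    obtain ⟨u, hu⟩ := Ideal.Quotient.mk_surjective (x / y)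
    refine ⟨u, ?_⟩
    rw [← Ideal.Quotient.eq_zero_iff_mem, map_add, map_add, map_pow, map_one, hu]
    have h1 : (x / y - 1) * ((x / y) ^ 2 + x / y + 1) = 0 := by
      have h2 : (x / y) ^ 3 = 1 := by rw [div_pow, hxy', div_self (pow_ne_zero 3 hy)]
      linear_combination h2
    rcases mul_eq_zero.1 h1 with h3 | h3
    · exfalso
      apply hne
      have h4 : x / y = 1 := sub_eq_zero.1 h3
      rwa [div_eq_one_iff_eq hy] at h4
    · exact h3

end cubes

section minus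

variable {L K : Type} [Field L] [NumberField L] [Field K] [NumberField K] [Algebra L K]

theorem nsp_cube (h2 : Module.finrank L K = 2) {ω : 𝓞 K} (hω : ω ^ 2 + ω + 1 = 0)
    (hL : ∀ z : L, z ^ 2 + z + 1 ≠ 0) {v : Pr L} (hv : NSp K v) (h3 : (3 : 𝓞 L) ∉ v.asIdeal) (x : 𝓞 L) :
    ∃ z : 𝓞 L, x - z ^ 3 ∈ v.asIdeal := by
  rcases cube_or v with h | ⟨u, hu⟩
  · exact h x
  · exfalso
    have hω' : (ω : K) ^ 2 + (ω : K) + 1 = 0 := by exact_mod_cast congrArg (fun z : 𝓞 K => (z : K)) hω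
    obtain ⟨τ, hτ⟩ := exists_tau h2 hω' hL
    obtain ⟨w, hw⟩ := (above_api (M := K) v).1
    obtain ⟨U, hU⟩ : ∃ U : 𝓞 K, U = algebraMap (𝓞 L) (𝓞 K) u := ⟨_, rfl⟩
    have h4 : (U - ω) * (U - ω ^ 2) ∈ w.asIdeal := by
      have h5 : (U - ω) * (U - ω ^ 2) = algebraMap (𝓞 L) (𝓞 K) (u ^ 2 + u + 1) := by
        rw [map_add, map_add, map_pow, map_one, ← hU]
        linear_combination (ω - 1 - U) * hω
      rw [h5, alg_mem hw]
      exact hu
    have hτU : τ (U : K) = (U : K) := by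
      rw [hU, alg_coe, AlgEquiv.commutes]
    have hτ2 : τ ((ω : K) ^ 2) = (ω : K) := by
      rw [map_pow, hτ]
      linear_combination ((ω : K) ^ 2 - (ω : K)) * hω'
    have h6 : U - ω ∈ w.asIdeal ∧ U - ω ^ 2 ∈ w.asIdeal := by
      rcases w.isPrime.mem_or_mem h4 with h5 | h5
      · refine ⟨h5, sig_mem' τ hv hw h5 ?_⟩
        have e1 : ((U - ω ^ 2 : 𝓞 K) : K) = (U : K) - (ω : K) ^ 2 := rfl
        have e2 : ((U - ω : 𝓞 K) : K) = (U : K) - (ω : K) := rfl
        rw [e1, e2, map_sub, hτU, hτ]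
      · refine ⟨sig_mem' τ hv hw h5 ?_, h5⟩
        have e1 : ((U - ω ^ 2 : 𝓞 K) : K) = (U : K) - (ω : K) ^ 2 := rfl
        have e2 : ((U - ω : 𝓞 K) : K) = (U : K) - (ω : K) := rfl
        rw [e1, e2, map_sub, hτU, hτ2]
    have h7 : 1 - ω ∈ w.asIdeal := by
      have h8 := Ideal.mul_mem_left w.asIdeal (ω ^ 2) (Ideal.sub_mem _ h6.2 h6.1)
      have h9 : ω ^ 2 * (U - ω ^ 2 - (U - ω)) = 1 - ω := by
        linear_combination (-ω ^ 2 + 2 * ω - 1) * hω
      rwa [h9] at h8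
    have h10 := one_sub_mem hω h7
    apply h3
    rw [← alg_mem hw]
    have : algebraMap (𝓞 L) (𝓞 K) 3 = 3 := map_ofNat _ 3
    rw [this]
    exact h10

theorem ext_one {Ψ : ClassGroup (𝓞 K) →* Multiplicative (ZMod 3)} {v : Pr L}
    (h : ∀ w : Pr K, Ab v w → Ψ (ClassGroup.mk0 (pI w)) = 1) :
    Ψ (ClassGroup.extendedHom (𝓞 L) (𝓞 K) (ClassGroup.mk0 (pI v))) = 1 := by
  rw [ClassGroup.extendedHom_mk0]
  have h1 : ClassGroup.extendedIdeal (𝓞 L) (𝓞 K) (pI v) =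
      ∏ w ∈ (ab_fin (M := K) v).toFinset, pI w ^ cn w (ex K v.asIdeal) := by
    apply Subtype.ext
    rw [Submonoid.coe_finsetProd]
    have h2 := ex_eq_prod' (M := K) v
    refine h2.trans (Finset.prod_congr rfl fun w _ => ?_)
    rfl
  rw [h1, map_prod, map_prod]
  refine Finset.prod_eq_one fun w hw => ?_
  rw [Set.Finite.mem_toFinset] at hw
  rw [map_pow, map_pow, h w hw, one_pow]

theorem minus (hA1 : S_A1) (hA2 : S_A2) (hA4 : S_A4) (h2 : Module.finrank L K = 2) {ω : 𝓞 K}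
    (hω : ω ^ 2 + ω + 1 = 0) (hL : ∀ z : L, z ^ 2 + z + 1 ≠ 0) {a : 𝓞 L} (ha : IC a)
    {Ψ : ClassGroup (𝓞 K) →* Multiplicative (ZMod 3)}
    (hΨ : ∀ w : Pr K, Qa (algebraMap (𝓞 L) (𝓞 K) a) w → Ψ (ClassGroup.mk0 (pI w)) = 1)
    (C : ClassGroup (𝓞 L)) : Ψ (ClassGroup.extendedHom (𝓞 L) (𝓞 K) C) = 1 := by
  obtain ⟨Φ, hΦ⟩ : ∃ Φ : ClassGroup (𝓞 L) →* Multiplicative (ZMod 3), Φ = Ψ.comp (ClassGroup.extendedHom (𝓞 L) (𝓞 K)) :=
    ⟨_, rfl⟩
  suffices hone : Φ = 1 by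
    have := DFunLike.congr_fun hone C
    rw [hΦ] at this
    exact this
  by_contra hne
  obtain ⟨C1, hC1⟩ := hA2 L Φ hne
  obtain ⟨C2, hC2⟩ := hA4 hA1 L K h2
  obtain ⟨C3, hC3⟩ := sm_fin (fin3 (F := L))
  have key : ∀ v : Pr L, NSp K v → (3 : 𝓞 L) ∉ v.asIdeal → Φ (ClassGroup.mk0 (pI v)) = 1 := by
    intro v hv hv3
    rw [hΦ, MonoidHom.comp_apply]
    apply ext_one
    intro w hw
    apply hΨ
    refine ⟨?_, ?_⟩
    · have : algebraMap (𝓞 L) (𝓞 K) 3 = 3 := map_ofNat _ 3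
      rw [← this, alg_mem hw]
      exact hv3
    · obtain ⟨ha0, 𝔟, hb⟩ := ha
      obtain ⟨r, c, hc0, hrv, hrc⟩ := loc_gen v ha0 hb
      obtain ⟨z, hz⟩ := nsp_cube h2 hω hL hv hv3 r
      refine ⟨algebraMap (𝓞 L) (𝓞 K) r, algebraMap L K c, ?_, ?_, ?_, algebraMap (𝓞 L) (𝓞 K) z, ?_⟩
      · intro h0
        exact hc0 ((algebraMap L K).injective (by rw [h0, map_zero]))
      · rw [alg_mem hw]
        exact hrv
      · rw [alg_coe, alg_coe, hrc, map_mul, map_pow]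
      · rw [← map_pow, ← map_sub, alg_mem hw]
        exact hz
  refine no_bound (C := 2 * (C1 + (3 / 2) * C2 + 3 * C3)) fun s hs hs2 => ?_
  have k1 := hC1 s hs hs2
  have k2 := hC2 s hs hs2
  have k3 := hC3 s hs
  have k4 : Sm L (fun v => NSp K v) s ≤ Sm L (fun v => Φ (ClassGroup.mk0 (pI v)) = 1) s +
      Sm L (fun v => (3 : 𝓞 L) ∈ v.asIdeal) s := by
    refine hasSum_le (fun v => ?_) (sm_hasSum _ hs) ((sm_hasSum _ hs).add (sm_hasSum _ hs))
    have h0 := nv_nonneg v s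
    by_cases hv : (3 : 𝓞 L) ∈ v.asIdeal
    · rw [if_pos hv]
      split_ifs <;> linarith
    · rw [if_neg hv]
      by_cases hn : NSp K v
      · rw [if_pos hn, if_pos (key v hn hv)]
        linarith
      · rw [if_neg hn]
        split_ifs <;> linarith
  linarith

end minus

end Pool.Agent.K1H79.RF
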