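import Pool.Agent.K1H79.QR.Ev

/-! # The packing and counting inequalities with a restriction on the cofactors -/

set_option autoImplicit false

namespace Pool.Agent.K1H79.RF

open NumberField Finset Pool.Agent.TH847.LS Pool.Agent.TH847.LG NumberField.InfinitePlace
open scoped Classical nonZeroDivisors NNReal ENNReal

variable {K : Type} [Field K] [NumberField K]

/-- the packing inequality with a restriction on the cofactors (after `Pool.Agent.TH847.LG.pack`) -/
theorem packM {n : ℕ} (hn : Module.finrank ℚ K = n) (N : ℕ)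
    (hN : 2 ^ n * √|(discr K : ℝ)| < N) (ι : Type) [Fintype ι] (B : ι → (Ideal (𝓞 K))⁰)
    (hB : ∀ i j : ι, ∀ a b : 𝓞 K, a ≠ 0 → b ≠ 0 →
      Ideal.span {a} * (B j : Ideal (𝓞 K)) = Ideal.span {b} * (B i : Ideal (𝓞 K)) →
      (∀ w : InfinitePlace K, |Lw w (a : K) - Lw w (b : K)| < 1) → i = j)
    (Q : Ideal (𝓞 K) → Prop)
    (hQ : ∀ i : ι, ∀ (a : 𝓞 K) (J : Ideal (𝓞 K)), a ≠ 0 → Ideal.span {a} = (B i : Ideal (𝓞 K)) * J →
      (∀ w : InfinitePlace K, w (a : K) ^ n < N * Ideal.absNorm (B i : Ideal (𝓞 K))) → Q J) :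
    (Fintype.card ι : ℝ) ≤
      ∑ J ∈ (FI K N).filter Q, (1 + Real.log ((N : ℝ) / Ideal.absNorm J)) ^ n := by
  have hn0 : n ≠ 0 := by rw [← hn]; exact (Module.finrank_pos (R := ℚ) (M := K)).ne'
  have hnr : (0 : ℝ) < n := by exact_mod_cast Nat.pos_of_ne_zero hn0
  have hN0 : (0 : ℝ) < N := lt_of_le_of_lt (by positivity) hN
  choose a ha ha0 haw using fun i => mink hn (B i) N hN
  have haK : ∀ i, ((a i : 𝓞 K) : K) ≠ 0 := fun i => by exact_mod_cast ha0 i
  have hdvd : ∀ i, ∃ J : Ideal (𝓞 K), Ideal.span {a i} = (B i : Ideal (𝓞 K)) * J := by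
    intro i
    have : (B i : Ideal (𝓞 K)) ∣ Ideal.span {a i} := by
      rw [Ideal.dvd_iff_le, Ideal.span_le, Set.singleton_subset_iff]
      exact ha i
    exact this
  choose J hJ using hdvd
  have hNB : ∀ i, (0 : ℝ) < Ideal.absNorm (B i : Ideal (𝓞 K)) := fun i => by
    exact_mod_cast absNorm_pos (nonZeroDivisors.coe_ne_zero (B i))
  have hJ0 : ∀ i, J i ≠ ⊥ := by
    intro i h
    have := hJ i
    rw [h, Ideal.mul_bot, Ideal.span_singleton_eq_bot] at this
    exact ha0 i this
  have hNJ : ∀ i, (0 : ℝ) < Ideal.absNorm (J i) := fun i => by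
    exact_mod_cast absNorm_pos (hJ0 i)
  have hnorm : ∀ i, |((Algebra.norm ℚ ((a i : 𝓞 K) : K) : ℚ) : ℝ)| =
      Ideal.absNorm (B i : Ideal (𝓞 K)) * Ideal.absNorm (J i) := by
    intro i
    have h1 : (Algebra.norm ℤ (a i)).natAbs =
        Ideal.absNorm (B i : Ideal (𝓞 K)) * Ideal.absNorm (J i) := by
      rw [← Ideal.absNorm_span_singleton, hJ i, map_mul]
    rw [← Algebra.coe_norm_int]
    have h2 : |(((Algebra.norm ℤ (a i) : ℤ) : ℚ) : ℝ)| =
        (((Algebra.norm ℤ (a i)).natAbs : ℕ) : ℝ) := by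
      rw [Nat.cast_natAbs]
      push_cast
      rfl
    rw [h2, h1]
    push_cast
    rfl
  -- the coordinates
  set u : ι → InfinitePlace K → ℝ := fun i w =>
    Real.log (N * Ideal.absNorm (B i : Ideal (𝓞 K))) / n - Real.log (w ((a i : 𝓞 K) : K)) with hu
  have hu0 : ∀ i w, 0 < u i w := by
    intro i w
    have h1 := haw i w
    have h2 := Real.log_lt_log (pow_pos (w_pos w (haK i)) n) h1
    rw [Real.log_pow] at h2
    simp only [hu]
    rw [sub_pos, lt_div_iff₀ hnr]
    linarith
  have husum : ∀ i, ∑ w : InfinitePlace K, (mult w : ℝ) * u i w =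
      Real.log ((N : ℝ) / Ideal.absNorm (J i)) := by
    intro i
    have h1 := log_norm (haK i)
    rw [hnorm i, Real.log_mul (hNB i).ne' (hNJ i).ne'] at h1
    have h2 : ∑ w : InfinitePlace K, (mult w : ℝ) * u i w =
        (∑ w : InfinitePlace K, (mult w : ℝ)) *
          (Real.log (N * Ideal.absNorm (B i : Ideal (𝓞 K))) / n) -
        ∑ w : InfinitePlace K, (mult w : ℝ) * Real.log (w ((a i : 𝓞 K) : K)) := by
      rw [Finset.sum_mul, ← Finset.sum_sub_distrib]
      refine Finset.sum_congr rfl fun w _ => ?_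
      simp only [hu]
      ring
    have h3 : (∑ w : InfinitePlace K, (mult w : ℝ)) = n := by
      have := InfinitePlace.sum_mult_eq (K := K)
      rw [hn] at this
      exact_mod_cast this
    rw [h2, h3, ← h1, Real.log_mul hN0.ne' (hNB i).ne', Real.log_div hN0.ne' (hNJ i).ne']
    field_simp
    ring
  have hule : ∀ i w, u i w ≤ Real.log ((N : ℝ) / Ideal.absNorm (J i)) := by
    intro i w
    rw [← husum i]
    have h1 : u i w ≤ (mult w : ℝ) * u i w := by
      have : (1 : ℝ) ≤ mult w := by exact_mod_cast InfinitePlace.one_le_mult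
      nlinarith [hu0 i w]
    refine h1.trans ?_
    exact Finset.single_le_sum (f := fun w : InfinitePlace K => (mult w : ℝ) * u i w)
      (fun w _ => mul_nonneg (Nat.cast_nonneg _) (hu0 i w).le) (Finset.mem_univ w)
  have hlog0 : ∀ i, 0 ≤ Real.log ((N : ℝ) / Ideal.absNorm (J i)) := by
    intro i
    rw [← husum i]
    exact Finset.sum_nonneg fun w _ => mul_nonneg (Nat.cast_nonneg _) (hu0 i w).le
  have hJN : ∀ i, J i ∈ (FI K N).filter Q := by
    intro i
    rw [Finset.mem_filter, mem_FI]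
    refine ⟨⟨?_, hJ0 i⟩, hQ i (a i) (J i) (ha0 i) (hJ i) (haw i)⟩
    have h1 : 1 ≤ (N : ℝ) / Ideal.absNorm (J i) := by
      by_contra hcon
      push Not at hcon
      have := Real.log_neg (by have := hNJ i; positivity) hcon
      linarith [hlog0 i]
    rw [le_div_iff₀ (hNJ i), one_mul] at h1
    exact_mod_cast h1
  have hLw : ∀ i w, Lw w ((a i : 𝓞 K) : K) =
      (Real.log N - Real.log (Ideal.absNorm (J i))) / n - u i w := by
    intro i w
    unfold Lw
    rw [hnorm i, hn, Real.log_mul (hNB i).ne' (hNJ i).ne']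
    simp only [hu]
    rw [Real.log_mul hN0.ne' (hNB i).ne']
    ring
  -- injectivity
  have hinj : ∀ i j : ι, J i = J j → (∀ w, ⌊u i w⌋₊ = ⌊u j w⌋₊) → i = j := by
    intro i j hij hfl
    refine hB i j (a i) (a j) (ha0 i) (ha0 j) ?_ ?_
    · rw [hJ i, hJ j, hij]
      ring
    · intro w
      rw [hLw i w, hLw j w, hij]
      have h1 := Nat.floor_le (hu0 i w).le
      have h2 := Nat.lt_floor_add_one (u i w)
      have h3 := Nat.floor_le (hu0 j w).le
      have h4 := Nat.lt_floor_add_one (u j w)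
      rw [hfl w] at h1 h2
      rw [abs_lt]
      constructor <;> linarith
  have hcard : Fintype.card ι = ∑ I ∈ (FI K N).filter Q, (univ.filter (fun i => J i = I)).card := by
    rw [← Finset.card_univ]
    exact Finset.card_eq_sum_card_fiberwise fun i _ => hJN i
  rw [hcard, Nat.cast_sum]
  refine Finset.sum_le_sum fun I hI => ?_
  by_cases hne : (univ.filter (fun i => J i = I)).Nonempty
  · obtain ⟨i0, hi0⟩ := hne
    rw [mem_filter] at hi0
    have hL0 : 0 ≤ Real.log ((N : ℝ) / Ideal.absNorm I) := by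
      rw [← hi0.2]; exact hlog0 i0
    set m := ⌊Real.log ((N : ℝ) / Ideal.absNorm I)⌋₊ with hm
    have h1 : (univ.filter (fun i => J i = I)).card ≤
        (Fintype.piFinset (fun _ : InfinitePlace K => range (m + 1))).card := by
      refine Finset.card_le_card_of_injOn (fun i w => ⌊u i w⌋₊) ?_ ?_
      · intro i hi
        rw [Finset.mem_coe, mem_filter] at hi
        rw [Finset.mem_coe, Fintype.mem_piFinset]
        intro w
        rw [mem_range]
        have h2 := hule i w
        rw [hi.2] at h2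
        have h3 : ⌊u i w⌋₊ ≤ m := Nat.floor_le_floor h2
        exact Nat.lt_succ_of_le h3
      · intro i hi j hj hij
        rw [Finset.mem_coe, mem_filter] at hi hj
        exact hinj i j (by rw [hi.2, hj.2]) fun w => congrFun hij w
    rw [Fintype.card_piFinset, Finset.prod_const, Finset.card_range, Finset.card_univ] at h1
    have h2 : Fintype.card (InfinitePlace K) ≤ n := by
      rw [← hn, ← InfinitePlace.sum_mult_eq (K := K), Fintype.card_eq_sum_ones]
      exact Finset.sum_le_sum fun w _ => Nat.succ_le_of_lt InfinitePlace.mult_pos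
    have h3 : ((m : ℝ) + 1) ≤ 1 + Real.log ((N : ℝ) / Ideal.absNorm I) := by
      have := Nat.floor_le hL0
      rw [← hm] at this
      linarith
    calc ((univ.filter (fun i => J i = I)).card : ℝ)
        ≤ (((m + 1) ^ Fintype.card (InfinitePlace K) : ℕ) : ℝ) := by exact_mod_cast h1
      _ = ((m : ℝ) + 1) ^ Fintype.card (InfinitePlace K) := by push_cast; rfl
      _ ≤ ((m : ℝ) + 1) ^ n := by
          refine pow_le_pow_right₀ ?_ h2
          have : (0 : ℝ) ≤ m := by positivity
          linarith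
      _ ≤ _ := by gcongr
  · rw [Finset.not_nonempty_iff_eq_empty] at hne
    rw [hne]
    rw [Finset.mem_filter, mem_FI] at hI
    have h4 : (0 : ℝ) < Ideal.absNorm I := by exact_mod_cast absNorm_pos hI.1.2
    have h5 : 1 ≤ (N : ℝ) / Ideal.absNorm I := by
      rw [le_div_iff₀ h4, one_mul]
      exact_mod_cast hI.1.1
    have := Real.log_nonneg h5
    simp only [Finset.card_empty, Nat.cast_zero]
    positivity



/-- the counting inequality for a family of classes (after `Pool.Agent.K1H79.QR.ev_g`) -/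
theorem ev_h {n : ℕ} (hn : Module.finrank ℚ K = n) {l : ℕ} (hl : 1 ≤ l) (N : ℕ)
    (hN : 2 ^ n * √|(discr K : ℝ)| < N) {ι κ : Type} [Fintype ι] [Fintype κ]
    (P : ι → (Ideal (𝓞 K))⁰) (A : κ → (Ideal (𝓞 K))⁰) (γ : κ → 𝓞 K)
    (hA1 : ∀ c c', ClassGroup.mk0 (A c) = ClassGroup.mk0 (A c') → c = c')
    (hA2 : ∀ c, (A c : Ideal (𝓞 K)) ^ l = Ideal.span {γ c}) (hA3 : ∀ c, γ c ≠ 0)
    (hA4 : ∀ c, ∀ w : InfinitePlace K, |Lw w (γ c : K)| ≤ 2 * l)
    (hsep : ∀ p q : ι, p ≠ q → ∀ x y : 𝓞 K, x ≠ 0 → y ≠ 0 →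
      Ideal.span {x} * (P p : Ideal (𝓞 K)) ^ l = Ideal.span {y} * (P q : Ideal (𝓞 K)) ^ l →
      (∀ w : InfinitePlace K, w (y : K) ≤ (150 : ℝ) ^ l *
        (((Ideal.absNorm (P p : Ideal (𝓞 K)) : ℝ) / Ideal.absNorm (P q : Ideal (𝓞 K))) ^ ((l : ℝ) / n)) *
          w (x : K)) → False)
    (Q : Ideal (𝓞 K) → Prop)
    (hQ : ∀ (i : ι) (c : κ), ∀ (a : 𝓞 K) (J : Ideal (𝓞 K)), a ≠ 0 →
      Ideal.span {a} = ((A c * P i : (Ideal (𝓞 K))⁰) : Ideal (𝓞 K)) * J →
      (∀ w : InfinitePlace K, w (a : K) ^ n < N * Ideal.absNorm ((A c * P i : (Ideal (𝓞 K))⁰) : Ideal (𝓞 K))) → Q J) :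
    (Fintype.card ι : ℝ) * (Fintype.card κ : ℝ) ≤
      ∑ J ∈ (FI K N).filter Q, (1 + Real.log ((N : ℝ) / Ideal.absNorm J)) ^ n := by
  have hn0 : 0 < n := by rw [← hn]; exact (Module.finrank_pos (R := ℚ) (M := K))
  have hnr : (0 : ℝ) < n := by exact_mod_cast hn0
  have hlr : (1 : ℝ) ≤ l := by exact_mod_cast hl
  have hP0 : ∀ p : ι, (0 : ℝ) < (Ideal.absNorm (P p : Ideal (𝓞 K)) : ℝ) := by
    intro p
    have : Ideal.absNorm (P p : Ideal (𝓞 K)) ≠ 0 := by
      rw [Ne, Ideal.absNorm_eq_zero_iff]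
      exact nonZeroDivisors.coe_ne_zero (P p)
    exact_mod_cast Nat.pos_of_ne_zero this
  have key := packM hn N hN (ι × κ)
    (fun i => A i.2 * P i.1) (by
      rintro ⟨p, c⟩ ⟨q, c'⟩ a b ha hb hab hw
      simp only [Submonoid.coe_mul] at hab
      have haK : (a : K) ≠ 0 := by exact_mod_cast ha
      have hbK : (b : K) ≠ 0 := by exact_mod_cast hb
      have hγK : (γ c : K) ≠ 0 := by exact_mod_cast hA3 c
      have hγK' : (γ c' : K) ≠ 0 := by exact_mod_cast hA3 c'
      have hpq : p = q := by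
        by_contra hne
        -- the l-th power
        obtain ⟨x, hx⟩ : ∃ x : 𝓞 K, x = b ^ l * γ c := ⟨_, rfl⟩
        obtain ⟨y, hy⟩ : ∃ y : 𝓞 K, y = a ^ l * γ c' := ⟨_, rfl⟩
        have hx0 : x ≠ 0 := by rw [hx]; exact mul_ne_zero (pow_ne_zero _ hb) (hA3 c)
        have hy0 : y ≠ 0 := by rw [hy]; exact mul_ne_zero (pow_ne_zero _ ha) (hA3 c')
        have hxK : (x : K) ≠ 0 := by exact_mod_cast hx0
        have hyK : (y : K) ≠ 0 := by exact_mod_cast hy0
        have e1 : Ideal.span {x} * (P p : Ideal (𝓞 K)) ^ l = Ideal.span {y} * (P q : Ideal (𝓞 K)) ^ l := by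
          have e2 := congrArg (fun I => I ^ l) hab
          simp only [mul_pow, Ideal.span_singleton_pow, hA2] at e2
          rw [hx, hy, ← Ideal.span_singleton_mul_span_singleton, ← Ideal.span_singleton_mul_span_singleton]
          calc _ = Ideal.span {b ^ l} * (Ideal.span {γ c} * (P p : Ideal (𝓞 K)) ^ l) := by ring
            _ = Ideal.span {a ^ l} * (Ideal.span {γ c'} * (P q : Ideal (𝓞 K)) ^ l) := e2.symm
            _ = _ := by ring
        -- norms
        have e3 : |((Algebra.norm ℚ (x : K) : ℚ) : ℝ)| * (Ideal.absNorm (P p : Ideal (𝓞 K)) : ℝ) ^ l =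
            |((Algebra.norm ℚ (y : K) : ℚ) : ℝ)| * (Ideal.absNorm (P q : Ideal (𝓞 K)) : ℝ) ^ l := by
          have e4 := congrArg Ideal.absNorm e1
          rw [map_mul, map_mul, map_pow, map_pow, Ideal.absNorm_span_singleton,
            Ideal.absNorm_span_singleton] at e4
          have e5 : ∀ z : 𝓞 K, |((Algebra.norm ℚ (z : K) : ℚ) : ℝ)| = (((Algebra.norm ℤ z).natAbs : ℕ) : ℝ) := by
            intro z
            rw [← Algebra.coe_norm_int, Nat.cast_natAbs]
            push_cast
            rfl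
          rw [e5, e5]
          exact_mod_cast e4
        have hnx : 0 < |((Algebra.norm ℚ (x : K) : ℚ) : ℝ)| := by
          rw [abs_pos]
          have : Algebra.norm ℚ (x : K) ≠ 0 := Algebra.norm_ne_zero_iff.2 hxK
          exact_mod_cast this
        have hny : 0 < |((Algebra.norm ℚ (y : K) : ℚ) : ℝ)| := by
          rw [abs_pos]
          have : Algebra.norm ℚ (y : K) ≠ 0 := Algebra.norm_ne_zero_iff.2 hyK
          exact_mod_cast this
        have e6 : Real.log |((Algebra.norm ℚ (y : K) : ℚ) : ℝ)| - Real.log |((Algebra.norm ℚ (x : K) : ℚ) : ℝ)| =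
            l * (Real.log (Ideal.absNorm (P p : Ideal (𝓞 K)) : ℝ) -
              Real.log (Ideal.absNorm (P q : Ideal (𝓞 K)) : ℝ)) := by
          have e7 := congrArg Real.log e3
          rw [Real.log_mul hnx.ne' (pow_pos (hP0 p) l).ne', Real.log_mul hny.ne' (pow_pos (hP0 q) l).ne',
            Real.log_pow, Real.log_pow] at e7
          linarith
        refine hsep p q hne x y hx0 hy0 e1 fun w => ?_
        -- the size at the place `w`
        have hLx : Lw w (x : K) = l * Lw w (b : K) + Lw w (γ c : K) := by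
          rw [hx]
          push_cast
          rw [Lw_mul w (pow_ne_zero _ hbK) hγK, Lw_pow]
        have hLy : Lw w (y : K) = l * Lw w (a : K) + Lw w (γ c' : K) := by
          rw [hy]
          push_cast
          rw [Lw_mul w (pow_ne_zero _ haK) hγK', Lw_pow]
        have h2 := abs_lt.mp (hw w)
        have h3 := abs_le.mp (hA4 c w)
        have h4 := abs_le.mp (hA4 c' w)
        have hL : Lw w (y : K) - Lw w (x : K) ≤ 5 * l := by
          have h5 : (l : ℝ) * (Lw w (a : K) - Lw w (b : K)) ≤ l * 1 :=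
            mul_le_mul_of_nonneg_left (by linarith) (by linarith)
          rw [hLx, hLy]
          nlinarith
        unfold Lw at hL
        rw [hn] at hL
        have hwx : 0 < w (x : K) := w_pos w hxK
        have hwy : 0 < w (y : K) := w_pos w hyK
        have h150 : (5 : ℝ) ≤ Real.log 150 := by
          rw [Real.le_log_iff_exp_le (by norm_num)]
          have h6 : Real.exp 1 < 2.7182818286 := Real.exp_one_lt_d9
          have h7 : Real.exp 5 = Real.exp 1 ^ 5 := by
            rw [← Real.exp_nat_mul]; norm_num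
          rw [h7]
          have h8 : Real.exp 1 ^ 5 ≤ (2.7182818286 : ℝ) ^ 5 := by
            gcongr
          refine h8.trans ?_
          norm_num
        have hdiv : (0 : ℝ) < (Ideal.absNorm (P p : Ideal (𝓞 K)) : ℝ) / Ideal.absNorm (P q : Ideal (𝓞 K)) :=
          div_pos (hP0 p) (hP0 q)
        refine (Real.log_le_log_iff hwy (by positivity)).mp ?_
        rw [Real.log_mul (by positivity) hwx.ne', Real.log_mul (by positivity) (by positivity), Real.log_pow,
          Real.log_rpow hdiv, Real.log_div (hP0 p).ne' (hP0 q).ne']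
        have h9 : (Real.log |((Algebra.norm ℚ (y : K) : ℚ) : ℝ)|) / n -
            (Real.log |((Algebra.norm ℚ (x : K) : ℚ) : ℝ)|) / n = (l : ℝ) / n *
            (Real.log (Ideal.absNorm (P p : Ideal (𝓞 K)) : ℝ) -
              Real.log (Ideal.absNorm (P q : Ideal (𝓞 K)) : ℝ)) := by
          rw [← sub_div, e6]
          ring
        nlinarith
      subst hpq
      have hc : c = c' := by
        have hP0 : (P p : Ideal (𝓞 K)) ≠ 0 := nonZeroDivisors.coe_ne_zero _
        have e1 : Ideal.span {a} * (A c' : Ideal (𝓞 K)) =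
            Ideal.span {b} * (A c : Ideal (𝓞 K)) := by
          rw [← mul_assoc, ← mul_assoc] at hab
          exact mul_right_cancel₀ hP0 hab
        have e2 : ClassGroup.mk0 (A c') = ClassGroup.mk0 (A c) := by
          rw [ClassGroup.mk0_eq_mk0_iff]
          exact ⟨a, b, ha, hb, e1⟩
        exact (hA1 _ _ e2).symm
      rw [hc]) Q (fun i => hQ i.1 i.2)
  rw [Fintype.card_prod] at key
  push_cast at key
  exact key



end Pool.Agent.K1H79.RF
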