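import Pool.Agent.K1H79.RF.Idx

/-! # Additive functions on ideals and the class group -/

set_option autoImplicit false

namespace Pool.Agent.K1H79.RF

open NumberField IsDedekindDomain Ideal CohNT UniqueFactorizationMonoid
open scoped Classical nonZeroDivisors

section ev

variable {K : Type} [Field K] [NumberField K] {A : Type} [AddCommGroup A]

/-- a function on the primes as a function on all ideals -/
noncomputable def gI (f : Pr K → A) (P : Ideal (𝓞 K)) : A :=
  if h : P.IsPrime ∧ P ≠ ⊥ then f ⟨P, h.1, h.2⟩ else 0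

/-- the additive extension -/
noncomputable def ev (f : Pr K → A) (I : Ideal (𝓞 K)) : A := ((normalizedFactors I).map (gI f)).sum

theorem gI_asIdeal (f : Pr K → A) (v : Pr K) : gI f v.asIdeal = f v := by
  unfold gI
  rw [dif_pos ⟨v.isPrime, v.ne_bot⟩]

theorem ev_mul (f : Pr K → A) {I J : Ideal (𝓞 K)} (hI : I ≠ 0) (hJ : J ≠ 0) :
    ev f (I * J) = ev f I + ev f J := by
  unfold ev
  rw [normalizedFactors_mul hI hJ, Multiset.map_add, Multiset.sum_add]

theorem ev_one (f : Pr K → A) : ev f (1 : Ideal (𝓞 K)) = 0 := by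
  unfold ev
  rw [normalizedFactors_one]
  simp

theorem ev_top (f : Pr K → A) : ev f (⊤ : Ideal (𝓞 K)) = 0 := by
  rw [← Ideal.one_eq_top, ev_one]

theorem ev_pow (f : Pr K → A) {I : Ideal (𝓞 K)} (hI : I ≠ 0) (n : ℕ) : ev f (I ^ n) = n • ev f I := by
  induction n with
  | zero => rw [pow_zero, ev_one, zero_smul]
  | succ n ih => rw [pow_succ, ev_mul f (pow_ne_zero n hI) hI, ih, succ_nsmul]

theorem ev_prime (f : Pr K → A) (v : Pr K) : ev f v.asIdeal = f v := by
  unfold ev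
  rw [normalizedFactors_irreducible v.irreducible, normalize_eq, Multiset.map_singleton,
    Multiset.sum_singleton, gI_asIdeal]

/-- the exponent of `v` -/
noncomputable def cn (v : Pr K) (I : Ideal (𝓞 K)) : ℕ := (normalizedFactors I).count v.asIdeal

theorem ev_eq_sum (f : Pr K → A) {I : Ideal (𝓞 K)} (S : Finset (Pr K))
    (hS : ∀ v, cn v I ≠ 0 → v ∈ S) : ev f I = ∑ v ∈ S, cn v I • f v := by
  unfold ev
  rw [Finset.sum_multiset_map_count]
  have h1 : ∑ v ∈ S, cn v I • f v = ∑ P ∈ S.image (fun v : Pr K => v.asIdeal), (normalizedFactors I).count P • gI f P := by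
    rw [Finset.sum_image (fun v _ w _ h => HeightOneSpectrum.ext h)]
    refine Finset.sum_congr rfl fun v _ => ?_
    rw [gI_asIdeal]
    rfl
  rw [h1]
  refine Finset.sum_subset_zero_on_sdiff ?_ ?_ (fun _ _ => rfl)
  · intro P hP
    rw [Multiset.mem_toFinset] at hP
    have hPp : Prime P := prime_of_normalized_factor P hP
    have hP1 : P.IsPrime := Ideal.isPrime_of_prime hPp
    rw [Finset.mem_image]
    refine ⟨⟨P, hP1, hPp.ne_zero⟩, hS _ ?_, rfl⟩
    unfold cn
    exact (Multiset.count_pos.2 hP).ne'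
  · intro P hP
    rw [Finset.mem_sdiff, Multiset.mem_toFinset] at hP
    rw [Multiset.count_eq_zero.2 hP.2, zero_smul]

theorem ord_span (v : Pr K) {a : 𝓞 K} (ha : a ≠ 0) : ord v (a : K) = cn v (Ideal.span {a}) := by
  have hsr : Ideal.span {a} ≠ 0 := Submodule.span_singleton_eq_bot.mp.mt ha
  have hfm : FiniteMultiplicity v.asIdeal (Ideal.span {a}) :=
    FiniteMultiplicity.of_prime_left v.prime hsr
  unfold ord cn
  have h1 : v.valuation K (a : K) = v.intValuation a := v.valuation_of_algebraMap a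
  rw [h1, v.intValuation_eq_exp_neg_multiplicity ha, WithZero.log_exp, neg_neg]
  congr 1
  have h2 := emultiplicity_eq_count_normalizedFactors v.irreducible hsr
  rw [hfm.emultiplicity_eq_multiplicity, normalize_eq] at h2
  exact_mod_cast h2

/-- principal fractional ideals -/
theorem ev_frac {f : Pr K → A} (hf : ∀ a : 𝓞 K, a ≠ 0 → ev f (Ideal.span {a}) = 0) {x : K} (hx : x ≠ 0)
    (S : Finset (Pr K)) (hS : ∀ v, ord v x ≠ 0 → v ∈ S) : ∑ v ∈ S, ord v x • f v = 0 := by
  obtain ⟨a, b, hb, hab⟩ := IsFractionRing.div_surjective (A := 𝓞 K) x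
  have hb0 : b ≠ 0 := nonZeroDivisors.ne_zero hb
  have hbK : (b : K) ≠ 0 := by exact_mod_cast hb0
  have ha0 : a ≠ 0 := by
    rintro rfl
    apply hx
    rw [← hab, map_zero, zero_div]
  have haK : (a : K) ≠ 0 := by exact_mod_cast ha0
  have hordx : ∀ v : Pr K, ord v x = ord v (a : K) - ord v (b : K) := by
    intro v
    rw [← hab]
    exact (ord_api v).2.2.2.2.1 _ _ haK hbK
  obtain ⟨S', hS'⟩ : ∃ S' : Finset (Pr K), (∀ v, ord v (a : K) ≠ 0 → v ∈ S') ∧
      (∀ v, ord v (b : K) ≠ 0 → v ∈ S') ∧ S ⊆ S' := by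
    refine ⟨(J_h90.h90_fin (a : K) haK).toFinset ∪ (J_h90.h90_fin (b : K) hbK).toFinset ∪ S, ?_, ?_, ?_⟩
    · intro v hv
      rw [Finset.mem_union, Finset.mem_union, Set.Finite.mem_toFinset]
      exact Or.inl (Or.inl hv)
    · intro v hv
      rw [Finset.mem_union, Finset.mem_union, Set.Finite.mem_toFinset, Set.Finite.mem_toFinset]
      exact Or.inl (Or.inr hv)
    · exact Finset.subset_union_right
  have h1 : ∑ v ∈ S, ord v x • f v = ∑ v ∈ S', ord v x • f v := by
    refine Finset.sum_subset hS'.2.2 ?_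
    intro v _ hv
    have : ord v x = 0 := by
      by_contra h
      exact hv (hS v h)
    rw [this, zero_smul]
  have h2 : ∀ c : 𝓞 K, c ≠ 0 → (∀ v, ord v (c : K) ≠ 0 → v ∈ S') → ∑ v ∈ S', ord v (c : K) • f v = 0 := by
    intro c hc hcS
    have h3 := ev_eq_sum f (I := Ideal.span {c}) S' (fun v hv => hcS v (by
      rw [ord_span v hc]
      exact_mod_cast hv))
    rw [hf c hc] at h3
    rw [h3]
    refine Finset.sum_congr rfl fun v _ => ?_
    rw [ord_span v hc, natCast_zsmul]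
  rw [h1]
  have h3 : ∑ v ∈ S', ord v x • f v = ∑ v ∈ S', ord v (a : K) • f v - ∑ v ∈ S', ord v (b : K) • f v := by
    rw [← Finset.sum_sub_distrib]
    refine Finset.sum_congr rfl fun v _ => ?_
    rw [hordx, sub_smul]
  rw [h3, h2 a ha0 hS'.1, h2 b hb0 hS'.2.1, sub_zero]

/-- descent to the class group -/
theorem lift_class {G : Type} [CommGroup G] (χ : (Ideal (𝓞 K))⁰ →* G)
    (h : ∀ (I : (Ideal (𝓞 K))⁰) (a : 𝓞 K), (I : Ideal (𝓞 K)) = Ideal.span {a} → χ I = 1) :
    ∃ Ψ : ClassGroup (𝓞 K) →* G, ∀ I, Ψ (ClassGroup.mk0 I) = χ I := by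
  have hcl : ∀ I J : (Ideal (𝓞 K))⁰, ClassGroup.mk0 I = ClassGroup.mk0 J → χ I = χ J := by
    intro I J hIJ
    obtain ⟨x, y, hx, hy, hxy⟩ := ClassGroup.mk0_eq_mk0_iff.1 hIJ
    have hx' : Ideal.span {x} ∈ (Ideal (𝓞 K))⁰ := mem_nonZeroDivisors_of_ne_zero (by
      rw [Ne, Ideal.zero_eq_bot, Ideal.span_singleton_eq_bot]; exact hx)
    have hy' : Ideal.span {y} ∈ (Ideal (𝓞 K))⁰ := mem_nonZeroDivisors_of_ne_zero (by
      rw [Ne, Ideal.zero_eq_bot, Ideal.span_singleton_eq_bot]; exact hy)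
    have h1 : (⟨_, hx'⟩ : (Ideal (𝓞 K))⁰) * I = ⟨_, hy'⟩ * J := Subtype.ext hxy
    have h2 := congrArg χ h1
    rw [map_mul, map_mul, h ⟨_, hx'⟩ x rfl, h ⟨_, hy'⟩ y rfl, one_mul, one_mul] at h2
    exact h2
  choose J hJ using (ClassGroup.mk0_surjective (R := 𝓞 K))
  refine ⟨MonoidHom.mk' (fun C => χ (J C)) ?_, ?_⟩
  · intro C D
    rw [← map_mul]
    apply hcl
    rw [map_mul, hJ, hJ, hJ]
  · intro I
    exact hcl _ _ (hJ _)

/-- a nonzero ideal -/
def pI (v : Pr K) : (Ideal (𝓞 K))⁰ := ⟨v.asIdeal, mem_nonZeroDivisors_of_ne_zero v.ne_bot⟩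

theorem ev_class (f : Pr K → A) (hf : ∀ a : 𝓞 K, a ≠ 0 → ev f (Ideal.span {a}) = 0) :
    ∃ Ψ : ClassGroup (𝓞 K) →* Multiplicative A, ∀ I : (Ideal (𝓞 K))⁰,
      Ψ (ClassGroup.mk0 I) = Multiplicative.ofAdd (ev f (I : Ideal (𝓞 K))) := by
  obtain ⟨Ψ, hΨ⟩ := lift_class (K := K) (G := Multiplicative A)
    { toFun := fun I => Multiplicative.ofAdd (ev f (I : Ideal (𝓞 K)))
      map_one' := by
        show Multiplicative.ofAdd (ev f (1 : Ideal (𝓞 K))) = 1
        rw [ev_one]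
        rfl
      map_mul' := by
        intro I J
        show Multiplicative.ofAdd (ev f ((I : Ideal (𝓞 K)) * (J : Ideal (𝓞 K)))) = _
        rw [ev_mul f (nonZeroDivisors.ne_zero I.2) (nonZeroDivisors.ne_zero J.2), ofAdd_add] } (by
      intro I a hI
      show Multiplicative.ofAdd (ev f (I : Ideal (𝓞 K))) = 1
      have ha : a ≠ 0 := by
        rintro rfl
        rw [Ideal.span_singleton_eq_bot.2 rfl] at hI
        exact nonZeroDivisors.ne_zero I.2 hI
      rw [hI, hf a ha]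
      rfl)
  exact ⟨Ψ, hΨ⟩

end ev

end Pool.Agent.K1H79.RF
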