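import Pool.Agent.K1H79.RF.Stm
import Pool.Agent.K1H79.RF.KumEx
import Pool.Agent.Y772.DK.Dir

/-! # Dirichlet sums over primes, injectivity of the class characters -/

set_option autoImplicit false

namespace Pool.Agent.K1H79.RF

open NumberField IsDedekindDomain Ideal CohNT
open scoped Classical nonZeroDivisors

variable {F : Type} [Field F] [NumberField F]

theorem nv_sum {s : ℝ} (hs : 1 < s) : Summable fun v : Pr F => ((Ideal.absNorm v.asIdeal : ℕ) : ℝ) ^ (-s) := by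
  have h1 := Pool.Agent.Y772.DK.nr_summable F hs
  have hinj : Function.Injective (fun v : Pr F => v.asIdeal) := fun v w h => HeightOneSpectrum.ext h
  exact h1.comp_injective hinj

theorem nv_nonneg (v : Pr F) (s : ℝ) : 0 ≤ ((Ideal.absNorm v.asIdeal : ℕ) : ℝ) ^ (-s) :=
  Real.rpow_nonneg (Nat.cast_nonneg _) _

theorem nv_pos (v : Pr F) : 0 < Ideal.absNorm v.asIdeal := by
  have : Ideal.absNorm v.asIdeal ≠ 0 := by
    rw [Ne, Ideal.absNorm_eq_zero_iff]; exact v.ne_bot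
  omega

theorem nv_le_one (v : Pr F) {s : ℝ} (hs : 1 < s) : ((Ideal.absNorm v.asIdeal : ℕ) : ℝ) ^ (-s) ≤ 1 := by
  apply Real.rpow_le_one_of_one_le_of_nonpos _ (by linarith)
  exact_mod_cast nv_pos v

theorem sm_hasSum (P : Pr F → Prop) {s : ℝ} (hs : 1 < s) :
    HasSum (fun v : Pr F => if P v then ((Ideal.absNorm v.asIdeal : ℕ) : ℝ) ^ (-s) else 0) (Sm F P s) := by
  refine Summable.hasSum (Summable.of_nonneg_of_le (fun v => ?_) (fun v => ?_) (nv_sum (F := F) hs))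
  · split_ifs
    · exact nv_nonneg v s
    · exact le_rfl
  · split_ifs
    · exact le_rfl
    · exact nv_nonneg v s

theorem sm_mono {P Q : Pr F → Prop} (h : ∀ v, P v → Q v) {s : ℝ} (hs : 1 < s) : Sm F P s ≤ Sm F Q s := by
  refine hasSum_le (fun v => ?_) (sm_hasSum P hs) (sm_hasSum Q hs)
  by_cases hP : P v
  · rw [if_pos hP, if_pos (h v hP)]
  · rw [if_neg hP]
    split_ifs
    · exact nv_nonneg v s
    · exact le_rfl

theorem sm_nonneg (P : Pr F → Prop) {s : ℝ} (_ : 1 < s) : 0 ≤ Sm F P s := by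
  unfold Sm
  refine tsum_nonneg (fun v => ?_)
  split_ifs
  · exact nv_nonneg v s
  · exact le_rfl

theorem sm_fin {P : Pr F → Prop} (hP : {v | P v}.Finite) : ∃ C : ℝ, ∀ s : ℝ, 1 < s → Sm F P s ≤ C := by
  refine ⟨hP.toFinset.card, fun s hs => ?_⟩
  have h1 : HasSum (fun v : Pr F => if P v then ((Ideal.absNorm v.asIdeal : ℕ) : ℝ) ^ (-s) else 0)
      (∑ v ∈ hP.toFinset, if P v then ((Ideal.absNorm v.asIdeal : ℕ) : ℝ) ^ (-s) else 0) := by
    apply hasSum_sum_of_ne_finset_zero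
    intro v hv
    rw [Set.Finite.mem_toFinset] at hv
    exact if_neg hv
  rw [(sm_hasSum P hs).unique h1]
  have h2 := Finset.sum_le_card_nsmul hP.toFinset
    (fun v => if P v then ((Ideal.absNorm v.asIdeal : ℕ) : ℝ) ^ (-s) else 0) 1 (fun v _ => by
      split_ifs
      · exact nv_le_one v hs
      · exact zero_le_one)
  simpa using h2

theorem fin3 : {v : Pr F | (3 : 𝓞 F) ∈ v.asIdeal}.Finite := by
  have h1 : Ideal.span {(3 : 𝓞 F)} ≠ 0 := by
    rw [Ne, Ideal.zero_eq_bot, Ideal.span_singleton_eq_bot]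
    exact OfNat.ofNat_ne_zero 3
  refine (Ideal.finite_factors h1).subset fun v hv => ?_
  show v.asIdeal ∣ Ideal.span {(3 : 𝓞 F)}
  rw [Ideal.dvd_iff_le, Ideal.span_singleton_le_iff_mem]
  exact hv

theorem no_bound {C : ℝ} (h : ∀ s : ℝ, 1 < s → s ≤ 2 → Real.log (1 / (s - 1)) ≤ C) : False := by
  obtain ⟨B, hB⟩ : ∃ B : ℝ, B = max C 0 + 1 := ⟨_, rfl⟩
  have hB0 : 0 < B := by rw [hB]; positivity
  have h1 := h (1 + Real.exp (-B)) (by linarith [Real.exp_pos (-B)]) (by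
    have : Real.exp (-B) ≤ 1 := Real.exp_le_one_iff.2 (by linarith)
    linarith)
  rw [add_sub_cancel_left, one_div, ← Real.exp_neg, neg_neg, Real.log_exp] at h1
  have := le_max_left C 0
  linarith

/-- the density of the set attached to a good element -/
theorem dens (hA1 : S_A1) (hA3 : S_A3) {ω : 𝓞 F} (hω : ω ^ 2 + ω + 1 = 0) {a : 𝓞 F} (ha : Gd a)
    (hnc : ∀ b : F, b ^ 3 ≠ (a : F)) :
    ∃ C : ℝ, ∀ s : ℝ, 1 < s → s ≤ 2 → |3 * Sm F (Qa a) s - Real.log (1 / (s - 1))| ≤ C := by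
  have hω' : (ω : F) ^ 2 + (ω : F) + 1 = 0 := by exact_mod_cast congrArg (fun z : 𝓞 F => (z : F)) hω
  obtain ⟨M, _, _, _, h3, σ, θ, hσ, hθ, hσθ⟩ := exists_kum hω' hnc
  obtain ⟨⟨ha0, 𝔟, hb⟩, g, h, hgh, hg⟩ := ha
  have hun := kum_unr h3 σ hσ hω ha0 hb hgh hg hθ hσθ
  obtain ⟨C1, hC1⟩ := hA3 hA1 F M h3 σ hσ hun
  obtain ⟨C2, hC2⟩ := sm_fin (fin3 (F := F))
  have hiff : ∀ v : Pr F, (3 : 𝓞 F) ∉ v.asIdeal → (¬ NSp M v ↔ Qa a v) := by
    intro v hv
    exact ⟨fun hns => ⟨hv, of_split h3 σ hσ hun ha0 hb hθ hns⟩, fun hq => split_of hω σ hv hθ hσθ hq.2⟩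
  refine ⟨C1 + 3 * C2, fun s hs hs2 => ?_⟩
  have h4 := abs_le.1 (hC1 s hs hs2)
  have h5 : Sm F (fun v => ¬ NSp M v) s ≤ Sm F (Qa a) s + Sm F (fun v => (3 : 𝓞 F) ∈ v.asIdeal) s := by
    refine hasSum_le (fun v => ?_) (sm_hasSum _ hs) ((sm_hasSum _ hs).add (sm_hasSum _ hs))
    have h0 := nv_nonneg v s
    by_cases hv : (3 : 𝓞 F) ∈ v.asIdeal
    · rw [if_pos hv]
      split_ifs <;> linarith
    · rw [if_neg hv]
      by_cases hq : Qa a v
      · rw [if_pos hq, if_pos ((hiff v hv).2 hq)]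
        linarith
      · rw [if_neg hq, if_neg (fun h => hq ((hiff v hv).1 h))]
        linarith
  have h6 : Sm F (Qa a) s ≤ Sm F (fun v => ¬ NSp M v) s := sm_mono (fun v hv => (hiff v hv.1).2 hv) hs
  have h7 := hC2 s hs
  have h8 := sm_nonneg (fun v : Pr F => (3 : 𝓞 F) ∈ v.asIdeal) hs
  rw [abs_le]
  constructor <;> linarith

/-- **injectivity** -/
theorem inj (hA1 : S_A1) (hA2 : S_A2) (hA3 : S_A3) {ω : 𝓞 F} (hω : ω ^ 2 + ω + 1 = 0) {a b : 𝓞 F}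
    (ha : Gd a) (hb : Gd b) (hna : ∀ x : F, x ^ 3 ≠ (a : F)) (hnb : ∀ x : F, x ^ 3 ≠ (b : F))
    (hnab : ∀ x : F, x ^ 3 ≠ ((a * b : 𝓞 F) : F)) (hnabb : ∀ x : F, x ^ 3 ≠ ((a * (b * b) : 𝓞 F) : F))
    {Ψ : ClassGroup (𝓞 F) →* Multiplicative (ZMod 3)} (hΨ : Ψ ≠ 1)
    (hΨa : ∀ v : Pr F, Qa a v → Ψ (ClassGroup.mk0 (pI v)) = 1)
    (hΨb : ∀ v : Pr F, Qa b v → Ψ (ClassGroup.mk0 (pI v)) = 1) : False := by
  obtain ⟨C1, hC1⟩ := dens hA1 hA3 hω ha hna
  obtain ⟨C2, hC2⟩ := dens hA1 hA3 hω hb hnb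
  obtain ⟨C3, hC3⟩ := dens hA1 hA3 hω (ha.mul hb) hnab
  obtain ⟨C4, hC4⟩ := dens hA1 hA3 hω (ha.mul (hb.mul hb)) hnabb
  obtain ⟨C5, hC5⟩ := hA2 F Ψ hΨ
  obtain ⟨C6, hC6⟩ := sm_fin (fin3 (F := F))
  obtain ⟨C7, hC7⟩ := hA1 F
  refine no_bound (C := (3 / 2) * (C5 + C1 + C2 + (C1 + C2 + C3 + C4) / 3 + C6 + C7)) fun s hs hs2 => ?_
  have k1 := abs_le.1 (hC1 s hs hs2)
  have k2 := abs_le.1 (hC2 s hs hs2)
  have k3 := abs_le.1 (hC3 s hs hs2)
  have k4 := abs_le.1 (hC4 s hs hs2)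
  have k5 := hC5 s hs hs2
  have k6 := hC6 s hs
  have k7 := abs_le.1 (hC7 s hs hs2)
  have H1 := sm_hasSum (Qa a) hs
  have H2 := sm_hasSum (Qa b) hs
  have H3 := sm_hasSum (Qa (a * b)) hs
  have H4 := sm_hasSum (Qa (a * (b * b))) hs
  have H5 := sm_hasSum (fun v : Pr F => Qa a v ∧ Qa b v) hs
  have H6 := sm_hasSum (fun v : Pr F => (3 : 𝓞 F) ∈ v.asIdeal) hs
  have H7 := sm_hasSum (fun _ : Pr F => True) hs
  have H8 := sm_hasSum (fun v : Pr F => Ψ (ClassGroup.mk0 (pI v)) = 1) hs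
  have f1 : Sm F (fun _ => True) s + 3 * Sm F (fun v : Pr F => Qa a v ∧ Qa b v) s ≤
      Sm F (Qa a) s + Sm F (Qa b) s + Sm F (Qa (a * b)) s + Sm F (Qa (a * (b * b))) s +
        Sm F (fun v : Pr F => (3 : 𝓞 F) ∈ v.asIdeal) s := by
    refine hasSum_le (fun v => ?_) (H7.add (H5.mul_left 3)) ((((H1.add H2).add H3).add H4).add H6)
    have h0 := nv_nonneg v s
    rw [if_pos trivial]
    by_cases hv : (3 : 𝓞 F) ∈ v.asIdeal
    · have n1 : ¬ Qa a v := fun h => h.1 hv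
      have n2 : ¬ (Qa a v ∧ Qa b v) := fun h => n1 h.1
      rw [if_pos hv, if_neg n2, if_neg n1]
      split_ifs <;> linarith
    · rw [if_neg hv]
      by_cases h5 : Qa a v ∧ Qa b v
      · have h3 : Qa (a * b) v := ⟨hv, h5.1.2.mul h5.2.2⟩
        have h4 : Qa (a * (b * b)) v := ⟨hv, h5.1.2.mul (h5.2.2.mul h5.2.2)⟩
        rw [if_pos h5, if_pos h5.1, if_pos h5.2, if_pos h3, if_pos h4]
        linarith
      · rw [if_neg h5]
        rcases four_cu ha.1 hb.1 v with h | h | h | h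
        · rw [if_pos (show Qa a v from ⟨hv, h⟩)]
          split_ifs <;> linarith
        · rw [if_pos (show Qa b v from ⟨hv, h⟩)]
          split_ifs <;> linarith
        · rw [if_pos (show Qa (a * b) v from ⟨hv, h⟩)]
          split_ifs <;> linarith
        · rw [if_pos (show Qa (a * (b * b)) v from ⟨hv, h⟩)]
          split_ifs <;> linarith
  have f2 : Sm F (Qa a) s + Sm F (Qa b) s ≤ Sm F (fun v : Pr F => Ψ (ClassGroup.mk0 (pI v)) = 1) s +
      Sm F (fun v : Pr F => Qa a v ∧ Qa b v) s := by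
    refine hasSum_le (fun v => ?_) (H1.add H2) (H8.add H5)
    have h0 := nv_nonneg v s
    by_cases h1 : Qa a v
    · rw [if_pos h1, if_pos (hΨa v h1)]
      by_cases h2 : Qa b v
      · rw [if_pos h2, if_pos ⟨h1, h2⟩]
      · rw [if_neg h2]
        split_ifs <;> linarith
    · rw [if_neg h1]
      by_cases h2 : Qa b v
      · rw [if_pos h2, if_pos (hΨb v h2)]
        split_ifs <;> linarith
      · rw [if_neg h2]
        split_ifs <;> linarith
  linarith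

end Pool.Agent.K1H79.RF
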