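import Pool.Agent.K1H79.RF.Kum

/-! # The splitting criterion, and the four cubic extensions attached to two elements -/

set_option autoImplicit false

namespace Pool.Agent.K1H79.RF

open NumberField IsDedekindDomain Ideal CohNT UniqueFactorizationMonoid
open scoped Classical nonZeroDivisors

variable {E M : Type} [Field E] [NumberField E] [Field M] [NumberField M] [Algebra E M]

/-- `a` is a cube at the place `v` -/
def Cu (a : 𝓞 E) (v : Pr E) : Prop := ∃ (r : 𝓞 E) (c : E), c ≠ 0 ∧ r ∉ v.asIdeal ∧ (r : E) = (a : E) * c ^ 3 ∧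
  ∃ z : 𝓞 E, r - z ^ 3 ∈ v.asIdeal

/-- the splitting criterion at a prime not above `3` -/
theorem split_of {ω : 𝓞 E} (hω : ω ^ 2 + ω + 1 = 0) (σ : M ≃ₐ[E] M)
    {v : Pr E} (hv3 : (3 : 𝓞 E) ∉ v.asIdeal) {a : 𝓞 E}
    {θ : M} (hθ : θ ^ 3 = algebraMap E M (a : E)) (hσθ : σ θ = algebraMap E M (ω : E) * θ)
    (h : Cu a v) : ¬ NSp M v := by
  obtain ⟨r, c, hc0, hrv, hrc, z, hz⟩ := h
  intro hns
  obtain ⟨w, hw⟩ := (above_api (M := M) v).1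
  obtain ⟨t, ht1, ht3⟩ := exists_t hrc hθ
  have htw := t_not_mem hw hrv ht3
  have hσt : σ (t : M) = algebraMap E M (ω : E) * (t : M) := by
    rw [ht1, map_mul, hσθ, AlgEquiv.commutes]
    ring
  obtain ⟨W, hW⟩ : ∃ W : 𝓞 M, W = algebraMap (𝓞 E) (𝓞 M) ω := ⟨_, rfl⟩
  obtain ⟨Z, hZ⟩ : ∃ Z : 𝓞 M, Z = algebraMap (𝓞 E) (𝓞 M) z := ⟨_, rfl⟩
  have hW2 : W ^ 2 + W + 1 = 0 := by
    rw [hW, ← map_pow, ← map_add, ← map_one (algebraMap (𝓞 E) (𝓞 M)), ← map_add, hω, map_zero]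
  have h1 : (t - Z) * ((t - W * Z) * (t - W ^ 2 * Z)) ∈ w.asIdeal := by
    have h2 : (t - Z) * ((t - W * Z) * (t - W ^ 2 * Z)) = algebraMap (𝓞 E) (𝓞 M) (r - z ^ 3) := by
      rw [map_sub, map_pow, ← ht3, ← hZ]
      have hW3 : W ^ 3 = 1 := by linear_combination (W - 1) * hW2
      linear_combination (-t ^ 2 * Z + t * Z ^ 2 * W) * hW2 - Z ^ 3 * hW3
    rw [h2, alg_mem hw]
    exact hz
  have key : ∀ c : 𝓞 E, t - algebraMap (𝓞 E) (𝓞 M) c ∉ w.asIdeal := fun c =>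
    not_cong hω σ hv3 hns hw htw hσt c
  rcases w.isPrime.mem_or_mem h1 with h2 | h2
  · exact key z (by rw [← hZ]; exact h2)
  · rcases w.isPrime.mem_or_mem h2 with h3 | h3
    · exact key (ω * z) (by rw [map_mul, ← hZ, ← hW]; exact h3)
    · exact key (ω ^ 2 * z) (by rw [map_mul, map_pow, ← hZ, ← hW]; exact h3)

theorem of_split (h3 : Module.finrank E M = 3) (σ : M ≃ₐ[E] M) (hσ : σ ≠ 1) (hun : UnrAll E M)
    {v : Pr E} {a : 𝓞 E} (ha : a ≠ 0) {𝔟 : Ideal (𝓞 E)} (hb : Ideal.span {a} = 𝔟 ^ 3)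
    {θ : M} (hθ : θ ^ 3 = algebraMap E M (a : E)) (hns : ¬ NSp M v) : Cu a v := by
  obtain ⟨r, c, hc0, hrv, hrc⟩ := loc_gen v ha hb
  obtain ⟨w, hw⟩ := (above_api (M := M) v).1
  obtain ⟨t, ht1, ht3⟩ := exists_t hrc hθ
  obtain ⟨z, hz⟩ := res_surj hw (rel_split h3 σ hσ hun hns hw) t
  refine ⟨r, c, hc0, hrv, hrc, z, ?_⟩
  rw [← alg_mem hw, map_sub, map_pow, ← ht3]
  have h1 : t ^ 3 - algebraMap (𝓞 E) (𝓞 M) z ^ 3 = (t - algebraMap (𝓞 E) (𝓞 M) z) *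
      (t ^ 2 + t * algebraMap (𝓞 E) (𝓞 M) z + algebraMap (𝓞 E) (𝓞 M) z ^ 2) := by ring
  rw [h1]
  exact Ideal.mul_mem_right _ _ hz

theorem Cu.mul {a b : 𝓞 E} {v : Pr E} (ha : Cu a v) (hb : Cu b v) : Cu (a * b) v := by
  obtain ⟨r, c, hc0, hrv, hrc, z, hz⟩ := ha
  obtain ⟨r', c', hc0', hrv', hrc', z', hz'⟩ := hb
  refine ⟨r * r', c * c', mul_ne_zero hc0 hc0', ?_, ?_, z * z', ?_⟩
  · intro h
    rcases v.isPrime.mem_or_mem h with h | h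
    · exact hrv h
    · exact hrv' h
  · have e1 : ((r * r' : 𝓞 E) : E) = (r : E) * (r' : E) := rfl
    have e2 : ((a * b : 𝓞 E) : E) = (a : E) * (b : E) := rfl
    rw [e1, e2, hrc, hrc']
    ring
  · have h1 : r * r' - (z * z') ^ 3 = (r - z ^ 3) * r' + z ^ 3 * (r' - z' ^ 3) := by ring
    rw [h1]
    exact Ideal.add_mem _ (Ideal.mul_mem_right _ _ hz) (Ideal.mul_mem_left _ _ hz')

/-- in a finite field -/
theorem four_units {k : Type} [Field k] [Finite k] (x y : kˣ) :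
    (∃ z : kˣ, x = z ^ 3) ∨ (∃ z : kˣ, y = z ^ 3) ∨ (∃ z : kˣ, x * y = z ^ 3) ∨ (∃ z : kˣ, x * y ^ 2 = z ^ 3) := by
  obtain ⟨g, hg⟩ := IsCyclic.exists_generator (α := kˣ)
  obtain ⟨i, rfl⟩ := Subgroup.mem_zpowers_iff.1 (hg x)
  obtain ⟨j, rfl⟩ := Subgroup.mem_zpowers_iff.1 (hg y)
  have h1 : (∃ m : ℤ, i = 3 * m) ∨ (∃ m : ℤ, j = 3 * m) ∨ (∃ m : ℤ, i + j = 3 * m) ∨ (∃ m : ℤ, i + 2 * j = 3 * m) := by
    have e : ∀ m : ℤ, (∃ k : ℤ, m = 3 * k) ↔ m % 3 = 0 := by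
      intro m
      constructor
      · rintro ⟨k, rfl⟩; omega
      · intro h; exact ⟨m / 3, by omega⟩
    rw [e, e, e, e]
    have hi : i % 3 = 0 ∨ i % 3 = 1 ∨ i % 3 = 2 := by omega
    have hj : j % 3 = 0 ∨ j % 3 = 1 ∨ j % 3 = 2 := by omega
    rcases hi with hi | hi | hi
    · exact Or.inl hi
    · rcases hj with hj | hj | hj
      · exact Or.inr (Or.inl hj)
      · exact Or.inr (Or.inr (Or.inr (by omega)))
      · exact Or.inr (Or.inr (Or.inl (by omega)))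
    · rcases hj with hj | hj | hj
      · exact Or.inr (Or.inl hj)
      · exact Or.inr (Or.inr (Or.inl (by omega)))
      · exact Or.inr (Or.inr (Or.inr (by omega)))
  have e2 : ∀ m : ℤ, g ^ (3 * m) = (g ^ m) ^ 3 := by
    intro m
    rw [mul_comm, zpow_mul]
    norm_cast
  rcases h1 with ⟨m, h⟩ | ⟨m, h⟩ | ⟨m, h⟩ | ⟨m, h⟩
  · exact Or.inl ⟨g ^ m, by rw [h, e2]⟩
  · exact Or.inr (Or.inl ⟨g ^ m, by rw [h, e2]⟩)
  · refine Or.inr (Or.inr (Or.inl ⟨g ^ m, ?_⟩))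
    rw [← zpow_add, h, e2]
  · refine Or.inr (Or.inr (Or.inr ⟨g ^ m, ?_⟩))
    have : (g ^ j) ^ 2 = g ^ (2 * j) := by
      rw [mul_comm 2 j, zpow_mul]
      norm_cast
    rw [this, ← zpow_add, h, e2]

theorem res_fin (v : Pr E) : Finite (𝓞 E ⧸ v.asIdeal) := by
  have hv0 : Ideal.absNorm v.asIdeal ≠ 0 := by
    rw [Ne, Ideal.absNorm_eq_zero_iff]; exact v.ne_bot
  rw [Ideal.absNorm_apply, Submodule.cardQuot_apply] at hv0
  exact Nat.finite_of_card_ne_zero hv0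

/-- modulo a prime -/
theorem four_mod (v : Pr E) {x y : 𝓞 E} (hx : x ∉ v.asIdeal) (hy : y ∉ v.asIdeal) :
    (∃ z : 𝓞 E, x - z ^ 3 ∈ v.asIdeal) ∨ (∃ z : 𝓞 E, y - z ^ 3 ∈ v.asIdeal) ∨
    (∃ z : 𝓞 E, x * y - z ^ 3 ∈ v.asIdeal) ∨ (∃ z : 𝓞 E, x * (y * y) - z ^ 3 ∈ v.asIdeal) := by
  have hm : v.asIdeal.IsMaximal := v.isMaximal
  let _ : Field (𝓞 E ⧸ v.asIdeal) := Ideal.Quotient.field _
  have := res_fin v
  have hx' : Ideal.Quotient.mk v.asIdeal x ≠ 0 := by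
    rwa [Ne, Ideal.Quotient.eq_zero_iff_mem]
  have hy' : Ideal.Quotient.mk v.asIdeal y ≠ 0 := by
    rwa [Ne, Ideal.Quotient.eq_zero_iff_mem]
  have key : ∀ u : 𝓞 E, ∀ z : (𝓞 E ⧸ v.asIdeal)ˣ, Ideal.Quotient.mk v.asIdeal u = (z : 𝓞 E ⧸ v.asIdeal) ^ 3 →
      ∃ z : 𝓞 E, u - z ^ 3 ∈ v.asIdeal := by
    intro u z h
    obtain ⟨z', hz'⟩ := Ideal.Quotient.mk_surjective (z : 𝓞 E ⧸ v.asIdeal)
    refine ⟨z', ?_⟩
    rw [← Ideal.Quotient.eq, map_pow, hz', h]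
  rcases four_units (Units.mk0 _ hx') (Units.mk0 _ hy') with ⟨z, hz⟩ | ⟨z, hz⟩ | ⟨z, hz⟩ | ⟨z, hz⟩
  · exact Or.inl (key x z (by
      have := congrArg Units.val hz
      simpa using this))
  · exact Or.inr (Or.inl (key y z (by
      have := congrArg Units.val hz
      simpa using this)))
  · exact Or.inr (Or.inr (Or.inl (key (x * y) z (by
      have := congrArg Units.val hz
      simpa using this))))
  · exact Or.inr (Or.inr (Or.inr (key (x * (y * y)) z (by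
      have := congrArg Units.val hz
      rw [← sq]
      simpa using this))))

/-- the ideal generated by `a` is a cube -/
def IC (a : 𝓞 E) : Prop := a ≠ 0 ∧ ∃ 𝔟 : Ideal (𝓞 E), Ideal.span {a} = 𝔟 ^ 3

theorem IC.mul {a b : 𝓞 E} (ha : IC a) (hb : IC b) : IC (a * b) := by
  obtain ⟨ha0, 𝔟, h1⟩ := ha
  obtain ⟨hb0, 𝔟', h2⟩ := hb
  refine ⟨mul_ne_zero ha0 hb0, 𝔟 * 𝔟', ?_⟩
  rw [← Ideal.span_singleton_mul_span_singleton, h1, h2, mul_pow]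

theorem four_cu {a b : 𝓞 E} (ha : IC a) (hb : IC b) (v : Pr E) :
    Cu a v ∨ Cu b v ∨ Cu (a * b) v ∨ Cu (a * (b * b)) v := by
  obtain ⟨ha0, 𝔟, h1⟩ := ha
  obtain ⟨hb0, 𝔟', h2⟩ := hb
  obtain ⟨r, c, hc0, hrv, hrc⟩ := loc_gen v ha0 h1
  obtain ⟨r', c', hc0', hrv', hrc'⟩ := loc_gen v hb0 h2
  have hm : ∀ x y : 𝓞 E, x ∉ v.asIdeal → y ∉ v.asIdeal → x * y ∉ v.asIdeal := by
    intro x y hx hy h
    rcases v.isPrime.mem_or_mem h with h | h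
    · exact hx h
    · exact hy h
  rcases four_mod v hrv hrv' with ⟨z, hz⟩ | ⟨z, hz⟩ | ⟨z, hz⟩ | ⟨z, hz⟩
  · exact Or.inl ⟨r, c, hc0, hrv, hrc, z, hz⟩
  · exact Or.inr (Or.inl ⟨r', c', hc0', hrv', hrc', z, hz⟩)
  · refine Or.inr (Or.inr (Or.inl ⟨r * r', c * c', mul_ne_zero hc0 hc0', hm _ _ hrv hrv', ?_, z, hz⟩))
    have e1 : ((r * r' : 𝓞 E) : E) = (r : E) * (r' : E) := rfl
    have e2 : ((a * b : 𝓞 E) : E) = (a : E) * (b : E) := rfl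
    rw [e1, e2, hrc, hrc']
    ring
  · refine Or.inr (Or.inr (Or.inr ⟨r * (r' * r'), c * (c' * c'), mul_ne_zero hc0 (mul_ne_zero hc0' hc0'),
      hm _ _ hrv (hm _ _ hrv' hrv'), ?_, z, hz⟩))
    have e1 : ((r * (r' * r') : 𝓞 E) : E) = (r : E) * ((r' : E) * (r' : E)) := rfl
    have e2 : ((a * (b * b) : 𝓞 E) : E) = (a : E) * ((b : E) * (b : E)) := rfl
    rw [e1, e2, hrc, hrc']
    ring

end Pool.Agent.K1H79.RF
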