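import Pool.Agent.K1H79.RF.Stm

/-! # Stronger statements of the pieces T3 and T4

Owner helper79.  The generator of `L` is taken to be the integral element `q^3 * ν` or `q^3 * t`, where
`ν = α * τ α`, `t = α + τ α`; this replaces the exponent `6 n (2 n - 1)` (for `|disc L|^2`) by `3 n (n - 1)`
(for `|disc L|`). -/

set_option autoImplicit false

namespace Pool.Agent.K1H79.RF

open NumberField IsDedekindDomain CohNT
open scoped Classical nonZeroDivisors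

/-- the good rational primes: `p = 2 mod 3`, inert in `L` -/
def Ine (L : Type) [Field L] [NumberField L] (p : ℕ) : Prop :=
  p.Prime ∧ p % 3 = 2 ∧ (Ideal.span {((p : ℕ) : 𝓞 L)}).IsPrime

/-- `P` is one of the two primes of `K` above `p` -/
def Ov (K : Type) [Field K] [NumberField K] (p : ℕ) (P : Ideal (𝓞 K)) : Prop :=
  P.IsPrime ∧ ((p : ℕ) : 𝓞 K) ∈ P ∧ ∃ P' : Ideal (𝓞 K), P'.IsPrime ∧ ((p : ℕ) : 𝓞 K) ∈ P' ∧ P' ≠ P

/-- T3a: the primes of `K = L(√-3)` above the good primes -/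
def S_PRM : Prop := ∀ (L K : Type) [Field L] [NumberField L] [Field K] [NumberField K] [Algebra L K],
  Even (Module.finrank ℚ L) → Module.finrank L K = 2 → ∀ ω : K, ω ^ 2 + ω + 1 = 0 →
    (∀ z : L, z ^ 2 + z + 1 ≠ 0) → ∀ p : ℕ, Ine L p → ∃ P : Ideal (𝓞 K), Ov K p P ∧
      Ideal.relNorm (𝓞 L) P = Ideal.span {((p : ℕ) : 𝓞 L)}

/-- T3b: the separation of the primes -/
def S_SEP : Prop := ∀ n : ℕ, Even n → 4 ≤ n → ∀ B : ℝ, 0 < B → ∃ C : ℝ, 0 < C ∧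
  ∀ (L K : Type) [Field L] [NumberField L] [Field K] [NumberField K] [Algebra L K],
    Module.finrank ℚ L = n → QR.NoSub L → Module.finrank L K = 2 → ∀ ω : K, ω ^ 2 + ω + 1 = 0 →
    ∀ p q : ℕ, p ≠ q → Ine L p → Ine L q → ∀ P Q : Ideal (𝓞 K), Ov K p P → Ov K q Q →
    ∀ x y : 𝓞 K, x ≠ 0 → y ≠ 0 → Ideal.span {x} * P ^ 3 = Ideal.span {y} * Q ^ 3 →
    (∀ w : InfinitePlace K, w (y : K) ≤ B * ((p : ℝ) / q) ^ (3 / 2 : ℝ) * w (x : K)) →
      |(discr L : ℝ)| ≤ C * (max (p : ℝ) q) ^ (3 * n * (n - 1))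

/-- T3c: the counting inequality for `K = L(√-3)`, stronger form -/
def S_EVK' : Prop := ∀ n : ℕ, Even n → 4 ≤ n → ∃ C : ℝ, 0 < C ∧
  ∀ (L K : Type) [Field L] [NumberField L] [Field K] [NumberField K] [Algebra L K],
    Module.finrank ℚ L = n → QR.NoSub L → Module.finrank L K = 2 → ∀ ω : K, ω ^ 2 + ω + 1 = 0 →
    ∀ (M : Finset ℕ) (Y : ℝ), (∀ p ∈ M, (p : ℝ) ≤ Y ∧ Ine L p) →
      C * Y ^ (3 * n * (n - 1)) < |(discr L : ℝ)| →
      ∀ N : ℕ, 2 ^ (2 * n) * √|(discr K : ℝ)| < N →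
        (M.card : ℝ) * (Nat.card {c : ClassGroup (𝓞 K) // c ^ 3 = 1} : ℝ) ≤
          ∑ J ∈ Pool.Agent.TH847.LS.FI K N, (1 + Real.log ((N : ℝ) / Ideal.absNorm J)) ^ (2 * n)

/-- T4: the final estimate, stronger form -/
def S_FIN' : Prop := S_DISC → S_EVK' → S_REFL → ∀ n : ℕ, Even n → 4 ≤ n → ∀ ε : ℝ, 0 < ε →
  QR.SavE n 3 (1 / 2 - 1 / (6 * n * (n - 1)) + ε) (fun L _ _ => QR.NoSub L)

end Pool.Agent.K1H79.RF
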